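import Mathlib

set_option autoImplicit false
set_option linter.unusedSectionVars false
set_option linter.unusedVariables false

namespace Pool.Agent.Helper889.Na

abbrev A := alternatingGroup (Fin 5)
abbrev I := Fin 3
abbrev Y := Fin 5
abbrev B := I → A
abbrev X := I × Y

/-- Abstract data of the group: rooted part `A`, directed part `B`, and `P` the embedding of the
direct power `G^X` as the first level stabiliser. -/
structure Core (G : Type) [Group G] where
  iA : A →* G
  iB : B →* G
  P : (X → G) →* G
  P_inj : Function.Injective P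
  gen : Subgroup.closure (Set.range iA ∪ Set.range iB) = ⊤
  dec : ∀ g : G, ∃ (σ : A) (w : X → G), g = iA σ * P w
  dec_inj : ∀ (σ : A) (w : X → G), iA σ * P w = 1 → σ = 1
  conj : ∀ (σ : A) (w : X → G), iA σ * P w * (iA σ)⁻¹ = P (fun x => w (x.1, (σ⁻¹ : A).1 x.2))
  dirB : ∀ b : B, iB b = P (fun x => if x.2 = 0 then iB b else if x.2 = 1 then iA (b x.1) else 1)

namespace Core

variable {G : Type} [Group G] (c : Core G)

/-- generators -/
def S : Set G := Set.range c.iA ∪ Set.range c.iB

/-- ball of radius `R` in the word metric -/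
def ball (R : ℕ) : Set G := {g | ∃ l : List G, l.length ≤ R ∧ (∀ s ∈ l, s ∈ c.S) ∧ l.prod = g}

/-- the conjugates `σ⁻¹ b σ`, seen in `G^X` -/
def gW (σ : A) (b : B) : X → G :=
  fun x => if σ.1 x.2 = 0 then c.iB b else if σ.1 x.2 = 1 then c.iA (b x.1) else 1

end Core

section fn
variable {W : Type} [Group W]

/-- left translation of finitely supported functions: `(tr w f) x = f (w⁻¹ * x)` -/
noncomputable def tr (w : W) (f : W →₀ ℝ) : W →₀ ℝ := Finsupp.mapDomain (fun x => w * x) f

/-- inner product of finitely supported functions -/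
noncomputable def ip (f g : W →₀ ℝ) : ℝ := f.sum fun x a => a * g x

/-- squared norm -/
noncomputable def N (f : W →₀ ℝ) : ℝ := ip f f

end fn

namespace Core
variable {G : Type} [Group G] (c : Core G)

/-- energy on `G` -/
noncomputable def ED (ψ : G →₀ ℝ) : ℝ :=
  (∑ σ : A, N (tr (c.iA σ) ψ - ψ)) / (Fintype.card A : ℝ) + (∑ b : B, N (tr (c.iB b) ψ - ψ)) / (Fintype.card B : ℝ)

/-- energy on `G^X` -/
noncomputable def EW (φ : (X → G) →₀ ℝ) : ℝ :=
  ∑ σ : A, (∑ b : B, N (tr (c.gW σ b) φ - φ)) / (Fintype.card B : ℝ)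

end Core

end Pool.Agent.Helper889.Na
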