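import Mathlib
import Pool.Agent.Helper889.Na.Defs

set_option autoImplicit false
set_option linter.unusedSectionVars false
set_option linter.unusedVariables false


namespace Pool.Agent.Helper889.Na
section
variable {W : Type} [Group W]

theorem ip_eq_sum_aux (f g : W →₀ ℝ) (s : Finset W) (hs : f.support ⊆ s) :
    ip f g = ∑ x ∈ s, f x * g x := by
  unfold ip
  rw [Finsupp.sum_of_support_subset f hs _ (fun i _ => by rw [zero_mul])]

theorem tr_apply (w : W) (f : W →₀ ℝ) (x : W) : tr w f x = f (w⁻¹ * x) := by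
  unfold tr
  have h := Finsupp.mapDomain_apply (mul_right_injective w) f (w⁻¹ * x)
  simp only [mul_inv_cancel_left] at h
  exact h
theorem tr_one (f : W →₀ ℝ) : tr 1 f = f := by
  ext x; rw [tr_apply]; simp
theorem tr_mul (w v : W) (f : W →₀ ℝ) : tr (w * v) f = tr w (tr v f) := by
  ext x; rw [tr_apply, tr_apply, tr_apply, mul_inv_rev, mul_assoc]
theorem tr_add (w : W) (f g : W →₀ ℝ) : tr w (f + g) = tr w f + tr w g := by
  ext x; rw [Finsupp.add_apply, tr_apply, tr_apply, tr_apply, Finsupp.add_apply]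
theorem tr_sub (w : W) (f g : W →₀ ℝ) : tr w (f - g) = tr w f - tr w g := by
  ext x; rw [Finsupp.sub_apply, tr_apply, tr_apply, tr_apply, Finsupp.sub_apply]
theorem tr_smul (w : W) (a : ℝ) (f : W →₀ ℝ) : tr w (a • f) = a • tr w f := by
  ext x; rw [Finsupp.smul_apply, tr_apply, tr_apply, Finsupp.smul_apply]
theorem ip_comm (f g : W →₀ ℝ) : ip f g = ip g f := by
  classical
  rw [ip_eq_sum_aux f g (f.support ∪ g.support) Finset.subset_union_left,
    ip_eq_sum_aux g f (f.support ∪ g.support) Finset.subset_union_right]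
  exact Finset.sum_congr rfl (fun x _ => mul_comm _ _)
theorem ip_add_left (f g h : W →₀ ℝ) : ip (f + g) h = ip f h + ip g h := by
  unfold ip
  exact Finsupp.sum_add_index' (fun _ => zero_mul _) (fun _ _ _ => add_mul _ _ _)
theorem ip_add_right (f g h : W →₀ ℝ) : ip f (g + h) = ip f g + ip f h := by
  rw [ip_comm, ip_add_left, ip_comm g, ip_comm h]
theorem ip_smul_left (a : ℝ) (f g : W →₀ ℝ) : ip (a • f) g = a * ip f g := by
  rw [ip_eq_sum_aux (a • f) g f.support Finsupp.support_smul,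
    ip_eq_sum_aux f g f.support (Finset.Subset.refl _), Finset.mul_sum]
  refine Finset.sum_congr rfl (fun x _ => ?_)
  rw [Finsupp.smul_apply, smul_eq_mul, mul_assoc]
theorem ip_smul_right (a : ℝ) (f g : W →₀ ℝ) : ip f (a • g) = a * ip f g := by
  rw [ip_comm, ip_smul_left, ip_comm]
theorem ip_sub_left (f g h : W →₀ ℝ) : ip (f - g) h = ip f h - ip g h := by
  have h1 : f - g = f + (-1 : ℝ) • g := by rw [neg_one_smul, sub_eq_add_neg]
  rw [h1, ip_add_left, ip_smul_left]; ring
theorem ip_sub_right (f g h : W →₀ ℝ) : ip f (g - h) = ip f g - ip f h := by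
  rw [ip_comm, ip_sub_left, ip_comm g, ip_comm h]
theorem ip_tr (w : W) (f g : W →₀ ℝ) : ip (tr w f) (tr w g) = ip f g := by
  unfold ip
  have h1 : (tr w f).sum (fun x a => a * (tr w g) x) =
      f.sum (fun x a => a * (tr w g) (w * x)) := by
    unfold tr
    exact Finsupp.sum_mapDomain_index (fun _ => zero_mul _) (fun _ _ _ => add_mul _ _ _)
  rw [h1]
  apply Finsupp.sum_congr
  intro x _
  rw [tr_apply, inv_mul_cancel_left]
theorem N_eq_sum_aux (f : W →₀ ℝ) (s : Finset W) (hs : f.support ⊆ s) :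
    N f = ∑ x ∈ s, f x ^ 2 := by
  unfold N
  rw [ip_eq_sum_aux f f s hs]
  exact Finset.sum_congr rfl (fun x _ => by ring)
theorem N_nonneg (f : W →₀ ℝ) : 0 ≤ N f := by
  rw [N_eq_sum_aux f f.support (Finset.Subset.refl _)]
  exact Finset.sum_nonneg (fun x _ => sq_nonneg _)
theorem N_eq_zero {f : W →₀ ℝ} (h : N f = 0) : f = 0 := by
  rw [N_eq_sum_aux f f.support (Finset.Subset.refl _)] at h
  ext x
  by_cases hx : x ∈ f.support
  · have := (Finset.sum_eq_zero_iff_of_nonneg (fun x _ => sq_nonneg _)).1 h x hx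
    simpa using this
  · simpa using hx
theorem N_tr (w : W) (f : W →₀ ℝ) : N (tr w f) = N f := ip_tr w f f
theorem N_smul (a : ℝ) (f : W →₀ ℝ) : N (a • f) = a ^ 2 * N f := by
  unfold N; rw [ip_smul_left, ip_smul_right]; ring
theorem N_neg (f : W →₀ ℝ) : N (-f) = N f := by
  rw [← neg_one_smul ℝ f, N_smul]; ring
theorem N_add (f g : W →₀ ℝ) : N (f + g) = N f + 2 * ip f g + N g := by
  unfold N; rw [ip_add_left, ip_add_right, ip_add_right, ip_comm g f]; ring
theorem N_sub (f g : W →₀ ℝ) : N (f - g) = N f - 2 * ip f g + N g := by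
  unfold N; rw [ip_sub_left, ip_sub_right, ip_sub_right, ip_comm g f]; ring
theorem N_eq_sum (f : W →₀ ℝ) (s : Finset W) (hs : f.support ⊆ s) : N f = ∑ x ∈ s, f x ^ 2 :=
  N_eq_sum_aux f s hs
theorem ip_eq_sum (f g : W →₀ ℝ) (s : Finset W) (hs : f.support ⊆ s) :
    ip f g = ∑ x ∈ s, f x * g x := ip_eq_sum_aux f g s hs
/-- Cauchy-Schwarz -/
theorem ip_sq_le (f g : W →₀ ℝ) : ip f g ^ 2 ≤ N f * N g := by
  classical
  rw [ip_eq_sum_aux f g (f.support ∪ g.support) Finset.subset_union_left,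
    N_eq_sum_aux f (f.support ∪ g.support) Finset.subset_union_left,
    N_eq_sum_aux g (f.support ∪ g.support) Finset.subset_union_right]
  exact Finset.sum_mul_sq_le_sq_mul_sq _ _ _
/-- triangle inequality -/
theorem sqrt_N_add (f g : W →₀ ℝ) : √(N (f + g)) ≤ √(N f) + √(N g) := by
  apply Real.sqrt_le_iff.2
  refine ⟨by positivity, ?_⟩
  rw [N_add, add_sq, Real.sq_sqrt (N_nonneg f), Real.sq_sqrt (N_nonneg g)]
  have h1 : ip f g ≤ √(N f) * √(N g) := by
    rw [← Real.sqrt_mul (N_nonneg f)]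
    exact Real.le_sqrt_of_sq_le (ip_sq_le f g)
  linarith
end
end Pool.Agent.Helper889.Na
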