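import Mathlib

set_option autoImplicit false

namespace Pool.Agent.Helper889.Na

open scoped InnerProductSpace

lemma j21778_half {H : Type} [NormedAddCommGroup H] [InnerProductSpace ℝ H]
    (A : H ≃ₗᵢ[ℝ] H) (v : H) : ⟪v - A v, v⟫_ℝ = ‖v - A v‖ ^ 2 / 2 := by
  have h1 : ‖v - A v‖ ^ 2 = ‖v‖ ^ 2 - 2 * ⟪v, A v⟫_ℝ + ‖A v‖ ^ 2 := norm_sub_sq_real v (A v)
  rw [A.norm_map] at h1
  rw [inner_sub_left, real_inner_self_eq_norm_sq, real_inner_comm v (A v)]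
  linarith

lemma j21778_inv {W : Type} {H : Type} [NormedAddCommGroup H] [InnerProductSpace ℝ H]
    (U : W → (H ≃ₗᵢ[ℝ] H)) (S : Finset W) (v : H)
    (h : ∑ s ∈ S, ⟪v - U s v, v⟫_ℝ = 0) : ∀ s ∈ S, U s v = v := by
  simp only [j21778_half] at h
  intro s hs
  have h1 := (Finset.sum_eq_zero_iff_of_nonneg (fun i _ => by positivity)).mp h s hs
  have h2 : ‖v - U s v‖ ^ 2 = 0 := by linarith
  have h3 : v - U s v = 0 := by
    rw [← norm_eq_zero]
    exact pow_eq_zero_iff (two_ne_zero) |>.mp h2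
  exact (sub_eq_zero.mp h3).symm

lemma j21778_flip {W : Type} [Group W] {H : Type} [NormedAddCommGroup H] [InnerProductSpace ℝ H]
    (U : W →* (H ≃ₗᵢ[ℝ] H)) (S : Finset W) (h1 : ∀ s ∈ S, s⁻¹ ∈ S) (p : W → H)
    (h2 : ∀ s ∈ S, p s⁻¹ = -(U s⁻¹ (p s))) (v : H) :
    ∑ s ∈ S, ⟪p s, U s v - v⟫_ℝ = -2 * ⟪∑ s ∈ S, p s, v⟫_ℝ := by
  have h3 : ∀ s ∈ S, ⟪p s, U s v⟫_ℝ = -⟪p s⁻¹, v⟫_ℝ := by
    intro s hs
    rw [h2 s hs, inner_neg_left, neg_neg]
    have h4 : ⟪U s (U s⁻¹ (p s)), U s v⟫_ℝ = ⟪U s⁻¹ (p s), v⟫_ℝ :=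
      LinearIsometryEquiv.inner_map_map _ _ _
    rw [← h4]
    have h5 : U s (U s⁻¹ (p s)) = p s := by
      have h6 : U (s * s⁻¹) (p s) = U s (U s⁻¹ (p s)) := by
        rw [map_mul]
        rfl
      rw [← h6, mul_inv_cancel, map_one]
      rfl
    rw [h5]
  have h6 : ∑ s ∈ S, p s⁻¹ = ∑ s ∈ S, p s := by
    refine Finset.sum_nbij' (fun s => s⁻¹) (fun s => s⁻¹) (fun s hs => h1 s hs)
      (fun s hs => h1 s hs) (fun s _ => inv_inv s) (fun s _ => inv_inv s) (fun s _ => rfl)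
  have h7 : ∀ s ∈ S, ⟪p s, U s v - v⟫_ℝ = -⟪p s⁻¹, v⟫_ℝ - ⟪p s, v⟫_ℝ := by
    intro s hs
    rw [inner_sub_right, h3 s hs]
  rw [Finset.sum_congr rfl h7, Finset.sum_sub_distrib, Finset.sum_neg_distrib, ← sum_inner,
    ← sum_inner, h6]
  ring

lemma j21778_alg {W : Type} [Group W] {H : Type} [NormedAddCommGroup H] [InnerProductSpace ℝ H]
    (U : W →* (H ≃ₗᵢ[ℝ] H)) (K : Submodule ℝ H)
    (S₁ S₂ : Finset W) (h1 : ∀ s ∈ S₁, s⁻¹ ∈ S₁) (h2 : ∀ s ∈ S₂, s⁻¹ ∈ S₂)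
    (hinv1 : ∀ v ∈ K, (∀ s ∈ S₁, U s v = v) → v = 0)
    (hinv2 : ∀ v ∈ K, (∀ s ∈ S₂, U s v = v) → v = 0) (p q : W → H)
    (hp : ∀ s ∈ S₁, p s ∈ K) (hq : ∀ t ∈ S₂, q t ∈ K)
    (hpq : ∀ s ∈ S₁, ∀ t ∈ S₂, p s - U t (p s) = q t - U s (q t))
    (hp' : ∀ s ∈ S₁, p s⁻¹ = -(U s⁻¹ (p s))) (hq' : ∀ s ∈ S₂, q s⁻¹ = -(U s⁻¹ (q s)))
    (horth : ∀ v ∈ K, ∑ s ∈ S₁, ⟪p s, U s v - v⟫_ℝ + ∑ t ∈ S₂, ⟪q t, U t v - v⟫_ℝ = 0) :
    (∀ s ∈ S₁, p s = 0) ∧ ∀ t ∈ S₂, q t = 0 := by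
  set P := ∑ s ∈ S₁, p s with hP
  set Q := ∑ t ∈ S₂, q t with hQ
  have hPK : P ∈ K := K.sum_mem hp
  have hQK : Q ∈ K := K.sum_mem hq
  have hPQ : P + Q = 0 := by
    have h3 := horth (P + Q) (K.add_mem hPK hQK)
    rw [j21778_flip U S₁ h1 p hp', j21778_flip U S₂ h2 q hq', ← hP, ← hQ, ← mul_add,
      ← inner_add_left] at h3
    have h4 : ⟪P + Q, P + Q⟫_ℝ = 0 := by linarith
    exact inner_self_eq_zero.mp h4
  have hQP : Q = -P := by
    rw [eq_neg_iff_add_eq_zero, add_comm]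
    exact hPQ
  -- the double sum
  have hsum1 : ∀ s ∈ S₁, ∑ t ∈ S₂, (p s - U t (p s)) = Q - U s Q := by
    intro s hs
    rw [Finset.sum_congr rfl fun t ht => hpq s hs t ht, Finset.sum_sub_distrib, ← map_sum]
  have hsum2 : ∀ t ∈ S₂, ∑ s ∈ S₁, (q t - U s (q t)) = P - U t P := by
    intro t ht
    rw [Finset.sum_congr rfl fun s hs => (hpq s hs t ht).symm, Finset.sum_sub_distrib, ← map_sum]
  have hdouble : ∑ t ∈ S₂, (P - U t P) = ∑ s ∈ S₁, (Q - U s Q) := by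
    rw [← Finset.sum_congr rfl hsum2, ← Finset.sum_congr rfl hsum1, Finset.sum_comm]
    exact Finset.sum_congr rfl fun s hs => Finset.sum_congr rfl fun t ht => (hpq s hs t ht).symm
  have hP0 : P = 0 := by
    apply hinv2 P hPK
    have h3 : ∑ t ∈ S₂, ⟪P - U t P, P⟫_ℝ + ∑ s ∈ S₁, ⟪P - U s P, P⟫_ℝ = 0 := by
      rw [← sum_inner, ← sum_inner, hdouble, hQP]
      rw [← inner_add_left, ← Finset.sum_add_distrib]
      have h4 : ∑ s ∈ S₁, (-P - U s (-P) + (P - U s P)) = 0 := by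
        refine Finset.sum_eq_zero fun s _ => ?_
        rw [map_neg]
        abel
      rw [h4, inner_zero_left]
    have h5 : 0 ≤ ∑ t ∈ S₂, ⟪P - U t P, P⟫_ℝ := by
      refine Finset.sum_nonneg fun t _ => ?_
      rw [j21778_half]
      positivity
    have h6 : 0 ≤ ∑ s ∈ S₁, ⟪P - U s P, P⟫_ℝ := by
      refine Finset.sum_nonneg fun t _ => ?_
      rw [j21778_half]
      positivity
    exact j21778_inv (fun t => U t) S₂ P (by linarith)
  have hQ0 : Q = 0 := by rw [hQP, hP0, neg_zero]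
  constructor
  · intro s hs
    apply hinv2 _ (hp s hs)
    apply j21778_inv (fun t => U t) S₂ (p s)
    rw [← sum_inner, hsum1 s hs, hQ0, map_zero, sub_zero, inner_zero_left]
  · intro t ht
    apply hinv1 _ (hq t ht)
    apply j21778_inv (fun t => U t) S₁ (q t)
    rw [← sum_inner, hsum2 t ht, hP0, map_zero, sub_zero, inner_zero_left]

lemma j21778_cl {X ι : Type} [TopologicalSpace X] {P : ι → X → Prop}
    (h : ∀ i, IsClosed {x | P i x}) : IsClosed {x | ∀ i, P i x} := by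
  have h1 : {x | ∀ i, P i x} = ⋂ i, {x | P i x} := by
    ext x
    simp
  rw [h1]
  exact isClosed_iInter h

/-- the coboundary map -/
noncomputable def j21778_D {H : Type} [NormedAddCommGroup H] [InnerProductSpace ℝ H]
    {ι : Type} [Fintype ι] (A : ι → (H ≃ₗᵢ[ℝ] H)) : H →ₗ[ℝ] PiLp 2 (fun _ : ι => H) where
  toFun v := WithLp.toLp 2 (fun i => A i v - v)
  map_add' := by
    intro v w
    ext i
    simp only [map_add, PiLp.add_apply]
    abel
  map_smul' := by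
    intro c v
    ext i
    simp only [map_smul, PiLp.smul_apply, RingHom.id_apply, smul_sub]

theorem approx_coboundary {W : Type} [Group W] {H : Type} [NormedAddCommGroup H] [InnerProductSpace ℝ H] [CompleteSpace H]
    (U : W →* (H ≃ₗᵢ[ℝ] H)) (b : W → H) (hb : ∀ w v, b (w * v) = b w + U w (b v))
    (K : Submodule ℝ H) (hK : IsClosed (K : Set H)) (hUK : ∀ w, ∀ v ∈ K, U w v ∈ K) (hbK : ∀ w, b w ∈ K)
    (S₁ S₂ : Finset W) (h1 : ∀ s ∈ S₁, s⁻¹ ∈ S₁) (h2 : ∀ s ∈ S₂, s⁻¹ ∈ S₂)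
    (hcomm : ∀ s ∈ S₁, ∀ t ∈ S₂, s * t = t * s)
    (hinv1 : ∀ v ∈ K, (∀ s ∈ S₁, U s v = v) → v = 0)
    (hinv2 : ∀ v ∈ K, (∀ s ∈ S₂, U s v = v) → v = 0)
    (ε : ℝ) (hε : 0 < ε) :
    ∃ v ∈ K, (∀ s ∈ S₁, ‖b s - (U s v - v)‖ < ε) ∧ (∀ s ∈ S₂, ‖b s - (U s v - v)‖ < ε) := by
  classical
  let val : (↥S₁ ⊕ ↥S₂) → W := Sum.elim (fun s => (s : W)) (fun s => (s : W))
  let D : H →ₗ[ℝ] PiLp 2 (fun _ : (↥S₁ ⊕ ↥S₂) => H) := j21778_D (fun i => U (val i))
  have hD : ∀ v i, D v i = U (val i) v - v := fun v i => rfl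
  let bb : PiLp 2 (fun _ : (↥S₁ ⊕ ↥S₂) => H) := WithLp.toLp 2 (fun i => b (val i))
  have hbb : ∀ i, bb i = b (val i) := fun i => rfl
  let C : Submodule ℝ (PiLp 2 (fun _ : (↥S₁ ⊕ ↥S₂) => H)) := (K.map D).topologicalClosure
  haveI hCc : CompleteSpace C := (Submodule.isClosed_topologicalClosure _).completeSpace_coe
  -- closed relations
  have hrel : ∀ c ∈ C, (∀ i, (bb - c) i ∈ K) ∧
      (∀ (s : ↥S₁) (t : ↥S₂), (bb - c) (Sum.inl s) - U t ((bb - c) (Sum.inl s)) =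
        (bb - c) (Sum.inr t) - U s ((bb - c) (Sum.inr t))) ∧
      (∀ s : ↥S₁, (bb - c) (Sum.inl ⟨(s : W)⁻¹, h1 s s.2⟩) =
        -(U (s : W)⁻¹ ((bb - c) (Sum.inl s)))) ∧
      (∀ s : ↥S₂, (bb - c) (Sum.inr ⟨(s : W)⁻¹, h2 s s.2⟩) =
        -(U (s : W)⁻¹ ((bb - c) (Sum.inr s)))) := by
    have hcont : ∀ i, Continuous (fun c : PiLp 2 (fun _ : (↥S₁ ⊕ ↥S₂) => H) => (bb - c) i) := by
      intro i
      exact (PiLp.continuous_apply 2 _ i).comp (continuous_const.sub continuous_id)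
    have hcontU : ∀ w i, Continuous (fun c : PiLp 2 (fun _ : (↥S₁ ⊕ ↥S₂) => H) =>
        U w ((bb - c) i)) := fun w i => (U w).continuous.comp (hcont i)
    have hclosed : IsClosed {c : PiLp 2 (fun _ : (↥S₁ ⊕ ↥S₂) => H) | (∀ i, (bb - c) i ∈ K) ∧
      (∀ (s : ↥S₁) (t : ↥S₂), (bb - c) (Sum.inl s) - U t ((bb - c) (Sum.inl s)) =
        (bb - c) (Sum.inr t) - U s ((bb - c) (Sum.inr t))) ∧
      (∀ s : ↥S₁, (bb - c) (Sum.inl ⟨(s : W)⁻¹, h1 s s.2⟩) =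
        -(U (s : W)⁻¹ ((bb - c) (Sum.inl s)))) ∧
      (∀ s : ↥S₂, (bb - c) (Sum.inr ⟨(s : W)⁻¹, h2 s s.2⟩) =
        -(U (s : W)⁻¹ ((bb - c) (Sum.inr s))))} := by
      apply IsClosed.and
      · apply j21778_cl
        intro i
        exact hK.preimage (hcont i)
      apply IsClosed.and
      · apply j21778_cl
        intro s
        apply j21778_cl
        intro t
        exact isClosed_eq ((hcont _).sub (hcontU _ _)) ((hcont _).sub (hcontU _ _))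
      apply IsClosed.and
      · apply j21778_cl
        intro s
        exact isClosed_eq (hcont _) (hcontU _ _).neg
      · apply j21778_cl
        intro s
        exact isClosed_eq (hcont _) (hcontU _ _).neg
    have hsub : ((K.map D : Submodule ℝ (PiLp 2 (fun _ : (↥S₁ ⊕ ↥S₂) => H))) : Set _) ⊆
        {c : PiLp 2 (fun _ : (↥S₁ ⊕ ↥S₂) => H) | (∀ i, (bb - c) i ∈ K) ∧
      (∀ (s : ↥S₁) (t : ↥S₂), (bb - c) (Sum.inl s) - U t ((bb - c) (Sum.inl s)) =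
        (bb - c) (Sum.inr t) - U s ((bb - c) (Sum.inr t))) ∧
      (∀ s : ↥S₁, (bb - c) (Sum.inl ⟨(s : W)⁻¹, h1 s s.2⟩) =
        -(U (s : W)⁻¹ ((bb - c) (Sum.inl s)))) ∧
      (∀ s : ↥S₂, (bb - c) (Sum.inr ⟨(s : W)⁻¹, h2 s s.2⟩) =
        -(U (s : W)⁻¹ ((bb - c) (Sum.inr s))))} := by
      rintro _ ⟨v, hv, rfl⟩
      have hUmul : ∀ (w w' : W) (x : H), U (w * w') x = U w (U w' x) := by
        intro w w' x
        rw [map_mul]
        rfl
      let b' : W → H := fun w => b w - (U w v - v)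
      have hb' : ∀ w w', b' (w * w') = b' w + U w (b' w') := by
        intro w w'
        simp only [b', hb, hUmul, map_sub]
        abel
      have hb'1 : b' 1 = 0 := by
        have h3 := hb' 1 1
        rw [mul_one, map_one] at h3
        have h4 : b' 1 = b' 1 + b' 1 := h3
        have h5 : b' 1 + 0 = b' 1 + b' 1 := by rw [add_zero]; exact h4
        exact (add_left_cancel h5).symm
      have hval : ∀ i, (bb - D v) i = b' (val i) := fun i => rfl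
      have hinv : ∀ w, b' w⁻¹ = -(U w⁻¹ (b' w)) := by
        intro w
        have h3 := hb' w⁻¹ w
        rw [inv_mul_cancel, hb'1] at h3
        exact eq_neg_of_add_eq_zero_left h3.symm
      refine ⟨?_, ?_, ?_, ?_⟩
      · intro i
        rw [hval]
        exact K.sub_mem (hbK _) (K.sub_mem (hUK _ _ hv) hv)
      · intro s t
        rw [hval, hval]
        show b' s - U t (b' s) = b' t - U s (b' t)
        have h3 := hb' s t
        have h4 := hb' t s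
        rw [hcomm s s.2 t t.2, h4] at h3
        -- b' t + U t b' s = b' s + U s b' t
        rw [sub_eq_sub_iff_add_eq_add, ← h3, add_comm]
      · intro s
        rw [hval, hval]
        exact hinv s
      · intro s
        rw [hval, hval]
        exact hinv s
    intro c hc
    exact (closure_minimal hsub hclosed) hc
  -- the orthogonal projection
  obtain ⟨c0, hc0, hc0'⟩ : ∃ c0 ∈ C, bb - c0 ∈ Cᗮ :=
    ⟨C.starProjection bb, C.starProjection_apply_mem bb,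
      C.sub_starProjection_mem_orthogonal bb⟩
  obtain ⟨r1, r2, r3, r4⟩ := hrel c0 hc0
  let p : W → H := fun w => if hw : w ∈ S₁ then (bb - c0) (Sum.inl ⟨w, hw⟩) else 0
  let q : W → H := fun w => if hw : w ∈ S₂ then (bb - c0) (Sum.inr ⟨w, hw⟩) else 0
  have hpv : ∀ s (hs : s ∈ S₁), p s = (bb - c0) (Sum.inl ⟨s, hs⟩) := fun s hs => dif_pos hs
  have hqv : ∀ s (hs : s ∈ S₂), q s = (bb - c0) (Sum.inr ⟨s, hs⟩) := fun s hs => dif_pos hs
  have hzero := j21778_alg U K S₁ S₂ h1 h2 hinv1 hinv2 p q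
    (fun s hs => by rw [hpv s hs]; exact r1 _)
    (fun s hs => by rw [hqv s hs]; exact r1 _)
    (fun s hs t ht => by rw [hpv s hs, hqv t ht]; exact r2 ⟨s, hs⟩ ⟨t, ht⟩)
    (fun s hs => by rw [hpv s hs, hpv _ (h1 s hs)]; exact r3 ⟨s, hs⟩)
    (fun s hs => by rw [hqv s hs, hqv _ (h2 s hs)]; exact r4 ⟨s, hs⟩)
    (by
      intro v hv
      have h3 : ⟪bb - c0, D v⟫_ℝ = 0 := by
        have h4 := (Submodule.mem_orthogonal' C (bb - c0)).mp hc0' (D v)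
          (subset_closure ⟨v, hv, rfl⟩)
        exact h4
      rw [PiLp.inner_apply, Fintype.sum_sum_type] at h3
      rw [← Finset.sum_coe_sort S₁, ← Finset.sum_coe_sort S₂]
      rw [← h3]
      congr 1
      · refine Finset.sum_congr rfl fun s _ => ?_
        rw [hpv s s.2]
        rfl
      · refine Finset.sum_congr rfl fun s _ => ?_
        rw [hqv s s.2]
        rfl)
  have hbc : bb = c0 := by
    rw [← sub_eq_zero]
    ext i
    rcases i with s | s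
    · have := hzero.1 s s.2
      rw [hpv s s.2] at this
      exact this
    · have := hzero.2 s s.2
      rw [hqv s s.2] at this
      exact this
  have hbC : bb ∈ closure ((K.map D : Submodule ℝ (PiLp 2 (fun _ : (↥S₁ ⊕ ↥S₂) => H))) : Set _) := by
    rw [hbc]
    exact hc0
  rw [Metric.mem_closure_iff] at hbC
  obtain ⟨_, ⟨v, hv, rfl⟩, hdist⟩ := hbC ε hε
  rw [dist_eq_norm] at hdist
  refine ⟨v, hv, ?_, ?_⟩
  · intro s hs
    exact lt_of_le_of_lt (PiLp.norm_apply_le (bb - D v) (Sum.inl ⟨s, hs⟩)) hdist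
  · intro s hs
    exact lt_of_le_of_lt (PiLp.norm_apply_le (bb - D v) (Sum.inr ⟨s, hs⟩)) hdist



theorem split_harmonic_comm {W : Type} [Group W] {H : Type} [NormedAddCommGroup H] [InnerProductSpace ℝ H]
    (U : W →* (H ≃ₗᵢ[ℝ] H)) (K : Submodule ℝ H) (hUK : ∀ w, ∀ v ∈ K, U w v ∈ K)
    (Q : H →ₗ[ℝ] H) (hQ : ∀ x, Q x ∈ K) (hQo : ∀ x, ∀ k ∈ K, ⟪x - Q x, k⟫_ℝ = 0) (w : W) (x : H) :
    Q (U w x) = U w (Q x) := by
  have hUm : ∀ w v x, U (w * v) x = U w (U v x) := by intro w v x; rw [map_mul]; rfl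
  have hU1 : ∀ x, U 1 x = x := by intro x; rw [map_one]; rfl
  have hz : Q (U w x) - U w (Q x) ∈ K := K.sub_mem (hQ _) (hUK w _ (hQ x))
  have h1 : ⟪U w x - Q (U w x), Q (U w x) - U w (Q x)⟫_ℝ = 0 := hQo _ _ hz
  have h2 : ⟪U w x - U w (Q x), Q (U w x) - U w (Q x)⟫_ℝ = 0 := by
    have h3 : U w (U w⁻¹ (Q (U w x) - U w (Q x))) = Q (U w x) - U w (Q x) := by
      rw [← hUm, mul_inv_cancel, hU1]
    rw [← h3, ← map_sub, (U w).inner_map_map]
    exact hQo _ _ (hUK _ _ hz)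
  have h4 : ⟪Q (U w x) - U w (Q x), Q (U w x) - U w (Q x)⟫_ℝ = 0 := by
    have h5 : ⟪(U w x - U w (Q x)) - (U w x - Q (U w x)), Q (U w x) - U w (Q x)⟫_ℝ = 0 := by
      rw [inner_sub_left, h1, h2, sub_zero]
    have h6 : (U w x - U w (Q x)) - (U w x - Q (U w x)) = Q (U w x) - U w (Q x) := by abel
    rwa [h6] at h5
  exact sub_eq_zero.1 (inner_self_eq_zero.1 h4)

theorem split_harmonic_kill1 {W : Type} [Group W] {H : Type} [NormedAddCommGroup H] [InnerProductSpace ℝ H]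
    (U : W →* (H ≃ₗᵢ[ℝ] H)) (b : W → H) (hb : ∀ w v, b (w * v) = b w + U w (b v))
    (A : Subgroup W)
    (hperf : ∀ f : W → H, (∀ a ∈ A, ∀ a' ∈ A, f (a * a') = f a + f a') → ∀ a ∈ A, f a = 0)
    (T : H →ₗ[ℝ] H) (hT : ∀ w x, T (U w x) = U w (T x)) (h1 : ∀ a ∈ A, ∀ x, U a (T x) = T x)
    (a : W) (ha : a ∈ A) : T (b a) = 0 := by
  refine hperf (fun w => T (b w)) (fun c hc e _ => ?_) a ha
  rw [hb, map_add, hT, h1 c hc]

theorem split_harmonic_kill {W : Type} [Group W] {H : Type} [NormedAddCommGroup H] [InnerProductSpace ℝ H]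
    (U : W →* (H ≃ₗᵢ[ℝ] H)) (b : W → H) (hb : ∀ w v, b (w * v) = b w + U w (b v))
    (A₁ A₂ : Subgroup W) (hsup : ∀ w : W, ∃ a ∈ A₁, ∃ a' ∈ A₂, w = a * a')
    (hperf1 : ∀ f : W → H, (∀ a ∈ A₁, ∀ a' ∈ A₁, f (a * a') = f a + f a') → ∀ a ∈ A₁, f a = 0)
    (hperf2 : ∀ f : W → H, (∀ a ∈ A₂, ∀ a' ∈ A₂, f (a * a') = f a + f a') → ∀ a ∈ A₂, f a = 0)
    (T : H →ₗ[ℝ] H) (hT : ∀ w x, T (U w x) = U w (T x)) (h1 : ∀ a ∈ A₁, ∀ x, U a (T x) = T x)
    (h2 : ∀ a ∈ A₂, ∀ x, U a (T x) = T x) (w : W) : T (b w) = 0 := by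
  obtain ⟨a, ha, a', ha', rfl⟩ := hsup w
  rw [hb, map_add, hT, split_harmonic_kill1 U b hb A₁ hperf1 T hT h1 a ha,
    split_harmonic_kill1 U b hb A₂ hperf2 T hT h2 a' ha', map_zero, add_zero]

theorem split_harmonic_ctrl {W : Type} [Group W] {H : Type} [NormedAddCommGroup H] [InnerProductSpace ℝ H]
    (U : W →* (H ≃ₗᵢ[ℝ] H)) (S : Set W) (w : W) (hw : w ∈ Subgroup.closure S) :
    ∃ C : ℝ, 0 ≤ C ∧ ∀ (d : W → H), (∀ w v, d (w * v) = d w + U w (d v)) → ∀ ε : ℝ, 0 ≤ ε →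
      (∀ s ∈ S, ‖d s‖ ≤ ε) → ‖d w‖ ≤ C * ε := by
  have hU1 : ∀ x, U 1 x = x := by intro x; rw [map_one]; rfl
  have hd1 : ∀ d : W → H, (∀ w v, d (w * v) = d w + U w (d v)) → d 1 = 0 := by
    intro d hd
    have := hd 1 1
    rw [one_mul, hU1] at this
    simpa using this
  induction hw using Subgroup.closure_induction with
  | mem x hx => exact ⟨1, zero_le_one, fun d _ ε _ h => by rw [one_mul]; exact h x hx⟩
  | one => exact ⟨0, le_rfl, fun d hd ε _ _ => by rw [hd1 d hd, norm_zero, zero_mul]⟩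
  | mul x y _ _ ihx ihy =>
    obtain ⟨C, hC, h1⟩ := ihx
    obtain ⟨D, hD, h2⟩ := ihy
    refine ⟨C + D, add_nonneg hC hD, fun d hd ε hε h => ?_⟩
    rw [hd, add_mul]
    refine (norm_add_le _ _).trans ?_
    rw [(U x).norm_map]
    exact add_le_add (h1 d hd ε hε h) (h2 d hd ε hε h)
  | inv x _ ih =>
    obtain ⟨C, hC, h1⟩ := ih
    refine ⟨C, hC, fun d hd ε hε h => ?_⟩
    have h3 := hd x⁻¹ x
    rw [inv_mul_cancel, hd1 d hd] at h3
    have h4 : d x⁻¹ = -(U x⁻¹ (d x)) := by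
      rw [eq_neg_iff_add_eq_zero]; exact h3.symm
    rw [h4, norm_neg, (U x⁻¹).norm_map]
    exact h1 d hd ε hε h

theorem split_harmonic_red {W : Type} [Group W] {H : Type} [NormedAddCommGroup H] [InnerProductSpace ℝ H] [CompleteSpace H]
    (U : W →* (H ≃ₗᵢ[ℝ] H)) (b : W → H) (hb : ∀ w v, b (w * v) = b w + U w (b v))
    {κ : Type} [Fintype κ] (g : κ → W) (hgen : Subgroup.closure (Set.range g) = ⊤)
    (K : Submodule ℝ H) (hK : IsClosed (K : Set H)) (hUK : ∀ w, ∀ v ∈ K, U w v ∈ K) (hbK : ∀ w, b w ∈ K)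
    (hharm : ∀ c ∈ K, ∑ k, ⟪b (g k), U (g k) c - c⟫_ℝ = 0)
    (A₁ A₂ : Subgroup W) (hcomm : ∀ a ∈ A₁, ∀ a' ∈ A₂, a * a' = a' * a)
    (hsup : ∀ w : W, ∃ a ∈ A₁, ∃ a' ∈ A₂, w = a * a')
    (S₁ S₂ : Finset W) (hS1 : Subgroup.closure (S₁ : Set W) = A₁) (hS2 : Subgroup.closure (S₂ : Set W) = A₂)
    (h1 : ∀ s ∈ S₁, s⁻¹ ∈ S₁) (h2 : ∀ s ∈ S₂, s⁻¹ ∈ S₂)
    (hinv1 : ∀ v ∈ K, (∀ s ∈ S₁, U s v = v) → v = 0)
    (hinv2 : ∀ v ∈ K, (∀ s ∈ S₂, U s v = v) → v = 0) (w : W) : b w = 0 := by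
  have hUm : ∀ w v x, U (w * v) x = U w (U v x) := by intro w v x; rw [map_mul]; rfl
  have hcommS : ∀ s ∈ S₁, ∀ t ∈ S₂, s * t = t * s := by
    intro s hs t ht
    refine hcomm s ?_ t ?_
    · rw [← hS1]; exact Subgroup.subset_closure (by exact_mod_cast hs)
    · rw [← hS2]; exact Subgroup.subset_closure (by exact_mod_cast ht)
  have happ := approx_coboundary U b hb K hK hUK hbK S₁ S₂ h1 h2 hcommS hinv1 hinv2
  -- control constants
  have hctrl : ∀ w : W, ∃ C : ℝ, 0 ≤ C ∧ ∀ (d : W → H), (∀ w v, d (w * v) = d w + U w (d v)) →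
      ∀ ε : ℝ, 0 ≤ ε → (∀ s ∈ (S₁ : Set W) ∪ (S₂ : Set W), ‖d s‖ ≤ ε) → ‖d w‖ ≤ C * ε := by
    intro w
    refine split_harmonic_ctrl U _ w ?_
    obtain ⟨a, ha, a', ha', rfl⟩ := hsup w
    rw [← hS1] at ha
    rw [← hS2] at ha'
    exact Subgroup.mul_mem _ (Subgroup.closure_mono Set.subset_union_left ha)
      (Subgroup.closure_mono Set.subset_union_right ha')
  choose C hC0 hC using hctrl
  have hsum : ∀ ε : ℝ, 0 < ε → ∑ k, ‖b (g k)‖ ^ 2 ≤ (∑ k, ‖b (g k)‖ * C (g k)) * ε := by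
    intro ε hε
    obtain ⟨v, hvK, hv1, hv2⟩ := happ ε hε
    have hd : ∀ w u, (b (w * u) - (U (w * u) v - v)) =
        (b w - (U w v - v)) + U w (b u - (U u v - v)) := by
      intro w u
      rw [hb, hUm, map_sub, map_sub]
      abel
    have hbd : ∀ w, ‖b w - (U w v - v)‖ ≤ C w * ε := by
      intro w
      refine hC w (fun w => b w - (U w v - v)) hd ε hε.le ?_
      intro s hs
      rcases hs with hs | hs
      · exact (hv1 s (by exact_mod_cast hs)).le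
      · exact (hv2 s (by exact_mod_cast hs)).le
    have heq : ∑ k, ‖b (g k)‖ ^ 2 = ∑ k, ⟪b (g k), b (g k) - (U (g k) v - v)⟫_ℝ := by
      have h5 := hharm v hvK
      simp only [inner_sub_right (b (g _)) (b (g _)) (U (g _) v - v), Finset.sum_sub_distrib]
      rw [h5, sub_zero]
      refine Finset.sum_congr rfl fun k _ => ?_
      rw [real_inner_self_eq_norm_sq]
    rw [heq, Finset.sum_mul]
    refine Finset.sum_le_sum fun k _ => ?_
    refine (real_inner_le_norm _ _).trans ?_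
    rw [mul_assoc]
    exact mul_le_mul_of_nonneg_left (hbd _) (norm_nonneg _)
  have hzero : ∑ k, ‖b (g k)‖ ^ 2 ≤ 0 := by
    have hM : 0 ≤ ∑ k, ‖b (g k)‖ * C (g k) :=
      Finset.sum_nonneg fun k _ => mul_nonneg (norm_nonneg _) (hC0 _)
    refine le_of_forall_pos_le_add fun δ hδ => ?_
    have h6 := hsum (δ / ((∑ k, ‖b (g k)‖ * C (g k)) + 1)) (by positivity)
    refine h6.trans ?_
    rw [zero_add, mul_div_assoc', div_le_iff₀ (by positivity)]
    nlinarith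
  have hg0 : ∀ k, b (g k) = 0 := by
    intro k
    have h7 : ‖b (g k)‖ ^ 2 ≤ ∑ k, ‖b (g k)‖ ^ 2 :=
      Finset.single_le_sum (f := fun k => ‖b (g k)‖ ^ 2) (fun i _ => sq_nonneg _) (Finset.mem_univ k)
    have h8 : ‖b (g k)‖ ^ 2 = 0 := le_antisymm (h7.trans hzero) (sq_nonneg _)
    exact norm_eq_zero.1 (pow_eq_zero_iff (two_ne_zero)|>.1 h8)
  have hw : w ∈ Subgroup.closure (Set.range g) := by rw [hgen]; trivial
  obtain ⟨D, _, hD⟩ := split_harmonic_ctrl U _ w hw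
  have h9 := hD b hb 0 le_rfl (by
    rintro s ⟨k, rfl⟩
    rw [hg0 k, norm_zero])
  rw [mul_zero] at h9
  exact norm_eq_zero.1 (le_antisymm h9 (norm_nonneg _))

/-- fixed vectors of a subgroup -/
def split_harmonic_Fix {W : Type} [Group W] {H : Type} [NormedAddCommGroup H] [InnerProductSpace ℝ H]
    (U : W →* (H ≃ₗᵢ[ℝ] H)) (A : Subgroup W) : Submodule ℝ H where
  carrier := {v | ∀ a ∈ A, U a v = v}
  add_mem' := by
    intro x y hx hy a ha
    rw [map_add, hx a ha, hy a ha]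
  zero_mem' := fun a _ => map_zero _
  smul_mem' := by
    intro c x hx a ha
    rw [map_smul, hx a ha]

theorem split_harmonic_Fix_closed {W : Type} [Group W] {H : Type} [NormedAddCommGroup H] [InnerProductSpace ℝ H]
    (U : W →* (H ≃ₗᵢ[ℝ] H)) (A : Subgroup W) :
    IsClosed ((split_harmonic_Fix U A : Submodule ℝ H) : Set H) := by
  have : ((split_harmonic_Fix U A : Submodule ℝ H) : Set H) = ⋂ a ∈ A, {v : H | U a v = v} := by
    ext v
    simp only [Set.mem_iInter, Set.mem_ofPred_eq]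
    rfl
  rw [this]
  exact isClosed_biInter fun a _ => isClosed_eq (U a).continuous continuous_id

theorem split_harmonic_proj {H : Type} [NormedAddCommGroup H] [InnerProductSpace ℝ H] [CompleteSpace H]
    (K : Submodule ℝ H) (hK : IsClosed (K : Set H)) :
    ∃ Q : H →ₗ[ℝ] H, (∀ x, Q x ∈ K) ∧ (∀ x, ∀ k ∈ K, ⟪x - Q x, k⟫_ℝ = 0) := by
  have : CompleteSpace K := hK.completeSpace_coe
  refine ⟨(K.starProjection : H →L[ℝ] H).toLinearMap, fun x => K.starProjection_apply_mem x,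
    fun x k hk => Submodule.starProjection_inner_eq_zero x k hk⟩

/-- TARGET: a harmonic cocycle of a product of two commuting perfect groups splits orthogonally -/
theorem split_harmonic {W : Type} [Group W] {H : Type} [NormedAddCommGroup H] [InnerProductSpace ℝ H] [CompleteSpace H]
    (U : W →* (H ≃ₗᵢ[ℝ] H)) (b : W → H) (hb : ∀ w v, b (w * v) = b w + U w (b v))
    {κ : Type} [Fintype κ] (g : κ → W) (hgen : Subgroup.closure (Set.range g) = ⊤)
    (hharm : ∀ c : H, ∑ k, ⟪b (g k), U (g k) c - c⟫_ℝ = 0)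
    (A₁ A₂ : Subgroup W) (hcomm : ∀ a ∈ A₁, ∀ a' ∈ A₂, a * a' = a' * a)
    (hsup : ∀ w : W, ∃ a ∈ A₁, ∃ a' ∈ A₂, w = a * a')
    (S₁ S₂ : Finset W) (hS1 : Subgroup.closure (S₁ : Set W) = A₁) (hS2 : Subgroup.closure (S₂ : Set W) = A₂)
    (h1 : ∀ s ∈ S₁, s⁻¹ ∈ S₁) (h2 : ∀ s ∈ S₂, s⁻¹ ∈ S₂)
    (hperf1 : ∀ f : W → H, (∀ a ∈ A₁, ∀ a' ∈ A₁, f (a * a') = f a + f a') → ∀ a ∈ A₁, f a = 0)
    (hperf2 : ∀ f : W → H, (∀ a ∈ A₂, ∀ a' ∈ A₂, f (a * a') = f a + f a') → ∀ a ∈ A₂, f a = 0)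
    {a a' : W} (ha : a ∈ A₁) (ha' : a' ∈ A₂) :
    U a' (b a) = b a ∧ U a (b a') = b a' ∧ ⟪b a, b a'⟫_ℝ = 0 := by
  have hUm : ∀ w v x, U (w * v) x = U w (U v x) := by intro w v x; rw [map_mul]; rfl
  set K₁ := split_harmonic_Fix U A₁ with hK₁
  set K₂ := split_harmonic_Fix U A₂ with hK₂
  have hm1 : ∀ v, v ∈ K₁ ↔ ∀ a ∈ A₁, U a v = v := fun v => Iff.rfl
  have hm2 : ∀ v, v ∈ K₂ ↔ ∀ a ∈ A₂, U a v = v := fun v => Iff.rfl
  have hU1 : ∀ w, ∀ v ∈ K₁, U w v ∈ K₁ := by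
    intro w v hv c hc
    obtain ⟨x, hx, y, hy, rfl⟩ := hsup w
    have h3 : U (x * y) v = U y v := by rw [hcomm x hx y hy, hUm, hv x hx]
    rw [h3, ← hUm, hcomm c hc y hy, hUm, hv c hc]
  have hU2 : ∀ w, ∀ v ∈ K₂, U w v ∈ K₂ := by
    intro w v hv c hc
    obtain ⟨x, hx, y, hy, rfl⟩ := hsup w
    have h3 : U (x * y) v = U x v := by rw [hUm, hv y hy]
    rw [h3, ← hUm, ← hcomm x hx c hc, hUm, hv c hc]
  obtain ⟨Q₁, hQ1, hQ1o⟩ := split_harmonic_proj K₁ (split_harmonic_Fix_closed U A₁)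
  obtain ⟨Q₂, hQ2, hQ2o⟩ := split_harmonic_proj K₂ (split_harmonic_Fix_closed U A₂)
  have hc1 := split_harmonic_comm U K₁ hU1 Q₁ hQ1 hQ1o
  have hc2 := split_harmonic_comm U K₂ hU2 Q₂ hQ2 hQ2o
  -- `Q₁` maps `K₂` into `K₂`
  have hQ12 : ∀ y ∈ K₂, Q₁ y ∈ K₂ := by
    intro y hy c hc
    rw [← hc1, hy c hc]
  have hQ1s : ∀ x y, ⟪Q₁ x, y⟫_ℝ = ⟪x, Q₁ y⟫_ℝ := by
    intro x y
    have e1 := hQ1o x (Q₁ y) (hQ1 y)
    have e2 := hQ1o y (Q₁ x) (hQ1 x)
    rw [inner_sub_left] at e1 e2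
    rw [real_inner_comm (Q₁ x) y, real_inner_comm (Q₁ x) (Q₁ y)] at e2
    linarith
  have hT0 : ∀ w, Q₁ (Q₂ (b w)) = 0 := by
    intro w
    refine split_harmonic_kill U b hb A₁ A₂ hsup hperf1 hperf2 (Q₁.comp Q₂) ?_ ?_ ?_ w
    · intro w x; simp only [LinearMap.comp_apply]; rw [hc2, hc1]
    · intro c hc x; simp only [LinearMap.comp_apply]; exact hQ1 _ c hc
    · intro c hc x; simp only [LinearMap.comp_apply]; exact hQ12 _ (hQ2 x) c hc
  -- the remaining part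
  let R : H →ₗ[ℝ] H := (LinearMap.id - Q₁).comp (LinearMap.id - Q₂)
  have hR : ∀ x, R x = (x - Q₂ x) - Q₁ (x - Q₂ x) := fun x => rfl
  let K : Submodule ℝ H := K₁ᗮ ⊓ K₂ᗮ
  have hKc : IsClosed (K : Set H) := by
    have : (K : Set H) = (K₁ᗮ : Set H) ∩ (K₂ᗮ : Set H) := rfl
    rw [this]
    exact (Submodule.isClosed_orthogonal _).inter (Submodule.isClosed_orthogonal _)
  have hRK : ∀ x, R x ∈ K := by
    intro x
    refine ⟨?_, ?_⟩
    · refine (Submodule.mem_orthogonal' _ _).2 ?_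
      intro k hk
      rw [hR]; exact hQ1o _ k hk
    · refine (Submodule.mem_orthogonal' _ _).2 ?_
      intro k hk
      rw [hR, inner_sub_left, hQ2o x k hk, hQ1s, hQ2o x _ (hQ12 k hk), sub_zero]
  have hRc : ∀ w x, R (U w x) = U w (R x) := by
    intro w x
    rw [hR, hR, hc2, ← map_sub, hc1, ← map_sub]
  have hinvo : ∀ (L : Submodule ℝ H), (∀ w, ∀ v ∈ L, U w v ∈ L) → ∀ w, ∀ v ∈ Lᗮ, U w v ∈ Lᗮ := by
    intro L hL w v hv
    rw [Submodule.mem_orthogonal'] at hv ⊢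
    intro k hk
    have h3 : U w (U w⁻¹ k) = k := by
      rw [← hUm, mul_inv_cancel, map_one]; rfl
    rw [← h3, (U w).inner_map_map]
    exact hv _ (hL _ _ hk)
  have hUK : ∀ w, ∀ v ∈ K, U w v ∈ K := fun w v hv => ⟨hinvo K₁ hU1 w v hv.1, hinvo K₂ hU2 w v hv.2⟩
  have hRb : ∀ w, R (b w) = 0 := by
    refine fun w => split_harmonic_red U (fun w => R (b w)) ?_ g hgen K hKc hUK (fun w => hRK _) ?_
      A₁ A₂ hcomm hsup S₁ S₂ hS1 hS2 h1 h2 ?_ ?_ w
    · intro w v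
      beta_reduce
      rw [hb, map_add, hRc]
    · intro c hc
      rw [← hharm c]
      refine Finset.sum_congr rfl fun k _ => ?_
      have hcK : U (g k) c - c ∈ K := K.sub_mem (hUK _ _ hc) hc
      have e1 : ⟪Q₂ (b (g k)), U (g k) c - c⟫_ℝ = 0 :=
        (Submodule.mem_orthogonal _ _).1 hcK.2 _ (hQ2 _)
      have e2 : ⟪Q₁ (b (g k) - Q₂ (b (g k))), U (g k) c - c⟫_ℝ = 0 :=
        (Submodule.mem_orthogonal _ _).1 hcK.1 _ (hQ1 _)
      rw [hR, inner_sub_left, inner_sub_left, e1, e2, sub_zero, sub_zero]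
    · intro v hv hfix
      have hvK : v ∈ K₁ := by
        intro c hc
        rw [← hS1] at hc
        obtain ⟨D, _, hD⟩ := split_harmonic_ctrl U _ c hc
        have h9 := hD (fun w => U w v - v) (by
          intro w u
          beta_reduce
          rw [hUm, map_sub]; abel) 0 le_rfl (by
          intro s hs
          beta_reduce
          rw [hfix s (by exact_mod_cast hs), sub_self, norm_zero])
        rw [mul_zero] at h9
        exact sub_eq_zero.1 (norm_eq_zero.1 (le_antisymm h9 (norm_nonneg _)))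
      have := (Submodule.mem_orthogonal _ _).1 hv.1 v hvK
      exact inner_self_eq_zero.1 this
    · intro v hv hfix
      have hvK : v ∈ K₂ := by
        intro c hc
        rw [← hS2] at hc
        obtain ⟨D, _, hD⟩ := split_harmonic_ctrl U _ c hc
        have h9 := hD (fun w => U w v - v) (by
          intro w u
          beta_reduce
          rw [hUm, map_sub]; abel) 0 le_rfl (by
          intro s hs
          beta_reduce
          rw [hfix s (by exact_mod_cast hs), sub_self, norm_zero])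
        rw [mul_zero] at h9
        exact sub_eq_zero.1 (norm_eq_zero.1 (le_antisymm h9 (norm_nonneg _)))
      have := (Submodule.mem_orthogonal _ _).1 hv.2 v hvK
      exact inner_self_eq_zero.1 this
  have hdec : ∀ w, b w = Q₁ (b w) + Q₂ (b w) := by
    intro w
    have h3 := hRb w
    rw [hR, map_sub, hT0, sub_zero, sub_eq_zero] at h3
    rw [← h3]; abel
  have hba : b a = Q₂ (b a) := by
    have h3 : Q₁ (b a) = 0 :=
      split_harmonic_kill1 U b hb A₁ hperf1 Q₁ hc1 (fun c hc x => hQ1 x c hc) a ha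
    have h4 := hdec a
    rwa [h3, zero_add] at h4
  have hba' : b a' = Q₁ (b a') := by
    have h3 : Q₂ (b a') = 0 :=
      split_harmonic_kill1 U b hb A₂ hperf2 Q₂ hc2 (fun c hc x => hQ2 x c hc) a' ha'
    have h4 := hdec a'
    rwa [h3, add_zero] at h4
  refine ⟨?_, ?_, ?_⟩
  · rw [hba]; exact hQ2 _ a' ha'
  · rw [hba']; exact hQ1 _ a ha
  · rw [hba, hba', ← hQ1s, hT0, inner_zero_left]


end Pool.Agent.Helper889.Na
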