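import Mathlib
import Pool.Agent.Helper889.Na.Fn
import Pool.Agent.Helper940.NoMean

set_option autoImplicit false
set_option linter.unusedSectionVars false
set_option linter.unusedVariables false

namespace Pool.Agent.Helper889.Na
namespace Core
variable {G : Type} [Group G] (c : Core G)

/-- doubling excludes means (known, may be used) -/
theorem no_mean_of_doubling' [DecidableEq G] (K : Finset G) (hK : ∀ F : Finset G, 2 * F.card ≤ (F.biUnion fun f => K.image fun k => k * f).card)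
    (m : Set G → ℝ) (hm0 : ∀ E, 0 ≤ m E) (hm1 : m Set.univ = 1) (hadd : ∀ E F, Disjoint E F → m (E ∪ F) = m E + m F)
    (hinv : ∀ (g : G) E, m ((fun x => g * x) '' E) = m E) : False := by
  classical
  have hm : Pool.Agent.Helper940.NoMean.IsMean m := ⟨hm1, hm0, hadd, hinv⟩
  refine Pool.Agent.Helper940.NoMean.no_mean_of_doubling (K.image fun k => k⁻¹) (fun F => ?_) hm
  have h1 := hK (F.image fun f => f⁻¹)
  have hinj : Function.Injective fun f : G => f⁻¹ := inv_injective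
  rw [Finset.card_image_of_injective _ hinj] at h1
  refine h1.trans ?_
  rw [← Finset.card_image_of_injective ((F.image fun f => f⁻¹).biUnion fun f => K.image fun k => k * f) hinj]
  apply Finset.card_le_card
  intro x hx
  simp only [Finset.mem_image, Finset.mem_biUnion] at hx
  obtain ⟨y, ⟨z, ⟨f, hf, rfl⟩, k, hk, rfl⟩, rfl⟩ := hx
  rw [mul_inv_rev, inv_inv]
  exact Finset.mul_mem_mul hf (Finset.mem_image_of_mem _ hk)

theorem sm_ind_apply (F : Finset G) (x : G) [Decidable (x ∈ F)] :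
    (Finsupp.indicator F (fun _ _ => (1 : ℝ)) : G →₀ ℝ) x = if x ∈ F then 1 else 0 := by
  by_cases h : x ∈ F
  · rw [if_pos h, Finsupp.indicator_of_mem h]
  · rw [if_neg h, Finsupp.indicator_of_notMem h]

theorem sm_N (F : Finset G) : N (Finsupp.indicator F (fun _ _ => (1 : ℝ)) : G →₀ ℝ) = F.card := by
  classical
  rw [N_eq_sum _ F (Finsupp.support_indicator_subset F _)]
  have : ∀ x ∈ F, (Finsupp.indicator F (fun _ _ => (1 : ℝ)) : G →₀ ℝ) x ^ 2 = 1 := by
    intro x hx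
    rw [sm_ind_apply, if_pos hx, one_pow]
  rw [Finset.sum_congr rfl this, Finset.sum_const, nsmul_eq_mul, mul_one]

theorem sm_aux (s : G) (F T : Finset G) (hF : F ⊆ T) (hsF : ∀ x ∈ F, s * x ∈ T) :
    N (tr s (Finsupp.indicator F (fun _ _ => (1 : ℝ))) - Finsupp.indicator F (fun _ _ => (1 : ℝ)))
      ≤ 2 * ((T.card : ℝ) - F.card) := by
  classical
  set F' : Finset G := F.image (fun x => s * x) with hF'
  have hc' : F'.card = F.card := Finset.card_image_of_injective F (mul_right_injective s)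
  have hU : F ∪ F' ⊆ T := by
    apply Finset.union_subset hF
    intro y hy
    rw [hF', Finset.mem_image] at hy
    obtain ⟨x, hx, rfl⟩ := hy
    exact hsF x hx
  have hcard := Finset.card_union_add_card_inter F F'
  have hle := Finset.card_le_card hU
  have hip : ip (tr s (Finsupp.indicator F (fun _ _ => (1 : ℝ))))
      (Finsupp.indicator F (fun _ _ => (1 : ℝ)) : G →₀ ℝ) = ((F ∩ F').card : ℝ) := by
    rw [ip_comm, ip_eq_sum _ _ F (Finsupp.support_indicator_subset F _)]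
    have h1 : ∀ x ∈ F, (Finsupp.indicator F (fun _ _ => (1 : ℝ)) : G →₀ ℝ) x *
        (tr s (Finsupp.indicator F (fun _ _ => (1 : ℝ)))) x = if x ∈ F' then 1 else 0 := by
      intro x hx
      rw [sm_ind_apply, if_pos hx, one_mul, tr_apply, sm_ind_apply]
      have h2 : s⁻¹ * x ∈ F ↔ x ∈ F' := by
        rw [hF', Finset.mem_image]
        constructor
        · intro h
          exact ⟨_, h, by simp⟩
        · rintro ⟨y, hy, rfl⟩
          simpa using hy
      by_cases h3 : x ∈ F'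
      · rw [if_pos h3, if_pos (h2.mpr h3)]
      · rw [if_neg h3, if_neg (fun h => h3 (h2.mp h))]
    rw [Finset.sum_congr rfl h1, ← Finset.sum_filter, Finset.sum_const, nsmul_eq_mul, mul_one,
      Finset.filter_mem_eq_inter]
  rw [N_sub, N_tr, sm_N, hip]
  have h1 : ((F ∪ F').card : ℝ) + ((F ∩ F').card : ℝ) = (F.card : ℝ) + (F'.card : ℝ) := by
    exact_mod_cast hcard
  have h2 : ((F ∪ F').card : ℝ) ≤ (T.card : ℝ) := by exact_mod_cast hle
  have h3 : (F'.card : ℝ) = (F.card : ℝ) := by exact_mod_cast hc'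
  linarith

theorem sm_ED (F T : Finset G) (hF : F ⊆ T) (hA : ∀ σ : A, ∀ x ∈ F, c.iA σ * x ∈ T)
    (hB : ∀ b : B, ∀ x ∈ F, c.iB b * x ∈ T) :
    c.ED (Finsupp.indicator F (fun _ _ => (1 : ℝ))) ≤ 4 * ((T.card : ℝ) - F.card) := by
  unfold ED
  have h1 : (∑ σ : A, N (tr (c.iA σ) (Finsupp.indicator F (fun _ _ => (1 : ℝ))) -
      Finsupp.indicator F (fun _ _ => (1 : ℝ)))) / (Fintype.card A : ℝ)
        ≤ 2 * ((T.card : ℝ) - F.card) := by
    have hpos : (0 : ℝ) < (Fintype.card A : ℝ) := by exact_mod_cast Fintype.card_pos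
    rw [div_le_iff₀ hpos]
    calc _ ≤ ∑ σ : A, 2 * ((T.card : ℝ) - F.card) :=
          Finset.sum_le_sum (fun σ _ => sm_aux (c.iA σ) F T hF (hA σ))
      _ = _ := by rw [Finset.sum_const, nsmul_eq_mul, Finset.card_univ]; ring
  have h2 : (∑ b : B, N (tr (c.iB b) (Finsupp.indicator F (fun _ _ => (1 : ℝ))) -
      Finsupp.indicator F (fun _ _ => (1 : ℝ)))) / (Fintype.card B : ℝ)
        ≤ 2 * ((T.card : ℝ) - F.card) := by
    have hpos : (0 : ℝ) < (Fintype.card B : ℝ) := by exact_mod_cast Fintype.card_pos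
    rw [div_le_iff₀ hpos]
    calc _ ≤ ∑ b : B, 2 * ((T.card : ℝ) - F.card) :=
          Finset.sum_le_sum (fun b _ => sm_aux (c.iB b) F T hF (hB b))
      _ = _ := by rw [Finset.sum_const, nsmul_eq_mul, Finset.card_univ]; ring
  linarith

open scoped Pointwise in
theorem sm_pow [DecidableEq G] (K₀ : Finset G) (q : ℝ) (hq : 0 ≤ q)
    (h : ∀ F : Finset G, q * (F.card : ℝ) ≤ ((K₀ * F).card : ℝ)) (n : ℕ) (F : Finset G) :
    q ^ n * (F.card : ℝ) ≤ ((K₀ ^ n * F).card : ℝ) := by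
  induction n with
  | zero => simp
  | succ n ih =>
    have e : K₀ ^ (n + 1) * F = K₀ * (K₀ ^ n * F) := by rw [pow_succ', mul_assoc]
    rw [e]
    calc q ^ (n + 1) * (F.card : ℝ) = q * (q ^ n * (F.card : ℝ)) := by ring
      _ ≤ q * ((K₀ ^ n * F).card : ℝ) := mul_le_mul_of_nonneg_left ih hq
      _ ≤ _ := h _

/-- TARGET: an invariant mean gives functions of small energy -/
theorem small_of_mean (m : Set G → ℝ) (hm0 : ∀ E, 0 ≤ m E) (hm1 : m Set.univ = 1)
    (hadd : ∀ E F, Disjoint E F → m (E ∪ F) = m E + m F) (hinv : ∀ (g : G) E, m ((fun x => g * x) '' E) = m E)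
    (ε : ℝ) (hε : 0 < ε) : ∃ ψ : G →₀ ℝ, ψ ≠ 0 ∧ c.ED ψ ≤ ε * N ψ := by
  classical
  open scoped Pointwise in
  by_contra hcon
  have hcon' : ∀ ψ : G →₀ ℝ, ψ ≠ 0 → ε * N ψ < c.ED ψ := by
    intro ψ hψ
    by_contra h
    exact hcon ⟨ψ, hψ, not_lt.mp h⟩
  obtain ⟨K₀, h1K, hAK, hBK⟩ : ∃ K₀ : Finset G, (1 : G) ∈ K₀ ∧ (∀ σ : A, c.iA σ ∈ K₀) ∧
      (∀ b : B, c.iB b ∈ K₀) := by
    have hfin : (insert 1 (Set.range c.iA ∪ Set.range c.iB) : Set G).Finite :=
      ((Set.finite_range _).union (Set.finite_range _)).insert 1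
    refine ⟨hfin.toFinset, ?_, ?_, ?_⟩
    · rw [Set.Finite.mem_toFinset]
      exact Or.inl rfl
    · intro σ
      rw [Set.Finite.mem_toFinset]
      exact Or.inr (Or.inl ⟨σ, rfl⟩)
    · intro b
      rw [Set.Finite.mem_toFinset]
      exact Or.inr (Or.inr ⟨b, rfl⟩)
  have hgrow : ∀ F : Finset G, (1 + ε / 4) * (F.card : ℝ) ≤ ((K₀ * F).card : ℝ) := by
    intro F
    rcases F.eq_empty_or_nonempty with rfl | hne
    · simp
    · have hFs : F ⊆ K₀ * F := by
        intro x hx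
        have := Finset.mul_mem_mul h1K hx
        rwa [one_mul] at this
      have h1 := sm_ED c F (K₀ * F) hFs (fun σ x hx => Finset.mul_mem_mul (hAK σ) hx)
        (fun b x hx => Finset.mul_mem_mul (hBK b) hx)
      have hψ : (Finsupp.indicator F (fun _ _ => (1 : ℝ)) : G →₀ ℝ) ≠ 0 := by
        intro h0
        obtain ⟨x, hx⟩ := hne
        have h2 := sm_ind_apply F x
        rw [h0, if_pos hx] at h2
        simp at h2
      have h2 := hcon' _ hψ
      rw [sm_N] at h2
      linarith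
  obtain ⟨n, hn⟩ := pow_unbounded_of_one_lt (2 : ℝ) (by linarith : 1 < 1 + ε / 4)
  refine no_mean_of_doubling' (K₀ ^ n) ?_ m hm0 hm1 hadd hinv
  intro F
  have h1 := sm_pow K₀ (1 + ε / 4) (by linarith) hgrow n F
  have e : (F.biUnion fun f => (K₀ ^ n).image fun k => k * f) = K₀ ^ n * F := by
    ext x
    rw [Finset.mem_biUnion, Finset.mem_mul]
    constructor
    · rintro ⟨f, hf, hx⟩
      rw [Finset.mem_image] at hx
      obtain ⟨k, hk, rfl⟩ := hx
      exact ⟨k, hk, f, hf, rfl⟩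
    · rintro ⟨k, hk, f, hf, rfl⟩
      exact ⟨f, hf, Finset.mem_image.mpr ⟨k, hk, rfl⟩⟩
  rw [e]
  have h2 : (2 : ℝ) * (F.card : ℝ) ≤ ((K₀ ^ n * F).card : ℝ) := by
    have h3 : (0 : ℝ) ≤ (F.card : ℝ) := by positivity
    calc (2 : ℝ) * (F.card : ℝ) ≤ (1 + ε / 4) ^ n * (F.card : ℝ) :=
          mul_le_mul_of_nonneg_right hn.le h3
      _ ≤ _ := h1
  exact_mod_cast h2

end Core
end Pool.Agent.Helper889.Na
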