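import Mathlib

set_option autoImplicit false

open Filter Topology

namespace Pool.Agent.Helper889.Na

/-- selection of good scales: `e` is a nonincreasing nonnegative sequence with a polynomial lower bound -/
theorem slow (e : ℕ → ℝ) (hanti : Antitone e) (κ : ℝ) (hκ : 0 < κ) (hlow : ∀ R : ℕ, κ / ((R : ℝ) + 1) ^ 2 ≤ e R)
    (m : ℕ) (δ : ℝ) (hδ : 0 < δ) (R₀ : ℕ) : ∃ R, R₀ ≤ R ∧ (1 - δ) * e R ≤ e (R + m) := by
  have hpos : ∀ R : ℕ, 0 < e R := fun R => lt_of_lt_of_le (by positivity) (hlow R)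
  by_cases hδ1 : 1 ≤ δ
  · refine ⟨R₀, le_refl _, ?_⟩
    have h1 := hpos R₀
    have h2 := hpos (R₀ + m)
    nlinarith
  push Not at hδ1
  by_contra hcon
  push Not at hcon
  have hit : ∀ j : ℕ, e (R₀ + j * m) ≤ (1 - δ) ^ j * e R₀ := by
    intro j
    induction j with
    | zero => simp
    | succ j ih =>
      have h1 := hcon (R₀ + j * m) (by omega)
      have h2 : R₀ + (j + 1) * m = R₀ + j * m + m := by ring
      rw [h2, pow_succ]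
      have h3 : (1 - δ) * e (R₀ + j * m) ≤ (1 - δ) * ((1 - δ) ^ j * e R₀) :=
        mul_le_mul_of_nonneg_left ih (by linarith)
      calc e (R₀ + j * m + m) ≤ (1 - δ) * e (R₀ + j * m) := h1.le
        _ ≤ _ := h3
        _ = _ := by ring
  obtain ⟨C, hC⟩ : ∃ C : ℝ, C = 4 * ((R₀ : ℝ) + m + 1) ^ 2 * e R₀ := ⟨_, rfl⟩
  have hbd : ∀ j : ℕ, 1 ≤ j → κ ≤ C * ((j : ℝ) ^ 2 * (1 - δ) ^ j) := by
    intro j hj
    have hj1 : (1 : ℝ) ≤ j := by exact_mod_cast hj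
    have h1 := (hlow (R₀ + j * m)).trans (hit j)
    have h2 : (0 : ℝ) < (((R₀ + j * m : ℕ) : ℝ) + 1) ^ 2 := by positivity
    rw [div_le_iff₀ h2] at h1
    have h3 : (((R₀ + j * m : ℕ) : ℝ) + 1) ≤ ((R₀ : ℝ) + m + 1) * (2 * j) := by
      push_cast
      have hR : (0 : ℝ) ≤ R₀ := Nat.cast_nonneg _
      have hm : (0 : ℝ) ≤ m := Nat.cast_nonneg _
      nlinarith [mul_nonneg hR (by linarith : (0 : ℝ) ≤ j - 1), mul_nonneg hm (by linarith : (0 : ℝ) ≤ j)]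
    have h4 : (((R₀ + j * m : ℕ) : ℝ) + 1) ^ 2 ≤ (((R₀ : ℝ) + m + 1) * (2 * j)) ^ 2 :=
      pow_le_pow_left₀ (by positivity) h3 2
    have h5 : 0 ≤ (1 - δ) ^ j * e R₀ := mul_nonneg (pow_nonneg (by linarith) _) (hpos R₀).le
    calc κ ≤ (1 - δ) ^ j * e R₀ * (((R₀ + j * m : ℕ) : ℝ) + 1) ^ 2 := h1
      _ ≤ (1 - δ) ^ j * e R₀ * (((R₀ : ℝ) + m + 1) * (2 * j)) ^ 2 :=
        mul_le_mul_of_nonneg_left h4 h5
      _ = _ := by rw [hC]; ring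
  have hlim : Tendsto (fun j : ℕ => C * ((j : ℝ) ^ 2 * (1 - δ) ^ j)) atTop (𝓝 (C * 0)) := by
    apply Tendsto.const_mul
    apply tendsto_pow_const_mul_const_pow_of_abs_lt_one
    rw [abs_of_pos (by linarith)]
    linarith
  rw [mul_zero] at hlim
  have h6 : κ ≤ 0 := ge_of_tendsto hlim (by
    filter_upwards [eventually_ge_atTop 1] with j hj using hbd j hj)
  linarith

/-- abstract selection. `F R` = set of admissible unit vectors at scale `R`, `E` the energy. -/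
theorem select {V : Type} (F : ℕ → Set V) (E : V → ℝ) (hmono : ∀ R R', R ≤ R' → F R ⊆ F R') (hne : ∀ R, (F R).Nonempty)
    (hE : ∀ v, 0 ≤ E v) (κ : ℝ) (hκ : 0 < κ) (hlow : ∀ (R : ℕ), ∀ v ∈ F R, κ / ((R : ℝ) + 1) ^ 2 ≤ E v)
    (hsmall : ∀ ε > 0, ∃ R, ∃ v ∈ F R, E v ≤ ε) :
    ∃ (R : ℕ → ℕ) (v : ℕ → V) (ε : ℕ → ℝ), (∀ k, 0 < ε k) ∧ Tendsto ε atTop (𝓝 0) ∧
      (∀ k, v k ∈ F (R k)) ∧ (∀ k, E (v k) ≤ (1 + 1 / ((k : ℝ) + 1)) * ε k) ∧
      (∀ k, ∀ u ∈ F (R k), ε k ≤ E u) ∧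
      (∀ k, ∀ u ∈ F (R k + k), (1 - 1 / ((k : ℝ) + 1)) * ε k ≤ E u) := by
  obtain ⟨e, he⟩ : ∃ e : ℕ → ℝ, e = fun R => sInf (E '' F R) := ⟨_, rfl⟩
  have hbdd : ∀ R, BddBelow (E '' F R) := by
    intro R
    refine ⟨0, ?_⟩
    rintro _ ⟨v, -, rfl⟩
    exact hE v
  have hne' : ∀ R, (E '' F R).Nonempty := fun R => (hne R).image E
  have hle : ∀ R, ∀ v ∈ F R, e R ≤ E v := by
    intro R v hv
    rw [he]
    exact csInf_le (hbdd R) ⟨v, hv, rfl⟩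
  have hanti : Antitone e := by
    intro R R' hRR
    rw [he]
    exact csInf_le_csInf (hbdd R') (hne' R) (Set.image_mono (hmono R R' hRR))
  have hlow' : ∀ R : ℕ, κ / ((R : ℝ) + 1) ^ 2 ≤ e R := by
    intro R
    rw [he]
    apply le_csInf (hne' R)
    rintro _ ⟨v, hv, rfl⟩
    exact hlow R v hv
  have hex : ∀ k : ℕ, ∃ R, e R ≤ 1 / ((k : ℝ) + 1) ∧
      (1 - 1 / ((k : ℝ) + 1)) * e R ≤ e (R + k) := by
    intro k
    obtain ⟨R₀, v, hv, hve⟩ := hsmall (1 / ((k : ℝ) + 1)) (by positivity)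
    obtain ⟨R, hR, hR2⟩ := slow e hanti κ hκ hlow' k (1 / ((k : ℝ) + 1)) (by positivity) R₀
    exact ⟨R, (hanti hR).trans ((hle R₀ v hv).trans hve), hR2⟩
  choose R hR1 hR2 using hex
  have hpos : ∀ k, 0 < e (R k) := fun k => lt_of_lt_of_le (by positivity) (hlow' (R k))
  have hv : ∀ k : ℕ, ∃ v ∈ F (R k), E v ≤ (1 + 1 / ((k : ℝ) + 1)) * e (R k) := by
    intro k
    have h1 : sInf (E '' F (R k)) < (1 + 1 / ((k : ℝ) + 1)) * e (R k) := by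
      have h2 : sInf (E '' F (R k)) = e (R k) := by rw [he]
      rw [h2]
      have h3 : 0 < 1 / ((k : ℝ) + 1) * e (R k) := mul_pos (by positivity) (hpos k)
      linarith
    obtain ⟨_, ⟨v, hv, rfl⟩, hlt⟩ := exists_lt_of_csInf_lt (hne' (R k)) h1
    exact ⟨v, hv, hlt.le⟩
  choose v hv1 hv2 using hv
  refine ⟨R, v, fun k => e (R k), hpos, ?_, hv1, hv2, fun k u hu => hle _ u hu, ?_⟩
  · exact squeeze_zero (fun k => (hpos k).le) hR1 tendsto_one_div_add_atTop_nhds_zero_nat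
  · intro k u hu
    exact (hR2 k).trans (hle _ u hu)

end Pool.Agent.Helper889.Na
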