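import Mathlib

set_option autoImplicit false

namespace Pool.Agent.Helper889.Na

open scoped InnerProductSpace

/-- the statement for a genuine semi-inner product space -/
theorem gns_aux {W : Type} [Group W] {E : Type} [SeminormedAddCommGroup E] [InnerProductSpace ℝ E]
    (ρ : W → (E →ₗ[ℝ] E))
    (h1 : ∀ x, ρ 1 x = x) (hmul : ∀ w v x, ρ (w * v) x = ρ w (ρ v x))
    (hρ : ∀ w x, ‖ρ w x‖ = ‖x‖) :
    ∃ (H : Type) (_ : NormedAddCommGroup H) (_ : InnerProductSpace ℝ H) (_ : CompleteSpace H)
      (j : E →ₗ[ℝ] H) (U : W →* (H ≃ₗᵢ[ℝ] H)), DenseRange j ∧ (∀ x y, ⟪j x, j y⟫_ℝ = ⟪x, y⟫_ℝ) ∧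
        ∀ w x, U w (j x) = j (ρ w x) := by
  let H := UniformSpace.Completion E
  let j : E →L[ℝ] H := UniformSpace.Completion.toComplL
  have hj : ∀ x, j x = (x : UniformSpace.Completion E) := fun x => rfl
  have hdense : DenseRange j := UniformSpace.Completion.denseRange_coe
  have hunif : IsUniformInducing j := UniformSpace.Completion.isUniformInducing_coe E
  have hnorm : ∀ x, ‖j x‖ = ‖x‖ := fun x => UniformSpace.Completion.norm_coe x
  let R : W → (E →ₗᵢ[ℝ] E) := fun w => ⟨ρ w, hρ w⟩
  let f : W → (E →L[ℝ] H) := fun w => j.comp (R w).toContinuousLinearMap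
  let V : W → (H →L[ℝ] H) := fun w => (f w).extend j
  have hV : ∀ w x, V w (j x) = j (ρ w x) := fun w x =>
    ContinuousLinearMap.extend_eq (f w) hdense hunif x
  have hVn : ∀ w h, ‖V w h‖ = ‖h‖ := by
    intro w h
    refine hdense.induction_on (p := fun h => ‖V w h‖ = ‖h‖) h
      (isClosed_eq (V w).continuous.norm continuous_norm) ?_
    intro x
    rw [hV, hnorm, hnorm, hρ]
  have hV1 : ∀ h, V 1 h = h := by
    intro h
    refine hdense.induction_on (p := fun h => V 1 h = h) h
      (isClosed_eq (V 1).continuous continuous_id) ?_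
    intro x
    rw [hV, h1]
  have hVm : ∀ w v h, V (w * v) h = V w (V v h) := by
    intro w v h
    refine hdense.induction_on (p := fun h => V (w * v) h = V w (V v h)) h
      (isClosed_eq (V (w * v)).continuous ((V w).continuous.comp (V v).continuous)) ?_
    intro x
    rw [hV, hV, hV, hmul]
  let U0 : W → (H ≃ₗᵢ[ℝ] H) := fun w =>
    { toLinearEquiv := LinearEquiv.ofLinear (V w : H →ₗ[ℝ] H) (V w⁻¹ : H →ₗ[ℝ] H)
        (by
          ext h
          change V w (V w⁻¹ h) = h
          rw [← hVm, mul_inv_cancel, hV1])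
        (by
          ext h
          change V w⁻¹ (V w h) = h
          rw [← hVm, inv_mul_cancel, hV1])
      norm_map' := fun h => hVn w h }
  have hU0 : ∀ w h, U0 w h = V w h := fun w h => rfl
  let U : W →* (H ≃ₗᵢ[ℝ] H) :=
    { toFun := U0
      map_one' := by
        ext h
        rw [hU0, hV1]
        rfl
      map_mul' := by
        intro w v
        ext h
        rw [hU0, hVm]
        rfl }
  refine ⟨H, inferInstance, inferInstance, inferInstance, (j : E →ₗ[ℝ] H), U, hdense, ?_, ?_⟩
  · intro x y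
    exact UniformSpace.Completion.inner_coe x y
  · intro w x
    exact hV w x

/-- GNS: a group acting on a real vector space preserving a positive semidefinite symmetric form
acts by linear isometries on the Hausdorff completion -/
theorem gns {W : Type} [Group W] {E : Type} [AddCommGroup E] [Module ℝ E] (B : E →ₗ[ℝ] E →ₗ[ℝ] ℝ)
    (hsymm : ∀ x y, B x y = B y x) (hpos : ∀ x, 0 ≤ B x x) (ρ : W → (E →ₗ[ℝ] E))
    (h1 : ∀ x, ρ 1 x = x) (hmul : ∀ w v x, ρ (w * v) x = ρ w (ρ v x))
    (hρ : ∀ w x y, B (ρ w x) (ρ w y) = B x y) :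
    ∃ (H : Type) (_ : NormedAddCommGroup H) (_ : InnerProductSpace ℝ H) (_ : CompleteSpace H)
      (j : E →ₗ[ℝ] H) (U : W →* (H ≃ₗᵢ[ℝ] H)), DenseRange j ∧ (∀ x y, ⟪j x, j y⟫_ℝ = B x y) ∧
        ∀ w x, U w (j x) = j (ρ w x) := by
  let core : PreInnerProductSpace.Core ℝ E :=
    { inner := fun x y => B x y
      conj_inner_symm := fun x y => by
        change B y x = B x y
        exact hsymm y x
      re_inner_nonneg := fun x => hpos x
      add_left := fun x y z => by
        change B (x + y) z = B x z + B y z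
        rw [map_add]
        rfl
      smul_left := fun x y r => by
        change B (r • x) y = r * B x y
        rw [map_smul]
        rfl }
  letI i1 : SeminormedAddCommGroup E := @InnerProductSpace.Core.toSeminormedAddCommGroup ℝ E _ _ _ core
  letI i2 : InnerProductSpace ℝ E := InnerProductSpace.ofCore core
  have hn : ∀ x : E, ‖x‖ = Real.sqrt (B x x) := fun x => rfl
  exact gns_aux ρ h1 hmul (fun w x => by rw [hn, hn, hρ])

end Pool.Agent.Helper889.Na
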