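import Mathlib
import Pool.Agent.Helper889.Na.Fn
import Pool.Agent.Helper889.Na.Gns

set_option autoImplicit false
set_option linter.unusedSectionVars false
set_option linter.unusedVariables false

open Filter Topology
open scoped InnerProductSpace

namespace Pool.Agent.Helper889.Na

/-- limit along the hyperfilter -/
noncomputable def Lm (f : ℕ → ℝ) : ℝ := limUnder (hyperfilter ℕ : Filter ℕ) f

theorem tendsto_Lm {f : ℕ → ℝ} {C : ℝ} (h : ∀ k, |f k| ≤ C) :
    Tendsto f (hyperfilter ℕ : Filter ℕ) (𝓝 (Lm f)) := by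
  apply tendsto_nhds_limUnder
  have hK : IsCompact (Set.Icc (-C) C) := isCompact_Icc
  obtain ⟨x, -, hx⟩ := hK.ultrafilter_le_nhds ((hyperfilter ℕ).map f) (by
    rw [le_principal_iff]
    exact Filter.Eventually.of_forall (f := (hyperfilter ℕ : Filter ℕ)) fun k => abs_le.mp (h k))
  exact ⟨x, hx⟩

theorem Lm_eq {f : ℕ → ℝ} {x : ℝ} (h : Tendsto f (hyperfilter ℕ : Filter ℕ) (𝓝 x)) : Lm f = x :=
  h.limUnder_eq

variable {W : Type} [Group W]

theorem abs_ip_le (f g : W →₀ ℝ) : |ip f g| ≤ N f + N g := by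
  have h1 := N_nonneg (f + g)
  have h2 := N_nonneg (f - g)
  have h3 := N_nonneg f
  have h4 := N_nonneg g
  rw [N_add] at h1
  rw [N_sub] at h2
  rw [abs_le]
  constructor <;> linarith

theorem N_add_le (f g : W →₀ ℝ) : N (f + g) ≤ 2 * N f + 2 * N g := by
  have h2 := N_nonneg (f - g)
  rw [N_sub] at h2
  rw [N_add]
  linarith

/-- the space of bounded sequences -/
def ES (F : ℕ → Set W) (hF : ∀ m n, m ≤ n → F m ⊆ F n) (R : ℕ → ℕ) : Submodule ℝ (ℕ → (W →₀ ℝ)) where
  carrier := {c | (∃ C, ∀ k, N (c k) ≤ C) ∧ ∃ m, ∀ k w, c k w ≠ 0 → w ∈ F (R k + m)}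
  add_mem' := by
    rintro c d ⟨⟨C, hC⟩, m, hm⟩ ⟨⟨D, hD⟩, n, hn⟩
    refine ⟨⟨2 * C + 2 * D, fun k => ?_⟩, max m n, fun k w hw => ?_⟩
    · have := N_add_le (c k) (d k)
      have h1 := hC k
      have h2 := hD k
      change N (c k + d k) ≤ _
      linarith
    · have hw' : c k w + d k w ≠ 0 := hw
      by_cases h : c k w = 0
      · have : d k w ≠ 0 := by
          intro h'
          apply hw'
          rw [h, h', add_zero]
        exact hF _ _ (by omega) (hn k w this)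
      · exact hF _ _ (by omega) (hm k w h)
  zero_mem' := by
    refine ⟨⟨0, fun k => ?_⟩, 0, fun k w hw => ?_⟩
    · change N (0 : W →₀ ℝ) ≤ 0
      simp [N, ip]
    · exact absurd rfl hw
  smul_mem' := by
    rintro a c ⟨⟨C, hC⟩, m, hm⟩
    refine ⟨⟨a ^ 2 * C, fun k => ?_⟩, m, fun k w hw => ?_⟩
    · change N (a • c k) ≤ _
      rw [N_smul]
      exact mul_le_mul_of_nonneg_left (hC k) (sq_nonneg a)
    · have hw' : a * c k w ≠ 0 := hw
      exact hm k w (fun h => hw' (by rw [h, mul_zero]))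

theorem ES_bound {F : ℕ → Set W} {hF : ∀ m n, m ≤ n → F m ⊆ F n} {R : ℕ → ℕ} (c d : ES F hF R) :
    ∃ C, ∀ k, |ip (c.1 k) (d.1 k)| ≤ C := by
  obtain ⟨⟨C, hC⟩, -⟩ := c.2
  obtain ⟨⟨D, hD⟩, -⟩ := d.2
  exact ⟨C + D, fun k => (abs_ip_le _ _).trans (add_le_add (hC k) (hD k))⟩

theorem ES_tendsto {F : ℕ → Set W} {hF : ∀ m n, m ≤ n → F m ⊆ F n} {R : ℕ → ℕ} (c d : ES F hF R) :
    Tendsto (fun k => ip (c.1 k) (d.1 k)) (hyperfilter ℕ : Filter ℕ) (𝓝 (Lm fun k => ip (c.1 k) (d.1 k))) := by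
  obtain ⟨C, hC⟩ := ES_bound c d
  exact tendsto_Lm hC

/-- the form -/
noncomputable def EB (F : ℕ → Set W) (hF : ∀ m n, m ≤ n → F m ⊆ F n) (R : ℕ → ℕ) :
    ES F hF R →ₗ[ℝ] ES F hF R →ₗ[ℝ] ℝ :=
  LinearMap.mk₂ ℝ (fun c d => Lm fun k => ip (c.1 k) (d.1 k))
    (by
      intro c c' d
      apply Lm_eq
      refine ((ES_tendsto c d).add (ES_tendsto c' d)).congr fun k => ?_
      exact (ip_add_left _ _ _).symm)
    (by
      intro a c d
      apply Lm_eq
      refine ((ES_tendsto c d).const_mul a).congr fun k => ?_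
      exact (ip_smul_left _ _ _).symm)
    (by
      intro c d d'
      apply Lm_eq
      refine ((ES_tendsto c d).add (ES_tendsto c d')).congr fun k => ?_
      exact (ip_add_right _ _ _).symm)
    (by
      intro a c d
      apply Lm_eq
      refine ((ES_tendsto c d).const_mul a).congr fun k => ?_
      exact (ip_smul_right _ _ _).symm)

theorem EB_apply {F : ℕ → Set W} {hF : ∀ m n, m ≤ n → F m ⊆ F n} {R : ℕ → ℕ} (c d : ES F hF R) :
    EB F hF R c d = Lm fun k => ip (c.1 k) (d.1 k) := rfl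

/-- the translation -/
noncomputable def ET (F : ℕ → Set W) (hF : ∀ m n, m ≤ n → F m ⊆ F n) (R : ℕ → ℕ)
    (hmul : ∀ w : W, ∃ m, ∀ n, ∀ v ∈ F n, w * v ∈ F (n + m)) (w : W) : ES F hF R →ₗ[ℝ] ES F hF R where
  toFun c := ⟨fun k => tr w (c.1 k), by
    obtain ⟨⟨C, hC⟩, m, hm⟩ := c.2
    obtain ⟨m', hm'⟩ := hmul w
    refine ⟨⟨C, fun k => ?_⟩, m + m', fun k v hv => ?_⟩
    · change N (tr w (c.1 k)) ≤ _
      rw [N_tr]
      exact hC k
    · change tr w (c.1 k) v ≠ 0 at hv
      rw [tr_apply] at hv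
      have := hm' _ _ (hm k _ hv)
      rw [mul_inv_cancel_left] at this
      rwa [← add_assoc]⟩
  map_add' c d := by
    ext1
    funext k
    exact tr_add w _ _
  map_smul' a c := by
    ext1
    funext k
    exact tr_smul w _ _

theorem ET_coe {F : ℕ → Set W} {hF : ∀ m n, m ≤ n → F m ⊆ F n} {R : ℕ → ℕ}
    (hmul : ∀ w : W, ∃ m, ∀ n, ∀ v ∈ F n, w * v ∈ F (n + m)) (w : W) (c : ES F hF R) (k : ℕ) :
    (ET F hF R hmul w c).1 k = tr w (c.1 k) := rfl

/-- boundedness of the cocycle -/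
theorem coc_bound {κ : Type} [Fintype κ] (g : κ → W)
    (hgen : Subgroup.closure (Set.range g) = ⊤) (q : ℝ) (hq : 0 < q) (φ : ℕ → W →₀ ℝ) (ε : ℕ → ℝ)
    (hε : ∀ k, 0 < ε k) (hE : ∀ k, q * ∑ i, N (tr (g i) (φ k) - φ k) ≤ (1 + 1/((k:ℝ)+1)) * ε k) (w : W) :
    ∃ C, ∀ k, N (tr w (φ k) - φ k) ≤ C * ε k := by
  have hw : w ∈ Subgroup.closure (Set.range g) := by rw [hgen]; trivial
  induction hw using Subgroup.closure_induction with
  | mem x hx =>
    obtain ⟨i, rfl⟩ := hx
    refine ⟨2 / q, fun k => ?_⟩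
    have h1 : N (tr (g i) (φ k) - φ k) ≤ ∑ i, N (tr (g i) (φ k) - φ k) :=
      Finset.single_le_sum (f := fun i => N (tr (g i) (φ k) - φ k)) (fun _ _ => N_nonneg _) (Finset.mem_univ i)
    have h2 : (1 + 1/((k:ℝ)+1)) ≤ 2 := by
      have : 1/((k:ℝ)+1) ≤ 1 := by
        rw [div_le_one (by positivity)]
        have : (0:ℝ) ≤ k := Nat.cast_nonneg k
        linarith
      linarith
    have h3 : q * N (tr (g i) (φ k) - φ k) ≤ 2 * ε k :=
      (mul_le_mul_of_nonneg_left h1 hq.le).trans ((hE k).trans (mul_le_mul_of_nonneg_right h2 (hε k).le))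
    rw [div_mul_eq_mul_div, le_div_iff₀ hq]
    linarith
  | one =>
    refine ⟨0, fun k => ?_⟩
    rw [tr_one, sub_self]
    simp [N, ip]
  | mul x y _ _ hx hy =>
    obtain ⟨C, hC⟩ := hx
    obtain ⟨D, hD⟩ := hy
    refine ⟨2 * C + 2 * D, fun k => ?_⟩
    have h1 : tr (x * y) (φ k) - φ k = tr x (tr y (φ k) - φ k) + (tr x (φ k) - φ k) := by
      rw [tr_mul, tr_sub]
      abel
    rw [h1]
    refine (N_add_le _ _).trans ?_
    rw [N_tr]
    have := hC k
    have := hD k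
    linarith
  | inv x _ hx =>
    obtain ⟨C, hC⟩ := hx
    refine ⟨C, fun k => ?_⟩
    have h1 : tr x⁻¹ (φ k) - φ k = -(tr x⁻¹ (tr x (φ k) - φ k)) := by
      rw [tr_sub, ← tr_mul, inv_mul_cancel, tr_one]
      abel
    rw [h1, N_neg, N_tr]
    exact hC k

theorem quad_zero {a b : ℝ} (hb : 0 ≤ b) (key : ∀ t : ℝ, 0 ≤ 2 * t * a + t ^ 2 * b) : a = 0 := by
  by_contra hne
  have h1 := key (-a / (b + 1))
  have h2 : 0 < a ^ 2 := by positivity
  have h3 : 0 < b + 1 := by linarith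
  have h4 : 2 * (-a / (b + 1)) * a + (-a / (b + 1)) ^ 2 * b =
      -((a) ^ 2 * (b + 2)) / (b + 1) ^ 2 := by
    field_simp
    ring
  rw [h4] at h1
  have h5 : 0 < a ^ 2 * (b + 2) / (b + 1) ^ 2 := by positivity
  rw [neg_div] at h1
  linarith

theorem harmonic_limit {κ : Type} [Fintype κ] (g : κ → W)
    (hgen : Subgroup.closure (Set.range g) = ⊤) (q : ℝ) (hq : 0 < q) (F : ℕ → Set W)
    (hF : ∀ m n, m ≤ n → F m ⊆ F n) (hmul : ∀ w : W, ∃ m, ∀ n, ∀ v ∈ F n, w * v ∈ F (n + m))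
    (R : ℕ → ℕ) (φ : ℕ → W →₀ ℝ) (ε : ℕ → ℝ) (hε : ∀ k, 0 < ε k) (hε0 : Tendsto ε atTop (𝓝 0))
    (hsupp : ∀ k w, φ k w ≠ 0 → w ∈ F (R k)) (hN : ∀ k, N (φ k) = 1)
    (hE : ∀ k, q * ∑ i, N (tr (g i) (φ k) - φ k) ≤ (1 + 1/((k:ℝ)+1)) * ε k)
    (hmin : ∀ k (u : W →₀ ℝ), (∀ w, u w ≠ 0 → w ∈ F (R k + k)) →
      (1 - 1/((k:ℝ)+1)) * ε k * N u ≤ q * ∑ i, N (tr (g i) u - u)) :
    ∃ (H : Type) (_ : NormedAddCommGroup H) (_ : InnerProductSpace ℝ H) (_ : CompleteSpace H)
      (U : W →* (H ≃ₗᵢ[ℝ] H)) (b : W → H), (∀ w v, b (w * v) = b w + U w (b v)) ∧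
      (∀ c : H, ∑ i, ⟪b (g i), U (g i) c - c⟫_ℝ = 0) ∧
      (∀ w, Tendsto (fun k => N (tr w (φ k) - φ k) / ε k) (hyperfilter ℕ : Filter ℕ) (𝓝 (‖b w‖^2))) := by
  obtain ⟨H, i1, i2, i3, j, U, hj, hjB, hU⟩ := gns (W := W) (E := ES F hF R) (EB F hF R)
    (by
      intro x y
      rw [EB_apply, EB_apply]
      congr 1
      funext k
      exact ip_comm _ _)
    (by
      intro x
      rw [EB_apply]
      exact ge_of_tendsto (ES_tendsto x x) (Eventually.of_forall fun k => N_nonneg _))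
    (ET F hF R hmul)
    (by
      intro x
      ext1
      funext k
      rw [ET_coe, tr_one])
    (by
      intro w v x
      ext1
      funext k
      rw [ET_coe, ET_coe, ET_coe, tr_mul])
    (by
      intro w x y
      rw [EB_apply, EB_apply]
      congr 1
      funext k
      rw [ET_coe, ET_coe, ip_tr])
  -- the cocycle
  have hmem : ∀ w : W, (fun k => (√(ε k))⁻¹ • (tr w (φ k) - φ k)) ∈ ES F hF R := by
    intro w
    obtain ⟨C, hC⟩ := coc_bound g hgen q hq φ ε hε hE w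
    obtain ⟨m, hm⟩ := hmul w
    refine ⟨⟨C, fun k => ?_⟩, m, fun k v hv => ?_⟩
    · change N ((√(ε k))⁻¹ • (tr w (φ k) - φ k)) ≤ C
      rw [N_smul, inv_pow, Real.sq_sqrt (hε k).le, inv_mul_le_iff₀ (hε k), mul_comm]
      exact hC k
    · change (√(ε k))⁻¹ * (tr w (φ k) v - φ k v) ≠ 0 at hv
      have h1 : tr w (φ k) v - φ k v ≠ 0 := fun h => hv (by rw [h, mul_zero])
      rw [tr_apply] at h1
      by_cases h2 : φ k v = 0
      · have h3 : φ k (w⁻¹ * v) ≠ 0 := by
          intro h3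
          apply h1
          rw [h2, h3, sub_zero]
        have := hm _ _ (hsupp k _ h3)
        rwa [mul_inv_cancel_left] at this
      · exact hF _ _ (by omega) (hsupp k _ h2)
  let bc : W → ES F hF R := fun w => ⟨_, hmem w⟩
  have hbc : ∀ w k, (bc w).1 k = (√(ε k))⁻¹ • (tr w (φ k) - φ k) := fun w k => rfl
  have hcoc : ∀ w v, bc (w * v) = bc w + ET F hF R hmul w (bc v) := by
    intro w v
    ext1
    funext k
    change (bc (w * v)).1 k = (bc w).1 k + (ET F hF R hmul w (bc v)).1 k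
    rw [ET_coe, hbc, hbc, hbc, tr_smul, ← smul_add, tr_mul, tr_sub]
    congr 1
    abel
  clear_value bc
  refine ⟨H, i1, i2, i3, U, fun w => j (bc w), ?_, ?_, ?_⟩
  · intro w v
    change j (bc (w * v)) = j (bc w) + U w (j (bc v))
    rw [hU, ← map_add, hcoc]
  · intro c
    -- reduce to the dense range
    have hclosed : IsClosed {c : H | ∑ i, ⟪j (bc (g i)), U (g i) c - c⟫_ℝ = 0} := by
      apply isClosed_eq _ continuous_const
      refine continuous_finsetSum _ fun i _ => ?_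
      exact continuous_const.inner (((U (g i)).continuous).sub continuous_id)
    refine hj.induction_on (p := fun c : H => ∑ i, ⟪j (bc (g i)), U (g i) c - c⟫_ℝ = 0) c hclosed ?_
    intro d
    have h1 : ∀ i, ⟪j (bc (g i)), U (g i) (j d) - j d⟫_ℝ = EB F hF R (bc (g i)) (ET F hF R hmul (g i) d - d) := by
      intro i
      rw [hU, ← map_sub, hjB]
    simp only [h1]
    set S : ℝ := ∑ i, EB F hF R (bc (g i)) (ET F hF R hmul (g i) d - d) with hS
    set T : ℝ := ∑ i, EB F hF R (ET F hF R hmul (g i) d - d) (ET F hF R hmul (g i) d - d) with hT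
    have hlimS : Tendsto (fun k => ∑ i, ip ((bc (g i)).1 k) ((ET F hF R hmul (g i) d - d).1 k))
        (hyperfilter ℕ : Filter ℕ) (𝓝 S) := tendsto_finsetSum _ fun i _ => ES_tendsto _ _
    have hlimT : Tendsto (fun k => ∑ i, N ((ET F hF R hmul (g i) d - d).1 k))
        (hyperfilter ℕ : Filter ℕ) (𝓝 T) := tendsto_finsetSum _ fun i _ => ES_tendsto _ _
    have key : ∀ t : ℝ, 0 ≤ 2 * t * (q * S) + t ^ 2 * (q * T) := by
      intro t
      obtain ⟨⟨C, hC⟩, m, hm⟩ := d.2
      have hε1 : Tendsto ε (hyperfilter ℕ : Filter ℕ) (𝓝 0) := hε0.mono_left Nat.hyperfilter_le_atTop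
      have hk1 : Tendsto (fun k : ℕ => 1 / ((k:ℝ) + 1)) (hyperfilter ℕ : Filter ℕ) (𝓝 0) :=
        tendsto_one_div_add_atTop_nhds_zero_nat.mono_left Nat.hyperfilter_le_atTop
      have hsq : Tendsto (fun k => √(ε k)) (hyperfilter ℕ : Filter ℕ) (𝓝 0) := by
        have := (Real.continuous_sqrt.tendsto 0).comp hε1
        rwa [Real.sqrt_zero] at this
      have hp : Tendsto (fun k => √(ε k) * ip (φ k) (d.1 k)) (hyperfilter ℕ : Filter ℕ) (𝓝 0) := by
        apply squeeze_zero_norm (a := fun k => √(ε k) * (1 + C))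
        · intro k
          rw [Real.norm_eq_abs, abs_mul, abs_of_nonneg (Real.sqrt_nonneg _)]
          apply mul_le_mul_of_nonneg_left _ (Real.sqrt_nonneg _)
          refine (abs_ip_le _ _).trans ?_
          rw [hN k]
          linarith [hC k]
        · have := hsq.mul_const (1 + C)
          rwa [zero_mul] at this
      have hn : Tendsto (fun k => ε k * N (d.1 k)) (hyperfilter ℕ : Filter ℕ) (𝓝 0) := by
        apply squeeze_zero_norm (a := fun k => ε k * C)
        · intro k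
          rw [Real.norm_eq_abs, abs_mul, abs_of_nonneg (hε k).le, abs_of_nonneg (N_nonneg _)]
          exact mul_le_mul_of_nonneg_left (hC k) (hε k).le
        · have := hε1.mul_const C
          rwa [zero_mul] at this
      have hL : Tendsto (fun k : ℕ => (1 - 1 / ((k:ℝ) + 1)) *
          (1 + 2 * t * (√(ε k) * ip (φ k) (d.1 k)) + t ^ 2 * (ε k * N (d.1 k))))
          (hyperfilter ℕ : Filter ℕ) (𝓝 ((1 - 0) * (1 + 2 * t * 0 + t ^ 2 * 0))) :=
        (tendsto_const_nhds.sub hk1).mul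
          ((tendsto_const_nhds.add (hp.const_mul (2 * t))).add (hn.const_mul (t ^ 2)))
      have hRt : Tendsto (fun k : ℕ => (1 + 1 / ((k:ℝ) + 1)) +
          2 * t * (q * ∑ i, ip ((bc (g i)).1 k) ((ET F hF R hmul (g i) d - d).1 k)) +
            t ^ 2 * (q * ∑ i, N ((ET F hF R hmul (g i) d - d).1 k)))
          (hyperfilter ℕ : Filter ℕ) (𝓝 ((1 + 0) + 2 * t * (q * S) + t ^ 2 * (q * T))) :=
        ((tendsto_const_nhds.add hk1).add ((hlimS.const_mul q).const_mul (2 * t))).add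
          ((hlimT.const_mul q).const_mul (t ^ 2))
      have hle : ∀ᶠ k : ℕ in (hyperfilter ℕ : Filter ℕ), (1 - 1 / ((k:ℝ) + 1)) *
          (1 + 2 * t * (√(ε k) * ip (φ k) (d.1 k)) + t ^ 2 * (ε k * N (d.1 k))) ≤
          (1 + 1 / ((k:ℝ) + 1)) +
          2 * t * (q * ∑ i, ip ((bc (g i)).1 k) ((ET F hF R hmul (g i) d - d).1 k)) +
            t ^ 2 * (q * ∑ i, N ((ET F hF R hmul (g i) d - d).1 k)) := by
        have hev : ∀ᶠ k : ℕ in (hyperfilter ℕ : Filter ℕ), m ≤ k :=
          Nat.hyperfilter_le_atTop (eventually_ge_atTop m)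
        filter_upwards [hev] with k hk
        have h2 := hmin k (φ k + (t * √(ε k)) • d.1 k) (by
          intro w hw
          have hw' : φ k w + (t * √(ε k)) * d.1 k w ≠ 0 := hw
          by_cases h3 : φ k w = 0
          · have h4 : d.1 k w ≠ 0 := by
              intro h4
              apply hw'
              rw [h3, h4, mul_zero, add_zero]
            exact hF _ _ (by omega) (hm k w h4)
          · exact hF _ _ (by omega) (hsupp k w h3))
        have hs2 : √(ε k) ^ 2 = ε k := Real.sq_sqrt (hε k).le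
        have h3 : N (φ k + (t * √(ε k)) • d.1 k) =
            1 + 2 * t * (√(ε k) * ip (φ k) (d.1 k)) + t ^ 2 * (ε k * N (d.1 k)) := by
          rw [N_add, hN, ip_smul_right, N_smul, mul_pow, hs2]
          ring
        have h4 : ∀ i, tr (g i) (φ k + (t * √(ε k)) • d.1 k) - (φ k + (t * √(ε k)) • d.1 k) =
            √(ε k) • ((bc (g i)).1 k + t • (ET F hF R hmul (g i) d - d).1 k) := by
          intro i
          have h5 : (ET F hF R hmul (g i) d - d).1 k = tr (g i) (d.1 k) - d.1 k := rfl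
          have hs0 : √(ε k) ≠ 0 := (Real.sqrt_pos.mpr (hε k)).ne'
          rw [h5, hbc, smul_add, smul_smul, mul_inv_cancel₀ hs0, one_smul, smul_smul, tr_add, tr_smul,
            smul_sub, mul_comm t]
          abel
        have h5 : ∀ i, N (tr (g i) (φ k + (t * √(ε k)) • d.1 k) - (φ k + (t * √(ε k)) • d.1 k)) =
            ε k * (N ((bc (g i)).1 k) + 2 * t * ip ((bc (g i)).1 k) ((ET F hF R hmul (g i) d - d).1 k) +
              t ^ 2 * N ((ET F hF R hmul (g i) d - d).1 k)) := by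
          intro i
          rw [h4, N_smul, hs2, N_add, ip_smul_right, N_smul t]
          ring
        have h6 : q * ∑ i, N ((bc (g i)).1 k) ≤ 1 + 1 / ((k:ℝ) + 1) := by
          have h7 := hE k
          have h8 : ∀ i, N (tr (g i) (φ k) - φ k) = ε k * N ((bc (g i)).1 k) := by
            intro i
            rw [hbc, N_smul, inv_pow, hs2, mul_inv_cancel_left₀ (hε k).ne']
          simp only [h8] at h7
          rw [← Finset.mul_sum] at h7
          have h9 : ε k * (q * ∑ i, N ((bc (g i)).1 k)) ≤ ε k * (1 + 1 / ((k:ℝ) + 1)) := by linarith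
          exact le_of_mul_le_mul_left h9 (hε k)
        rw [h3] at h2
        simp only [h5] at h2
        rw [← Finset.mul_sum, Finset.sum_add_distrib, Finset.sum_add_distrib, ← Finset.mul_sum,
          ← Finset.mul_sum] at h2
        have h10 : ε k * ((1 - 1 / ((k:ℝ) + 1)) *
          (1 + 2 * t * (√(ε k) * ip (φ k) (d.1 k)) + t ^ 2 * (ε k * N (d.1 k)))) ≤
          ε k * (q * ∑ i, N ((bc (g i)).1 k) +
          2 * t * (q * ∑ i, ip ((bc (g i)).1 k) ((ET F hF R hmul (g i) d - d).1 k)) +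
            t ^ 2 * (q * ∑ i, N ((ET F hF R hmul (g i) d - d).1 k))) := by
          refine le_of_eq_of_le ?_ (h2.trans_eq ?_) <;> ring
        have h11 := le_of_mul_le_mul_left h10 (hε k)
        linarith
      have := le_of_tendsto_of_tendsto hL hRt hle
      linarith
    have hT0 : 0 ≤ q * T := by
      apply mul_nonneg hq.le
      exact ge_of_tendsto hlimT (Eventually.of_forall fun k => Finset.sum_nonneg fun i _ => N_nonneg _)
    exact (mul_eq_zero.mp (quad_zero hT0 key)).resolve_left hq.ne'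
  · intro w
    have h1 : ‖j (bc w)‖ ^ 2 = EB F hF R (bc w) (bc w) := by
      rw [← hjB, real_inner_self_eq_norm_sq]
    rw [h1]
    refine (ES_tendsto (bc w) (bc w)).congr fun k => ?_
    change N ((bc w).1 k) = _
    rw [hbc, N_smul, inv_pow, Real.sq_sqrt (hε k).le]
    ring

end Pool.Agent.Helper889.Na
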