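import Mathlib
import Pool.Agent.Helper889.Na.Defs

set_option autoImplicit false
set_option linter.unusedSectionVars false
set_option linter.unusedVariables false


namespace Pool.Agent.Helper889.Na
namespace Core
variable {G : Type} [Group G] (c : Core G)

theorem P_gW (σ : A) (b : B) : c.P (c.gW σ b) = (c.iA σ)⁻¹ * c.iB b * c.iA σ := by
  have h := c.conj σ⁻¹ (fun x => if x.2 = 0 then c.iB b else if x.2 = 1 then c.iA (b x.1) else 1)
  rw [← c.dirB b, map_inv, inv_inv] at h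
  rw [h]
  rfl

theorem closure_gW : Subgroup.closure (Set.range fun p : A × B => c.gW p.1 p.2) = ⊤ := by
  set K : Subgroup (X → G) := Subgroup.closure (Set.range fun p : A × B => c.gW p.1 p.2) with hK
  have hstab : ∀ (s : A) (w : X → G), w ∈ K → (fun x : X => w (x.1, s.1 x.2)) ∈ K := by
    intro s w hw
    induction hw using Subgroup.closure_induction with
    | mem x hx =>
      obtain ⟨⟨σ, b⟩, rfl⟩ := hx
      apply Subgroup.subset_closure
      exact ⟨(σ * s, b), rfl⟩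
    | one => exact K.one_mem
    | mul x y hx hy ihx ihy => exact K.mul_mem ihx ihy
    | inv x hx ih => exact K.inv_mem ih
  have hPc : ∀ (τ : A) (w : X → G), c.P w * c.iA τ = c.iA τ * c.P (fun x => w (x.1, τ.1 x.2)) := by
    intro τ w
    have h := c.conj τ⁻¹ w
    rw [map_inv, inv_inv] at h
    rw [show (fun x : X => w (x.1, τ.1 x.2)) = (fun x => w (x.1, ((τ⁻¹)⁻¹ : A).1 x.2)) by
      simp]
    rw [← h]
    group
  let H : Subgroup G :=
    { carrier := {g | ∃ (σ : A) (w : X → G), w ∈ K ∧ g = c.iA σ * c.P w}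
      mul_mem' := by
        rintro _ _ ⟨σ, w, hw, rfl⟩ ⟨τ, v, hv, rfl⟩
        refine ⟨σ * τ, (fun x => w (x.1, τ.1 x.2)) * v, K.mul_mem (hstab τ w hw) hv, ?_⟩
        rw [map_mul, map_mul]
        calc c.iA σ * c.P w * (c.iA τ * c.P v) = c.iA σ * (c.P w * c.iA τ) * c.P v := by group
          _ = _ := by rw [hPc]; group
      one_mem' := ⟨1, 1, K.one_mem, by simp⟩
      inv_mem' := by
        rintro _ ⟨σ, w, hw, rfl⟩
        refine ⟨σ⁻¹, fun x => w⁻¹ (x.1, (σ⁻¹ : A).1 x.2), hstab σ⁻¹ w⁻¹ (K.inv_mem hw), ?_⟩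
        rw [← hPc, mul_inv_rev, map_inv, map_inv] }
  have hHtop : H = ⊤ := by
    rw [eq_top_iff, ← c.gen, Subgroup.closure_le]
    rintro _ (⟨a, rfl⟩ | ⟨b, rfl⟩)
    · exact ⟨a, 1, K.one_mem, by simp⟩
    · refine ⟨1, c.gW 1 b, Subgroup.subset_closure ⟨(1, b), rfl⟩, ?_⟩
      rw [P_gW]
      simp
  rw [eq_top_iff]
  intro w _
  have hw : c.P w ∈ H := by rw [hHtop]; trivial
  obtain ⟨σ, v, hv, hwv⟩ := hw
  have h1 : c.iA σ * c.P (v * w⁻¹) = 1 := by
    rw [map_mul, map_inv, ← mul_assoc, ← hwv, mul_inv_cancel]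
  have hσ := c.dec_inj σ _ h1
  rw [hσ, map_one, one_mul] at hwv
  rw [c.P_inj hwv]
  exact hv


end Core
end Pool.Agent.Helper889.Na
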