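import Mathlib
import Pool.Agent.Helper889.Na.Defs
import Pool.Agent.Helper889.Na.Gen

set_option autoImplicit false
set_option linter.unusedSectionVars false
set_option linter.unusedVariables false


namespace Pool.Agent.Helper889.Na
namespace Core
variable {G : Type} [Group G] (c : Core G)

theorem P_of_rooted (g : G) : ∃! p : A × (X → G), g = c.iA p.1 * c.P p.2 := by
  obtain ⟨σ, w, h⟩ := c.dec g
  refine ⟨(σ, w), h, ?_⟩
  rintro ⟨t, v⟩ hv
  have hv' : c.iA σ * c.P w = c.iA t * c.P v := by rw [← h, hv]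
  have h1 : c.iA (σ⁻¹ * t) * c.P (v * w⁻¹) = 1 := by
    rw [map_mul, map_mul, map_inv, map_inv]
    calc (c.iA σ)⁻¹ * c.iA t * (c.P v * (c.P w)⁻¹) = (c.iA σ)⁻¹ * (c.iA t * c.P v) * (c.P w)⁻¹ := by group
      _ = (c.iA σ)⁻¹ * (c.iA σ * c.P w) * (c.P w)⁻¹ := by rw [hv']
      _ = 1 := by group
  have h2 : σ⁻¹ * t = 1 := c.dec_inj _ _ h1
  have h3 : t = σ := by
    have := mul_eq_one_iff_eq_inv.mp h2
    have h4 := congrArg Inv.inv this
    simpa using h4.symm
  subst h3
  have h5 : c.P w = c.P v := mul_left_cancel hv'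
  have h6 := c.P_inj h5
  simp [h6]

theorem ball_mono {R R' : ℕ} (h : R ≤ R') : c.ball R ⊆ c.ball R' := by
  rintro g ⟨l, hl, hs, hp⟩
  exact ⟨l, hl.trans h, hs, hp⟩

theorem ball_mul {R R' : ℕ} {g h : G} (hg : g ∈ c.ball R) (hh : h ∈ c.ball R') : g * h ∈ c.ball (R + R') := by
  obtain ⟨l, hl, hs, hp⟩ := hg
  obtain ⟨l', hl', hs', hp'⟩ := hh
  refine ⟨l ++ l', ?_, ?_, ?_⟩
  · rw [List.length_append]; omega
  · intro s hs1
    rcases List.mem_append.mp hs1 with h1 | h1
    · exact hs s h1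
    · exact hs' s h1
  · rw [List.prod_append, hp, hp']

theorem one_mem_ball (R : ℕ) : (1 : G) ∈ c.ball R :=
  ⟨[], Nat.zero_le _, by simp, by simp⟩

theorem S_ball {g : G} (h : g ∈ c.S) : g ∈ c.ball 1 :=
  ⟨[g], by simp, by simpa using h, by simp⟩

theorem conj' (σ : A) (w : X → G) : c.P w * c.iA σ = c.iA σ * c.P (fun x => w (x.1, σ.1 x.2)) := by
  have h := c.conj σ (fun x => w (x.1, σ.1 x.2))
  have h2 : (fun x : X => (fun x : X => w (x.1, σ.1 x.2)) (x.1, (σ⁻¹ : A).1 x.2)) = w := by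
    funext x
    simp
  rw [h2] at h
  rw [← h]
  group

theorem section_aux (l : List G) : (∀ s ∈ l, s ∈ c.S) → ∀ (σ : A) (w : X → G), l.prod = c.iA σ * c.P w →
    ∀ x, w x ∈ c.ball l.length := by
  induction l using List.reverseRecOn with
  | nil =>
    intro _ σ w h x
    have h0 : c.iA σ * c.P w = 1 := by simpa using h.symm
    have h1 := c.dec_inj _ _ h0
    rw [h1, map_one, one_mul] at h0
    have h2 : w = 1 := c.P_inj (by rw [h0, map_one])
    rw [h2]
    exact c.one_mem_ball _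
  | append_singleton l s ih =>
    intro hs σ w h x
    have hs1 : ∀ t ∈ l, t ∈ c.S := fun t ht => hs t (by simp [ht])
    have hs2 : s ∈ c.S := hs s (by simp)
    obtain ⟨τ, v, hv⟩ := c.dec l.prod
    have ih1 := ih hs1 τ v hv
    rw [List.prod_append, List.prod_singleton, hv] at h
    rw [List.length_append, List.length_singleton]
    rcases hs2 with ⟨t, rfl⟩ | ⟨b, rfl⟩
    · have h1 : c.iA (τ * t) * c.P (fun x => v (x.1, t.1 x.2)) = c.iA σ * c.P w := by
        rw [← h, map_mul, mul_assoc, mul_assoc, c.conj']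
      obtain ⟨p, hp, hu⟩ := c.P_of_rooted (c.iA σ * c.P w)
      have e1 := hu (τ * t, (fun x => v (x.1, t.1 x.2))) h1.symm
      have e2 := hu (σ, w) rfl
      have e3 : (fun x => v (x.1, t.1 x.2)) = w := by
        have := e1.trans e2.symm
        exact (Prod.mk.inj this).2
      rw [← e3]
      exact c.ball_mono (Nat.le_succ _) (ih1 _)
    · set u : X → G := fun x => if x.2 = 0 then c.iB b else if x.2 = 1 then c.iA (b x.1) else 1 with hu0
      have h1 : c.iA τ * c.P (v * u) = c.iA σ * c.P w := by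
        rw [← h, map_mul, mul_assoc]
        congr 2
        exact (c.dirB b).symm
      obtain ⟨p, hp, hu⟩ := c.P_of_rooted (c.iA σ * c.P w)
      have e1 := hu (τ, v * u) h1.symm
      have e2 := hu (σ, w) rfl
      have e3 : v * u = w := by
        have := e1.trans e2.symm
        exact (Prod.mk.inj this).2
      rw [← e3]
      refine c.ball_mul (ih1 x) ?_
      rw [hu0]
      dsimp only
      split_ifs
      · exact c.S_ball (Or.inr ⟨b, rfl⟩)
      · exact c.S_ball (Or.inl ⟨_, rfl⟩)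
      · exact c.one_mem_ball _

/-- elements of a ball have their sections in the same ball -/
theorem section_ball {R : ℕ} {σ : A} {w : X → G} (h : c.iA σ * c.P w ∈ c.ball R) (x : X) : w x ∈ c.ball R := by
  obtain ⟨l, hl, hs, hp⟩ := h
  exact c.ball_mono hl (c.section_aux l hs σ w hp x)

theorem ball_finite (R : ℕ) : (c.ball R).Finite := by
  have hS : c.S.Finite := by
    unfold Core.S
    exact (Set.finite_range _).union (Set.finite_range _)
  haveI : Finite c.S := hS.to_subtype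
  have h1 : ((fun l : List c.S => (l.map Subtype.val).prod) '' {l | l.length ≤ R}).Finite :=
    (List.finite_length_le _ _).image _
  refine h1.subset ?_
  rintro g ⟨l, hl, hs, hp⟩
  refine ⟨l.attach.map (fun a => ⟨a.1, hs a.1 a.2⟩), by simpa using hl, ?_⟩
  dsimp only
  rw [List.map_map]
  have : (Subtype.val ∘ fun a : {x // x ∈ l} => (⟨a.1, hs a.1 a.2⟩ : c.S)) = Subtype.val := rfl
  rw [this, List.attach_map_subtype_val, hp]

theorem S_inv {g : G} (h : g ∈ c.S) : g⁻¹ ∈ c.S := by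
  rcases h with ⟨t, rfl⟩ | ⟨t, rfl⟩
  · exact Or.inl ⟨t⁻¹, map_inv _ _⟩
  · exact Or.inr ⟨t⁻¹, map_inv _ _⟩

theorem ball_inv {R : ℕ} {g : G} (hg : g ∈ c.ball R) : g⁻¹ ∈ c.ball R := by
  obtain ⟨l, hl, hs, hp⟩ := hg
  refine ⟨(l.map fun x => x⁻¹).reverse, by simpa using hl, ?_, ?_⟩
  · intro s h
    rw [List.mem_reverse, List.mem_map] at h
    obtain ⟨t, ht, rfl⟩ := h
    exact c.S_inv (hs t ht)
  · rw [← hp, List.prod_inv_reverse]

theorem mem_ball (g : G) : ∃ R, g ∈ c.ball R := by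
  have hg : g ∈ Subgroup.closure (Set.range c.iA ∪ Set.range c.iB) := by
    rw [c.gen]; trivial
  induction hg using Subgroup.closure_induction with
  | mem x h => exact ⟨1, c.S_ball h⟩
  | one => exact ⟨0, c.one_mem_ball 0⟩
  | mul x y _ _ hx hy =>
    obtain ⟨R, hR⟩ := hx
    obtain ⟨R', hR'⟩ := hy
    exact ⟨R + R', c.ball_mul hR hR'⟩
  | inv x _ hx =>
    obtain ⟨R, hR⟩ := hx
    exact ⟨R, c.ball_inv hR⟩

end Core
end Pool.Agent.Helper889.Na
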