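import Mathlib
import Pool.Agent.Helper889.Na.Defs

set_option autoImplicit false
set_option linter.unusedSectionVars false
set_option linter.unusedVariables false


namespace Pool.Agent.Helper889.Na
namespace Core
variable {G : Type} [Group G] (c : Core G)

theorem ca_trans (y0 y : Y) : ∃ ρ : A, ρ.1 y0 = y := by
  have h5 : ∀ a b : Fin 5, ∃ z, z ≠ a ∧ z ≠ b := by decide
  by_cases h : y0 = y
  · exact ⟨1, h⟩
  · obtain ⟨z, hz0, hzy⟩ := h5 y0 y
    refine ⟨⟨Equiv.swap y0 z * Equiv.swap y0 y, ?_⟩, ?_⟩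
    · rw [Equiv.Perm.mem_alternatingGroup, map_mul, Equiv.Perm.sign_swap hz0.symm,
        Equiv.Perm.sign_swap h]
      norm_num
    · show Equiv.swap y0 z (Equiv.swap y0 y y0) = y
      rw [Equiv.swap_apply_left]
      exact Equiv.swap_apply_of_ne_of_ne (fun h' => h h'.symm) hzy.symm

theorem count_aux (f : Y → ℝ) (y0 : Y) : 5 * ∑ σ : A, f ((σ⁻¹ : A).1 y0) = (Fintype.card A : ℝ) * ∑ y, f y := by
  have h1 : ∑ σ : A, f ((σ⁻¹ : A).1 y0) = ∑ σ : A, f (σ.1 y0) :=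
    Equiv.sum_comp (Equiv.inv A) (fun σ : A => f (σ.1 y0))
  have h2 : ∀ y : Y, ∑ σ : A, f (σ.1 y) = ∑ σ : A, f (σ.1 y0) := by
    intro y
    obtain ⟨ρ, hρ⟩ := ca_trans y0 y
    have h3 := Equiv.sum_comp (Equiv.mulRight ρ) (fun σ : A => f (σ.1 y0))
    rw [← h3]
    refine Finset.sum_congr rfl fun σ _ => ?_
    show f (σ.1 y) = f (σ.1 (ρ.1 y0))
    rw [hρ]
  have h3 : ∑ y : Y, ∑ σ : A, f (σ.1 y) = (Fintype.card A : ℝ) * ∑ y, f y := by
    rw [Finset.sum_comm]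
    have h4 : ∀ σ : A, ∑ y : Y, f (σ.1 y) = ∑ y, f y := fun σ => Equiv.sum_comp σ.1 f
    rw [Finset.sum_congr rfl (fun σ _ => h4 σ), Finset.sum_const, Finset.card_univ, nsmul_eq_mul]
  rw [h1, ← h3, Finset.sum_congr rfl (fun y _ => h2 y), Finset.sum_const, Finset.card_univ,
    nsmul_eq_mul, Fintype.card_fin]
  norm_num

theorem ca_avg (F : A → ℝ) (i : I) :
    (∑ β : B, F (β i)) / (Fintype.card B : ℝ) = (∑ a : A, F a) / (Fintype.card A : ℝ) := by
  have hA : (0:ℝ) < Fintype.card A := by exact_mod_cast Fintype.card_pos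
  have e := Equiv.funSplitAt i A
  have h1 : ∑ β : B, F (β i) = ∑ q : A × ({j // j ≠ i} → A), F q.1 :=
    Fintype.sum_equiv (Equiv.funSplitAt i A) _ _ (fun β => rfl)
  have h2 : Fintype.card B = Fintype.card A * Fintype.card ({j // j ≠ i} → A) := by
    rw [Fintype.card_congr (Equiv.funSplitAt i A), Fintype.card_prod]
  have hR : (0:ℝ) < Fintype.card ({j // j ≠ i} → A) := by exact_mod_cast Fintype.card_pos
  rw [h1, Fintype.sum_prod_type, h2]
  simp only [Finset.sum_const, Finset.card_univ, nsmul_eq_mul]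
  rw [← Finset.mul_sum]
  push_cast
  field_simp

theorem ca_row (h : X → G → ℝ) (h1 : ∀ x, h x 1 = 0) (σ : A) (β : B) :
    ∑ x, h x (c.gW σ β x) = ∑ i : I, (h (i, (σ⁻¹ : A).1 0) (c.iB β) +
      h (i, (σ⁻¹ : A).1 1) (c.iA (β i))) := by
  rw [Fintype.sum_prod_type]
  refine Finset.sum_congr rfl fun i _ => ?_
  have h2 := Equiv.sum_comp (σ⁻¹ : A).1 (fun y : Y => h (i, y) (c.gW σ β (i, y)))
  rw [← h2]
  have h3 : ∀ z : Y, σ.1 ((σ⁻¹ : A).1 z) = z := by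
    intro z
    have : σ.1 ((σ⁻¹ : A).1 z) = (σ * σ⁻¹ : A).1 z := rfl
    rw [this, mul_inv_cancel]
    rfl
  have h4 : ∀ z : Y, c.gW σ β (i, (σ⁻¹ : A).1 z) =
      if z = 0 then c.iB β else if z = 1 then c.iA (β i) else 1 := by
    intro z
    show (if σ.1 ((σ⁻¹ : A).1 z) = 0 then c.iB β else if σ.1 ((σ⁻¹ : A).1 z) = 1 then
      c.iA (β i) else 1) = _
    rw [h3 z]
  simp only [h4]
  rw [Fin.sum_univ_five]
  have e10 : (1 : Fin 5) ≠ 0 := by decide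
  have e20 : (2 : Fin 5) ≠ 0 := by decide
  have e30 : (3 : Fin 5) ≠ 0 := by decide
  have e40 : (4 : Fin 5) ≠ 0 := by decide
  have e21 : (2 : Fin 5) ≠ 1 := by decide
  have e31 : (3 : Fin 5) ≠ 1 := by decide
  have e41 : (4 : Fin 5) ≠ 1 := by decide
  simp only [e10, e20, e30, e40, e21, e31, e41, if_true, if_false, h1, add_zero]

/-- TARGET -/
theorem count (h : X → G → ℝ) (h1 : ∀ x, h x 1 = 0) :
    (∑ σ : A, (∑ β : B, ∑ x, h x (c.gW σ β x)) / (Fintype.card B : ℝ)) =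
      (Fintype.card A : ℝ) / 5 * ∑ x : X, ((∑ σ : A, h x (c.iA σ)) / (Fintype.card A : ℝ)
        + (∑ β : B, h x (c.iB β)) / (Fintype.card B : ℝ)) := by
  obtain ⟨K, hK⟩ : ∃ K : I → Y → ℝ, K = fun i y =>
    (∑ β : B, h (i, y) (c.iB β)) / (Fintype.card B : ℝ) := ⟨_, rfl⟩
  obtain ⟨L, hL⟩ : ∃ L : I → Y → ℝ, L = fun i y =>
    (∑ σ : A, h (i, y) (c.iA σ)) / (Fintype.card A : ℝ) := ⟨_, rfl⟩
  have e1 : ∀ σ : A, (∑ β : B, ∑ x, h x (c.gW σ β x)) / (Fintype.card B : ℝ) =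
      ∑ i : I, (K i ((σ⁻¹ : A).1 0) + L i ((σ⁻¹ : A).1 1)) := by
    intro σ
    rw [Finset.sum_congr rfl (fun β _ => ca_row c h h1 σ β), Finset.sum_comm, Finset.sum_div]
    refine Finset.sum_congr rfl fun i _ => ?_
    have e5 := ca_avg (fun a => h (i, (σ⁻¹ : A).1 1) (c.iA a)) i
    rw [Finset.sum_add_distrib, add_div, e5, hK, hL]
  rw [Finset.sum_congr rfl (fun σ _ => e1 σ), Finset.sum_comm, Fintype.sum_prod_type,
    Finset.mul_sum]
  refine Finset.sum_congr rfl fun i _ => ?_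
  rw [Finset.sum_add_distrib]
  have e2 := count_aux (K i) 0
  have e3 := count_aux (L i) 1
  have e4 : ∑ y : Y, ((∑ σ : A, h (i, y) (c.iA σ)) / (Fintype.card A : ℝ)
        + (∑ β : B, h (i, y) (c.iB β)) / (Fintype.card B : ℝ)) = (∑ y, L i y) + ∑ y, K i y := by
    rw [← Finset.sum_add_distrib, hK, hL]
  rw [e4]
  linarith

end Core
end Pool.Agent.Helper889.Na
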