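import Mathlib
import Pool.Agent.Helper889.Na.Fn

set_option autoImplicit false
set_option linter.unusedSectionVars false
set_option linter.unusedVariables false

namespace Pool.Agent.Helper889.Na
namespace Core
variable {G : Type} [Group G] (c : Core G)

theorem low_EW_nonneg (φ : (X → G) →₀ ℝ) : 0 ≤ c.EW φ := by
  unfold EW
  refine Finset.sum_nonneg fun σ _ => div_nonneg (Finset.sum_nonneg fun b _ => N_nonneg _) ?_
  exact Nat.cast_nonneg _

theorem low_single {ι : Type} [Fintype ι] (f : ι → ℝ) (h : ∀ i, 0 ≤ f i) (i : ι) :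
    f i ≤ ∑ i, f i :=
  Finset.single_le_sum (fun i _ => h i) (Finset.mem_univ i)

theorem low_gen (σ : A) (b : B) (φ : (X → G) →₀ ℝ) :
    N (tr (c.gW σ b) φ - φ) ≤ (Fintype.card B : ℝ) * c.EW φ := by
  have hB : (0 : ℝ) < Fintype.card B := by exact_mod_cast Fintype.card_pos
  have h1 : N (tr (c.gW σ b) φ - φ) ≤ ∑ b : B, N (tr (c.gW σ b) φ - φ) :=
    low_single (fun b => N (tr (c.gW σ b) φ - φ)) (fun b => N_nonneg _) b
  have h2 : (∑ b : B, N (tr (c.gW σ b) φ - φ)) / (Fintype.card B : ℝ) ≤ c.EW φ := by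
    unfold EW
    exact low_single
      (fun σ : A => (∑ b : B, N (tr (c.gW σ b) φ - φ)) / (Fintype.card B : ℝ))
      (fun σ => div_nonneg (Finset.sum_nonneg fun b _ => N_nonneg _) hB.le) σ
  rw [div_le_iff₀ hB] at h2
  linarith

theorem low_all (hcl : Subgroup.closure (Set.range fun p : A × B => c.gW p.1 p.2) = ⊤)
    (w : X → G) : ∃ C : ℝ, 0 ≤ C ∧ ∀ φ : (X → G) →₀ ℝ,
      √(N (tr w φ - φ)) ≤ C * √(c.EW φ) := by
  have hw : w ∈ Subgroup.closure (Set.range fun p : A × B => c.gW p.1 p.2) := by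
    rw [hcl]; exact Subgroup.mem_top w
  induction hw using Subgroup.closure_induction with
  | mem x hx =>
    obtain ⟨p, rfl⟩ := hx
    refine ⟨√(Fintype.card B : ℝ), Real.sqrt_nonneg _, fun φ => ?_⟩
    rw [← Real.sqrt_mul (Nat.cast_nonneg _)]
    exact Real.sqrt_le_sqrt (low_gen c p.1 p.2 φ)
  | one =>
    refine ⟨0, le_refl _, fun φ => ?_⟩
    have h0 : N (0 : (X → G) →₀ ℝ) = 0 := by
      unfold N ip
      exact Finsupp.sum_zero_index
    rw [tr_one, sub_self, h0, Real.sqrt_zero, zero_mul]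
  | mul x y _ _ ihx ihy =>
    obtain ⟨C1, h1, h1'⟩ := ihx
    obtain ⟨C2, h2, h2'⟩ := ihy
    refine ⟨C1 + C2, add_nonneg h1 h2, fun φ => ?_⟩
    have e : tr (x * y) φ - φ = tr x (tr y φ - φ) + (tr x φ - φ) := by
      rw [tr_mul, tr_sub]
      abel
    rw [e]
    refine (sqrt_N_add _ _).trans ?_
    rw [N_tr, add_mul]
    linarith [h1' φ, h2' φ]
  | inv x _ ih =>
    obtain ⟨C1, h1, h1'⟩ := ih
    refine ⟨C1, h1, fun φ => ?_⟩
    have e : tr x⁻¹ φ - φ = tr x⁻¹ (-(tr x φ - φ)) := by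
      rw [neg_sub, tr_sub, ← tr_mul, inv_mul_cancel, tr_one]
    rw [e, N_tr, N_neg]
    exact h1' φ

theorem low_S_inv (s : G) (hs : s ∈ c.S) : s⁻¹ ∈ c.S := by
  rcases hs with ⟨a, rfl⟩ | ⟨a, rfl⟩
  · exact Or.inl ⟨a⁻¹, map_inv _ _⟩
  · exact Or.inr ⟨a⁻¹, map_inv _ _⟩

theorem low_ball_inv (R : ℕ) (g : G) (hg : g ∈ c.ball R) : g⁻¹ ∈ c.ball R := by
  obtain ⟨l, hl, hs, rfl⟩ := hg
  refine ⟨(l.map (fun x => x⁻¹)).reverse, by simpa using hl, ?_, (List.prod_inv_reverse l).symm⟩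
  intro s hs'
  rw [List.mem_reverse, List.mem_map] at hs'
  obtain ⟨a, ha, rfl⟩ := hs'
  exact low_S_inv c a (hs a ha)

theorem low_ball_mul (R R' : ℕ) (g g' : G) (hg : g ∈ c.ball R) (hg' : g' ∈ c.ball R') :
    g * g' ∈ c.ball (R + R') := by
  obtain ⟨l, hl, hs, rfl⟩ := hg
  obtain ⟨l', hl', hs', rfl⟩ := hg'
  refine ⟨l ++ l', by rw [List.length_append]; omega, ?_, List.prod_append⟩
  intro s hs''
  rcases List.mem_append.1 hs'' with h | h
  · exact hs s h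
  · exact hs' s h

theorem low_list (g : G) : ∃ R, g ∈ c.ball R := by
  have hg : g ∈ Subgroup.closure (Set.range c.iA ∪ Set.range c.iB) := by
    rw [c.gen]; exact Subgroup.mem_top g
  induction hg using Subgroup.closure_induction with
  | mem x hx => exact ⟨1, [x], le_refl _, by intro s hs; rw [List.mem_singleton] at hs; rw [hs]; exact hx, List.prod_singleton⟩
  | one => exact ⟨0, [], le_refl _, by intro s hs; simp at hs, List.prod_nil⟩
  | mul x y _ _ ihx ihy =>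
    obtain ⟨R, hR⟩ := ihx
    obtain ⟨R', hR'⟩ := ihy
    exact ⟨R + R', low_ball_mul c R R' x y hR hR'⟩
  | inv x _ ih =>
    obtain ⟨R, hR⟩ := ih
    exact ⟨R, low_ball_inv c R x hR⟩

theorem low_exists (hinf : Infinite G) (hfin : ∀ R, (c.ball R).Finite) (n : ℕ) :
    ∃ g ∈ c.ball (n + 1), g ∉ c.ball n := by
  by_contra hcon
  push Not at hcon
  have h1 : ∀ l : List G, (∀ s ∈ l, s ∈ c.S) → l.prod ∈ c.ball n := by
    intro l
    induction l with
    | nil => intro _; exact ⟨[], Nat.zero_le _, by intro s hs; simp at hs, rfl⟩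
    | cons s l ih =>
      intro hs
      obtain ⟨l', hl', hs', he⟩ := ih (fun s' hs' => hs s' (List.mem_cons_of_mem _ hs'))
      apply hcon
      refine ⟨s :: l', by rw [List.length_cons]; omega, ?_, ?_⟩
      · intro s' hs''
        rcases List.mem_cons.1 hs'' with h | h
        · rw [h]; exact hs s List.mem_cons_self
        · exact hs' s' h
      · rw [List.prod_cons, List.prod_cons, he]
  have h2 : (Set.univ : Set G) ⊆ c.ball n := by
    intro g _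
    obtain ⟨R, l, _, hs, rfl⟩ := low_list c g
    exact h1 l hs
  exact Set.infinite_univ ((hfin n).subset h2)

theorem low_word (x₀ : X) (C : ℝ) (hC : ∀ s ∈ c.S, ∀ φ : (X → G) →₀ ℝ,
      √(N (tr (Pi.mulSingle x₀ s) φ - φ)) ≤ C * √(c.EW φ)) (l : List G) (hl : ∀ s ∈ l, s ∈ c.S)
    (φ : (X → G) →₀ ℝ) :
    √(N (tr (Pi.mulSingle x₀ l.prod) φ - φ)) ≤ (l.length : ℝ) * (C * √(c.EW φ)) := by
  induction l with
  | nil =>
    have h0 : N (0 : (X → G) →₀ ℝ) = 0 := by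
      unfold N ip
      exact Finsupp.sum_zero_index
    rw [List.prod_nil, Pi.mulSingle_one, tr_one, sub_self, h0, Real.sqrt_zero]
    simp
  | cons s l ih =>
    have h1 := ih (fun s' hs' => hl s' (List.mem_cons_of_mem _ hs'))
    have h2 := hC s (hl s List.mem_cons_self) φ
    have e : tr (Pi.mulSingle x₀ (s :: l).prod) φ - φ =
        tr (Pi.mulSingle x₀ s) (tr (Pi.mulSingle x₀ l.prod) φ - φ) +
          (tr (Pi.mulSingle x₀ s) φ - φ) := by
      rw [List.prod_cons, Pi.mulSingle_mul, tr_mul, tr_sub]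
      abel
    rw [e]
    refine (sqrt_N_add _ _).trans ?_
    rw [N_tr, List.length_cons]
    push_cast
    rw [add_mul, one_mul]
    linarith

theorem low_two (x₀ : X) (R : ℕ) (φ : (X → G) →₀ ℝ)
    (hφ : ∀ w, φ w ≠ 0 → ∀ x, w x ∈ c.ball R) (g : G) (hg : g ∉ c.ball (2 * R)) :
    N (tr (Pi.mulSingle x₀ g) φ - φ) = 2 * N φ := by
  have h1 : ip (tr (Pi.mulSingle x₀ g) φ) φ = 0 := by
    rw [ip_eq_sum _ _ (tr (Pi.mulSingle x₀ g) φ).support (Finset.Subset.refl _)]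
    refine Finset.sum_eq_zero fun w _ => ?_
    by_contra hne
    have h2 := left_ne_zero_of_mul hne
    have h3 := right_ne_zero_of_mul hne
    rw [tr_apply] at h2
    have h4 := hφ _ h2 x₀
    have h5 := hφ _ h3 x₀
    have e : ((Pi.mulSingle x₀ g : X → G)⁻¹ * w) x₀ = g⁻¹ * w x₀ := by
      rw [Pi.mul_apply, Pi.inv_apply, Pi.mulSingle_eq_same]
    rw [e] at h4
    have h6 := low_ball_mul c R R _ _ h5 (low_ball_inv c R _ h4)
    rw [mul_inv_rev, inv_inv, mul_inv_cancel_left, ← two_mul] at h6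
    exact hg h6
  rw [N_sub, N_tr, h1]
  ring

/-- polynomial lower bound of the Dirichlet energy on `G^X` -/
theorem low (hinf : Infinite G) (hfin : ∀ R, (c.ball R).Finite)
    (hcl : Subgroup.closure (Set.range fun p : A × B => c.gW p.1 p.2) = ⊤) :
    ∃ κ : ℝ, 0 < κ ∧ ∀ (R : ℕ) (φ : (X → G) →₀ ℝ), (∀ w, φ w ≠ 0 → ∀ x, w x ∈ c.ball R) →
      κ / ((R : ℝ) + 1) ^ 2 * N φ ≤ c.EW φ := by
  classical
  obtain ⟨Cw, hCw⟩ : ∃ Cw : (X → G) → ℝ, ∀ w, 0 ≤ Cw w ∧ ∀ φ : (X → G) →₀ ℝ,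
      √(N (tr w φ - φ)) ≤ Cw w * √(c.EW φ) := by
    choose Cw h using low_all c hcl
    exact ⟨Cw, h⟩
  let x₀ : X := (0, 0)
  have hSfin : (c.S).Finite := (hfin 1).subset fun s hs =>
    ⟨[s], le_refl _, by intro s' hs'; rw [List.mem_singleton] at hs'; rw [hs']; exact hs,
      List.prod_singleton⟩
  obtain ⟨C, hC⟩ : ∃ C : ℝ, ∀ s ∈ c.S, Cw (Pi.mulSingle x₀ s) ≤ C := by
    obtain ⟨C, hC⟩ := (hSfin.image (fun s => Cw (Pi.mulSingle x₀ s))).bddAbove
    exact ⟨C, fun s hs => hC ⟨s, hs, rfl⟩⟩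
  have hCS : ∀ s ∈ c.S, ∀ φ : (X → G) →₀ ℝ,
      √(N (tr (Pi.mulSingle x₀ s) φ - φ)) ≤ C * √(c.EW φ) := fun s hs φ =>
    ((hCw _).2 φ).trans (mul_le_mul_of_nonneg_right (hC s hs) (Real.sqrt_nonneg _))
  refine ⟨1 / (2 * (C ^ 2 + 1)), by positivity, fun R φ hφ => ?_⟩
  obtain ⟨g, hg, hg'⟩ := low_exists c hinf hfin (2 * R)
  obtain ⟨l, hl, hs, rfl⟩ := hg
  have h1 := low_word c x₀ C hCS l hs φ
  rw [low_two c x₀ R φ hφ _ hg'] at h1
  have hE := low_EW_nonneg c φ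
  have h2 : 2 * N φ ≤ ((l.length : ℝ) * (C * √(c.EW φ))) ^ 2 := by
    have h3 : 0 ≤ 2 * N φ := mul_nonneg zero_le_two (N_nonneg φ)
    calc 2 * N φ = (√(2 * N φ)) ^ 2 := (Real.sq_sqrt h3).symm
      _ ≤ _ := pow_le_pow_left₀ (Real.sqrt_nonneg _) h1 2
  rw [mul_pow, mul_pow, Real.sq_sqrt hE] at h2
  have hl2 : (l.length : ℝ) ≤ 2 * ((R : ℝ) + 1) := by
    have : (l.length : ℝ) ≤ ((2 * R + 1 : ℕ) : ℝ) := by exact_mod_cast hl
    push_cast at this
    linarith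
  have hl3 : (l.length : ℝ) ^ 2 ≤ 4 * ((R : ℝ) + 1) ^ 2 := by
    have := pow_le_pow_left₀ (Nat.cast_nonneg _) hl2 2
    nlinarith
  have hRpos : (0 : ℝ) < ((R : ℝ) + 1) ^ 2 := by positivity
  have h4 : 2 * N φ ≤ 4 * ((R : ℝ) + 1) ^ 2 * ((C ^ 2 + 1) * c.EW φ) := by
    refine h2.trans (mul_le_mul hl3 ?_ (mul_nonneg (sq_nonneg _) hE) (by positivity))
    nlinarith
  have h5 : N φ ≤ (2 * (C ^ 2 + 1)) * (((R : ℝ) + 1) ^ 2 * c.EW φ) := by nlinarith
  rw [div_div, div_mul_eq_mul_div, one_mul, div_le_iff₀ (by positivity)]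
  calc N φ ≤ (2 * (C ^ 2 + 1)) * (((R : ℝ) + 1) ^ 2 * c.EW φ) := h5
    _ = c.EW φ * (2 * (C ^ 2 + 1) * ((R : ℝ) + 1) ^ 2) := by ring

end Core
end Pool.Agent.Helper889.Na
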