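import Mathlib
import Pool.Agent.Helper889.Na.Defs

set_option autoImplicit false
set_option linter.unusedSectionVars false
set_option linter.unusedVariables false


namespace Pool.Agent.Helper889.Na
namespace Core
variable {G : Type} [Group G] (c : Core G)

theorem infinite_aux_nontrivial : Nontrivial A :=
  alternatingGroup.nontrivial_of_three_le_card (by simp)

theorem infinite_aux_noncomm : ¬ ∀ a b : A, a * b = b * a := by
  intro h
  have h1 := h ⟨Equiv.swap 0 1 * Equiv.swap 1 2, Equiv.Perm.mem_alternatingGroup.mpr (by decide)⟩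
    ⟨Equiv.swap 0 1 * Equiv.swap 1 3, Equiv.Perm.mem_alternatingGroup.mpr (by decide)⟩
  have h2 := congrArg Subtype.val h1
  revert h2
  decide

theorem perfect_aux {V : Type*} [AddCommGroup V] (f : A → V)
    (hf : ∀ g h, f (g * h) = f g + f h) (a : A) : f a = 0 := by
  let φ : A →* Multiplicative V := MonoidHom.mk' (fun a => Multiplicative.ofAdd (f a)) (by
    intro a b
    rw [hf, ofAdd_add])
  have hs : IsSimpleGroup A := alternatingGroup.isSimpleGroup_five
  rcases hs.eq_bot_or_eq_top_of_normal φ.ker inferInstance with h | h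
  · exfalso
    have hinj : Function.Injective φ := (MonoidHom.ker_eq_bot_iff φ).mp h
    apply infinite_aux_noncomm
    intro a b
    apply hinj
    rw [map_mul, map_mul, mul_comm]
  · have h1 : a ∈ φ.ker := by rw [h]; exact Subgroup.mem_top a
    have h2 : φ a = 1 := h1
    exact h2

include c in
theorem infinite : Infinite G := by
  by_contra hinf
  rw [not_infinite_iff_finite] at hinf
  have hnt : Nontrivial A := infinite_aux_nontrivial
  obtain ⟨σ, hσ⟩ := exists_ne (1 : A)
  have hG : Nontrivial G := by
    refine ⟨c.iA σ, 1, ?_⟩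
    intro h
    apply hσ
    apply c.dec_inj σ 1
    rw [map_one, mul_one, h]
  have h1 : Nat.card (X → G) ≤ Nat.card G := Nat.card_le_card_of_injective _ c.P_inj
  rw [Nat.card_fun] at h1
  have h2 : 1 < Nat.card G := Finite.one_lt_card
  have h3 : Nat.card X = 15 := by simp [X, I, Y]
  rw [h3] at h1
  have h4 : Nat.card G < Nat.card G ^ 15 := by
    calc Nat.card G = Nat.card G ^ 1 := (pow_one _).symm
      _ < Nat.card G ^ 15 := Nat.pow_lt_pow_right h2 (by norm_num)
  omega

include c in
/-- every homomorphism to an abelian group is trivial -/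
theorem perfect {V : Type*} [AddCommGroup V] (f : G → V) (hf : ∀ g h, f (g * h) = f g + f h) (g : G) : f g = 0 := by
  have h1 : f 1 = 0 := by
    have := hf 1 1
    rw [mul_one] at this
    exact left_eq_add.mp this
  have hA : ∀ a : A, f (c.iA a) = 0 := by
    apply perfect_aux (fun a => f (c.iA a))
    intro a b
    simp only [map_mul, hf]
  have hB1 : ∀ (i : I) (a : A), f (c.iB (Pi.mulSingle i a)) = 0 := by
    intro i
    apply perfect_aux (fun a => f (c.iB (Pi.mulSingle i a)))
    intro a b
    simp only [Pi.mulSingle_mul, map_mul, hf]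
  have hB : ∀ b : B, f (c.iB b) = 0 := by
    intro b
    have hb : b = Pi.mulSingle 0 (b 0) * Pi.mulSingle 1 (b 1) * Pi.mulSingle 2 (b 2) := by
      funext i
      fin_cases i <;> simp [Pi.mulSingle_apply]
    rw [hb, map_mul, map_mul, hf, hf, hB1, hB1, hB1]
    simp
  have hinv : ∀ g : G, f g⁻¹ = - f g := by
    intro g
    have := hf g g⁻¹
    rw [mul_inv_cancel, h1] at this
    exact (neg_eq_of_add_eq_zero_right this.symm).symm
  have hg : g ∈ Subgroup.closure (Set.range c.iA ∪ Set.range c.iB) := by
    rw [c.gen]; exact Subgroup.mem_top g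
  induction hg using Subgroup.closure_induction with
  | mem x hx =>
    rcases hx with ⟨a, rfl⟩ | ⟨b, rfl⟩
    · exact hA a
    · exact hB b
  | one => exact h1
  | mul x y _ _ hx hy => rw [hf, hx, hy, add_zero]
  | inv x _ hx => rw [hinv, hx, neg_zero]


end Core
end Pool.Agent.Helper889.Na
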