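import Mathlib
import Pool.Agent.Helper889.Na.Defs
import Pool.Agent.Helper889.Na.Split

set_option autoImplicit false
set_option linter.unusedSectionVars false
set_option linter.unusedVariables false

namespace Pool.Agent.Helper889.Na

open scoped InnerProductSpace

section
variable {G : Type} [Group G]

/-- the elements trivial at `x` -/
def offx (x : X) : Subgroup (X → G) where
  carrier := {w | w x = 1}
  one_mem' := rfl
  mul_mem' := by
    intro a b ha hb
    change a x * b x = 1
    rw [show a x = 1 from ha, show b x = 1 from hb, one_mul]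
  inv_mem' := by
    intro a ha
    change (a x)⁻¹ = 1
    rw [show a x = 1 from ha, inv_one]

theorem mem_offx {x : X} {w : X → G} : w ∈ offx x ↔ w x = 1 := Iff.rfl

/-- a subgroup containing the single elements off `x` contains everything off `x` -/
theorem offx_le {x : X} (K : Subgroup (X → G)) (h : ∀ y, y ≠ x → ∀ g, Pi.mulSingle y g ∈ K) : offx x ≤ K := by
  intro w hw
  apply Subgroup.pi_mem_of_mulSingle_mem
  intro y
  by_cases hy : y = x
  · subst hy
    rw [mem_offx.mp hw, Pi.mulSingle_one]
    exact K.one_mem
  · exact h y hy _

end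

theorem split_sum {G : Type} [Group G] (S : Finset G) (hS : Subgroup.closure (S : Set G) = ⊤) (hSinv : ∀ s ∈ S, s⁻¹ ∈ S)
    {H : Type} [NormedAddCommGroup H] [InnerProductSpace ℝ H] [CompleteSpace H]
    (hperf : ∀ f : G → H, (∀ g h, f (g * h) = f g + f h) → ∀ g, f g = 0)
    (U : (X → G) →* (H ≃ₗᵢ[ℝ] H)) (b : (X → G) → H) (hb : ∀ w v, b (w * v) = b w + U w (b v))
    {κ : Type} [Fintype κ] (g : κ → (X → G)) (hgen : Subgroup.closure (Set.range g) = ⊤)
    (hharm : ∀ c : H, ∑ k, ⟪b (g k), U (g k) c - c⟫_ℝ = 0) (w : X → G) :
    ‖b w‖ ^ 2 = ∑ x, ‖b (Pi.mulSingle x (w x))‖ ^ 2 := by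
  classical
  -- closure of single elements
  have hcl : ∀ (x : X) (K : Subgroup (X → G)), (∀ s ∈ S, Pi.mulSingle x s ∈ K) → ∀ g : G, Pi.mulSingle x g ∈ K := by
    intro x K h g
    have h1 : Subgroup.closure (S : Set G) ≤ K.comap (MonoidHom.mulSingle (fun _ : X => G) x) := by
      rw [Subgroup.closure_le]
      intro s hs
      exact h s hs
    rw [hS] at h1
    exact h1 (Subgroup.mem_top g)
  have key : ∀ (x : X) (g : G) (a' : X → G), a' x = 1 →
      U (Pi.mulSingle x g) (b a') = b a' ∧ ⟪b (Pi.mulSingle x g), b a'⟫_ℝ = 0 := by
    intro x g₀ a' ha'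
    have := split_harmonic U b hb g hgen hharm (MonoidHom.mulSingle (fun _ : X => G) x).range (offx x)
      (by
        rintro _ ⟨a, rfl⟩ a' ha'
        funext y
        by_cases hy : y = x
        · subst hy
          simp [mem_offx.mp ha']
        · simp [Pi.mulSingle_eq_of_ne hy])
      (by
        intro w
        refine ⟨Pi.mulSingle x (w x), ⟨w x, rfl⟩, Function.update w x 1, by simp [mem_offx], ?_⟩
        funext y
        by_cases hy : y = x
        · subst hy
          simp
        · simp [Pi.mulSingle_eq_of_ne hy, hy])
      (S.image fun s => Pi.mulSingle x s)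
      ((Finset.univ.filter fun y => y ≠ x).biUnion fun y => S.image fun s => Pi.mulSingle y s)
      (by
        apply le_antisymm
        · rw [Subgroup.closure_le]
          intro s hs
          rw [Finset.coe_image] at hs
          obtain ⟨s, hs, rfl⟩ := hs
          exact ⟨s, rfl⟩
        · rintro _ ⟨a, rfl⟩
          refine hcl x _ (fun s hs => Subgroup.subset_closure ?_) a
          rw [Finset.coe_image]
          exact ⟨s, hs, rfl⟩)
      (by
        apply le_antisymm
        · rw [Subgroup.closure_le]
          intro s hs
          simp only [Finset.coe_biUnion, Set.mem_iUnion, Finset.coe_image] at hs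
          obtain ⟨y, hy, s, hs, rfl⟩ := hs
          have hy' : y ≠ x := by simpa using hy
          exact Pi.mulSingle_eq_of_ne (Ne.symm hy') _
        · apply offx_le
          intro y hy g
          refine hcl y _ (fun s hs => Subgroup.subset_closure ?_) g
          simp only [Finset.coe_biUnion, Set.mem_iUnion, Finset.coe_image]
          exact ⟨y, by simpa using hy, s, hs, rfl⟩)
      (by
        intro s hs
        rw [Finset.mem_image] at hs ⊢
        obtain ⟨s, hs, rfl⟩ := hs
        exact ⟨s⁻¹, hSinv s hs, (Pi.mulSingle_inv (f := fun _ : X => G) x s)⟩)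
      (by
        intro s hs
        simp only [Finset.mem_biUnion, Finset.mem_image] at hs ⊢
        obtain ⟨y, hy, s, hs, rfl⟩ := hs
        exact ⟨y, hy, s⁻¹, hSinv s hs, (Pi.mulSingle_inv (f := fun _ : X => G) y s)⟩)
      (by
        rintro f hf _ ⟨a, rfl⟩
        refine hperf (fun g => f (Pi.mulSingle x g)) (fun g h => ?_) a
        change f (Pi.mulSingle x (g * h)) = _
        rw [Pi.mulSingle_mul]
        exact hf _ ⟨g, rfl⟩ _ ⟨h, rfl⟩)
      (by
        intro f hf
        have hf1 : f 1 = 0 := by
          have := hf 1 (offx x).one_mem 1 (offx x).one_mem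
          rw [mul_one] at this
          exact left_eq_add.mp this
        let K : Subgroup (X → G) :=
          { carrier := {a | a ∈ (offx x : Subgroup (X → G)) ∧ f a = 0}
            one_mem' := ⟨(offx x).one_mem, hf1⟩
            mul_mem' := by
              rintro a b ⟨ha, ha'⟩ ⟨hb, hb'⟩
              exact ⟨(offx x).mul_mem ha hb, by rw [hf a ha b hb, ha', hb', add_zero]⟩
            inv_mem' := by
              rintro a ⟨ha, ha'⟩
              refine ⟨(offx x).inv_mem ha, ?_⟩
              have := hf a ha a⁻¹ ((offx x).inv_mem ha)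
              rw [mul_inv_cancel, hf1, ha', zero_add] at this
              exact this.symm }
        have hK : (offx x : Subgroup (X → G)) ≤ K := by
          apply offx_le
          intro y hy g
          have hmem : ∀ g : G, (Pi.mulSingle y g : X → G) ∈ (offx x : Subgroup (X → G)) := fun g =>
            Pi.mulSingle_eq_of_ne (Ne.symm hy) _
          refine ⟨hmem g, ?_⟩
          refine hperf (fun g => f (Pi.mulSingle y g)) (fun g h => ?_) g
          change f (Pi.mulSingle y (g * h)) = _
          rw [Pi.mulSingle_mul]
          exact hf _ (hmem g) _ (hmem h)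
        intro a ha
        exact (hK ha).2)
      (a := Pi.mulSingle x g₀) (a' := a') ⟨g₀, rfl⟩ ha'
    exact ⟨this.2.1, this.2.2⟩
  have hb1 : b 1 = 0 := by
    have := hb 1 1
    rw [mul_one, map_one] at this
    have h2 : b 1 = b 1 + b 1 := this
    exact left_eq_add.mp h2
  -- induction
  have hind : ∀ (T : Finset X) (w : X → G), (∀ y, y ∉ T → w y = 1) →
      ‖b w‖ ^ 2 = ∑ x ∈ T, ‖b (Pi.mulSingle x (w x))‖ ^ 2 := by
    intro T
    induction T using Finset.induction_on with
    | empty =>
      intro w hw
      have : w = 1 := funext fun y => hw y (Finset.notMem_empty y)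
      rw [this, hb1]
      simp
    | insert x T hx ih =>
      intro w hw
      have h1 : w = Pi.mulSingle x (w x) * Function.update w x 1 := by
        funext y
        by_cases hy : y = x
        · subst hy
          simp
        · simp [Pi.mulSingle_eq_of_ne hy, hy]
      obtain ⟨k1, k2⟩ := key x (w x) (Function.update w x 1) (by simp)
      have h2 : b w = b (Pi.mulSingle x (w x)) + b (Function.update w x 1) := by
        conv_lhs => rw [h1]
        rw [hb, k1]
      have h3 : ‖b w‖ ^ 2 = ‖b (Pi.mulSingle x (w x))‖ ^ 2 + ‖b (Function.update w x 1)‖ ^ 2 := by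
        rw [h2, @norm_add_sq_real, k2]
        ring
      rw [h3, Finset.sum_insert hx, ih (Function.update w x 1)]
      · congr 1
        refine Finset.sum_congr rfl fun y hy => ?_
        have hyx : y ≠ x := fun h => hx (h ▸ hy)
        rw [Function.update_of_ne hyx]
      · intro y hy
        by_cases hyx : y = x
        · subst hyx
          simp
        · rw [Function.update_of_ne hyx]
          apply hw
          rw [Finset.mem_insert]
          tauto
  exact hind Finset.univ w (fun y hy => absurd (Finset.mem_univ y) hy)

end Pool.Agent.Helper889.Na
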