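import Mathlib
import Pool.Agent.Helper889.Na.Card
import Pool.Agent.Helper889.Na.Perf
import Pool.Agent.Helper889.Na.Gen
import Pool.Agent.Helper889.Na.Ineq
import Pool.Agent.Helper889.Na.Low
import Pool.Agent.Helper889.Na.Mean
import Pool.Agent.Helper889.Na.Sel
import Pool.Agent.Helper889.Na.Slice
import Pool.Agent.Helper889.Na.Count
import Pool.Agent.Helper889.Na.Ultra
import Pool.Agent.Helper889.Na.SplitSum

set_option autoImplicit false
set_option linter.unusedSectionVars false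
set_option linter.unusedVariables false

open Filter Topology
open scoped InnerProductSpace

namespace Pool.Agent.Helper889.Na
namespace Core
variable {G : Type} [Group G] (c : Core G)

theorem EW_smul (a : ℝ) (φ : (X → G) →₀ ℝ) : c.EW (a • φ) = a ^ 2 * c.EW φ := by
  unfold EW
  rw [Finset.mul_sum]
  refine Finset.sum_congr rfl fun σ _ => ?_
  have h : ∑ b : B, N (tr (c.gW σ b) (a • φ) - a • φ) = a ^ 2 * ∑ b : B, N (tr (c.gW σ b) φ - φ) := by
    rw [Finset.mul_sum]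
    refine Finset.sum_congr rfl fun b _ => ?_
    rw [tr_smul, ← smul_sub, N_smul]
  rw [h, mul_div_assoc]

theorem EW_nonneg (φ : (X → G) →₀ ℝ) : 0 ≤ c.EW φ :=
  Finset.sum_nonneg fun σ _ => div_nonneg (Finset.sum_nonneg fun b _ => N_nonneg _) (Nat.cast_nonneg _)

theorem N_zero' {W : Type} [Group W] : N (0 : W →₀ ℝ) = 0 := by simp [N, ip]

theorem scale_up {R : ℕ} {e : ℝ}
    (h : ∀ u : (X → G) →₀ ℝ, N u = 1 → (∀ w, u w ≠ 0 → ∀ x, w x ∈ c.ball R) → e ≤ c.EW u)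
    (u : (X → G) →₀ ℝ) (hu : ∀ w, u w ≠ 0 → ∀ x, w x ∈ c.ball R) : e * N u ≤ c.EW u := by
  by_cases h0 : N u = 0
  · rw [h0, mul_zero]
    exact c.EW_nonneg u
  · have hpos : 0 < N u := lt_of_le_of_ne (N_nonneg u) (Ne.symm h0)
    have h1 := h ((√(N u))⁻¹ • u) (by
      rw [N_smul, inv_pow, Real.sq_sqrt hpos.le, inv_mul_cancel₀ h0]) (by
      intro w hw
      apply hu w
      intro h2
      apply hw
      rw [Finsupp.smul_apply, h2, smul_zero])
    rw [EW_smul, inv_pow, Real.sq_sqrt hpos.le] at h1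
    have h2 : e * N u ≤ ((N u)⁻¹ * c.EW u) * N u := mul_le_mul_of_nonneg_right h1 hpos.le
    have h3 : ((N u)⁻¹ * c.EW u) * N u = c.EW u := by field_simp
    linarith

theorem support_ball (ψ : G →₀ ℝ) : ∃ R, ∀ g, ψ g ≠ 0 → g ∈ c.ball R := by
  choose r hr using c.mem_ball
  refine ⟨ψ.support.sup r, fun g hg => ?_⟩
  exact c.ball_mono (Finset.le_sup (f := r) (Finsupp.mem_support_iff.mpr hg)) (hr g)

theorem ineqI' (R : ℕ) (ψ : G →₀ ℝ) (hψ : ∀ g, ψ g ≠ 0 → g ∈ c.ball R) :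
    ∃ φ : (X → G) →₀ ℝ, (∀ w, φ w ≠ 0 → ∀ x, w x ∈ c.ball R) ∧ c.EW φ ≤ 2 * c.ED ψ ∧
      N ψ - c.ED ψ / 2 ≤ (Fintype.card A : ℝ) * N φ :=
  c.ineqI c.P_of_rooted c.P_gW R (fun h x => c.section_ball h x) ψ hψ

/-- small energies on product balls -/
theorem small (m : Set G → ℝ) (hm0 : ∀ E, 0 ≤ m E) (hm1 : m Set.univ = 1)
    (hadd : ∀ E F, Disjoint E F → m (E ∪ F) = m E + m F) (hinv : ∀ (g : G) E, m ((fun x => g * x) '' E) = m E)
    (ε : ℝ) (hε : 0 < ε) :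
    ∃ R, ∃ v : (X → G) →₀ ℝ, (N v = 1 ∧ ∀ w, v w ≠ 0 → ∀ x, w x ∈ c.ball R) ∧ c.EW v ≤ ε := by
  have hA : (0:ℝ) < Fintype.card A := by exact_mod_cast Fintype.card_pos
  set ε' : ℝ := min 1 (ε / (4 * Fintype.card A)) with hε'
  have hε'0 : 0 < ε' := lt_min one_pos (by positivity)
  have hε'1 : ε' ≤ 1 := min_le_left _ _
  have hε'2 : ε' * (4 * Fintype.card A) ≤ ε := by
    have := min_le_right 1 (ε / (4 * (Fintype.card A : ℝ)))
    rw [← hε', le_div_iff₀ (by positivity)] at this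
    exact this
  obtain ⟨ψ, hψ0, hψ⟩ := c.small_of_mean m hm0 hm1 hadd hinv ε' hε'0
  obtain ⟨R, hR⟩ := c.support_ball ψ
  obtain ⟨φ, hφ, h1, h2⟩ := c.ineqI' R ψ hR
  have hNψ : 0 < N ψ := lt_of_le_of_ne (N_nonneg ψ) (fun h => hψ0 (N_eq_zero h.symm))
  have h3 : N ψ / 2 ≤ (Fintype.card A : ℝ) * N φ := by nlinarith
  have hNφ : 0 < N φ := by
    by_contra hcon
    have : (Fintype.card A : ℝ) * N φ ≤ 0 := mul_nonpos_of_nonneg_of_nonpos hA.le (not_lt.mp hcon)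
    linarith
  have h4 : c.EW φ ≤ ε * N φ := by
    have h5 : c.EW φ ≤ 2 * (ε' * N ψ) := by linarith
    have h6 : 2 * (ε' * N ψ) ≤ 4 * ε' * ((Fintype.card A : ℝ) * N φ) := by nlinarith
    have h7 : 4 * ε' * ((Fintype.card A : ℝ) * N φ) ≤ ε * N φ := by nlinarith
    linarith
  refine ⟨R, (√(N φ))⁻¹ • φ, ⟨?_, ?_⟩, ?_⟩
  · rw [N_smul, inv_pow, Real.sq_sqrt hNφ.le, inv_mul_cancel₀ hNφ.ne']
  · intro w hw
    apply hφ w
    intro h2
    apply hw
    rw [Finsupp.smul_apply, h2, smul_zero]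
  · rw [EW_smul, inv_pow, Real.sq_sqrt hNφ.le, inv_mul_le_iff₀ hNφ]
    linarith

theorem ED_lower {R : ℕ} {e : ℝ} (he : 0 < e)
    (h : ∀ u : (X → G) →₀ ℝ, N u = 1 → (∀ w, u w ≠ 0 → ∀ x, w x ∈ c.ball R) → e ≤ c.EW u)
    (ψ : G →₀ ℝ) (hψ : ∀ g, ψ g ≠ 0 → g ∈ c.ball R) :
    e / (2 * (Fintype.card A : ℝ) + e / 2) * N ψ ≤ c.ED ψ := by
  have hA : (0:ℝ) < Fintype.card A := by exact_mod_cast Fintype.card_pos
  obtain ⟨φ, hφ, h1, h2⟩ := c.ineqI' R ψ hψ
  have h3 := c.scale_up h φ hφ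
  rw [div_mul_eq_mul_div, div_le_iff₀ (by positivity)]
  nlinarith

include c in
/-- the generators as a finite set -/
theorem exists_gen_finset : ∃ S : Finset G, Subgroup.closure (S : Set G) = ⊤ ∧ ∀ s ∈ S, s⁻¹ ∈ S := by
  refine ⟨((Set.finite_range c.iA).union (Set.finite_range c.iB)).toFinset, ?_, ?_⟩
  · rw [Set.Finite.coe_toFinset]
    exact c.gen
  · intro s hs
    rw [Set.Finite.mem_toFinset] at hs ⊢
    rcases hs with ⟨a, rfl⟩ | ⟨a, rfl⟩
    · exact Or.inl ⟨a⁻¹, map_inv _ _⟩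
    · exact Or.inr ⟨a⁻¹, map_inv _ _⟩

include c in
theorem no_mean
    (m : Set G → ℝ) (hm0 : ∀ E, 0 ≤ m E) (hm1 : m Set.univ = 1)
    (hadd : ∀ E F, Disjoint E F → m (E ∪ F) = m E + m F) (hinv : ∀ (g : G) E, m ((fun x => g * x) '' E) = m E) :
    False := by
  have hA : (0:ℝ) < Fintype.card A := by exact_mod_cast Fintype.card_pos
  have hB : (0:ℝ) < Fintype.card B := by exact_mod_cast Fintype.card_pos
  obtain ⟨κ, hκ, hlow⟩ := c.low c.infinite c.ball_finite c.closure_gW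
  obtain ⟨R, v, ε, hε, hε0, hvF, hvE, hmin, hmin'⟩ := select
    (fun R => {v : (X → G) →₀ ℝ | N v = 1 ∧ ∀ w, v w ≠ 0 → ∀ x, w x ∈ c.ball R}) c.EW
    (fun R R' h v hv => ⟨hv.1, fun w hw x => c.ball_mono h (hv.2 w hw x)⟩)
    (fun R => ⟨Finsupp.single 1 1, by
      constructor
      · simp [N, ip]
      · intro w hw x
        classical
        have : w = 1 := by
          by_contra h
          exact hw (by rw [Finsupp.single_apply, if_neg (Ne.symm h)])
        rw [this]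
        exact c.one_mem_ball R⟩)
    c.EW_nonneg κ hκ
    (fun R v hv => by
      have := hlow R v hv.2
      rwa [hv.1, mul_one] at this)
    (c.small m hm0 hm1 hadd hinv)
  have hEW : ∀ u : (X → G) →₀ ℝ, (1 / (Fintype.card B : ℝ)) * ∑ p : A × B, N (tr (c.gW p.1 p.2) u - u) = c.EW u := by
    intro u
    rw [Fintype.sum_prod_type, EW, Finset.mul_sum]
    refine Finset.sum_congr rfl fun σ _ => ?_
    rw [one_div, inv_mul_eq_div]
  obtain ⟨H, i1, i2, i3, U, b, hb, hharm, hlim⟩ := harmonic_limit (W := X → G) (κ := A × B)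
    (fun p => c.gW p.1 p.2) c.closure_gW (1 / (Fintype.card B : ℝ)) (by positivity)
    (fun n => {w | ∀ x, w x ∈ c.ball n}) (fun m n h w hw x => c.ball_mono h (hw x))
    (by
      intro w
      choose r hr using fun x => c.mem_ball (w x)
      refine ⟨Finset.univ.sup r, fun n v hv x => ?_⟩
      have h1 := c.ball_mul (c.ball_mono (Finset.le_sup (f := r) (Finset.mem_univ x)) (hr x)) (hv x)
      rw [add_comm]
      exact h1)
    R v ε hε hε0 (fun k => (hvF k).2) (fun k => (hvF k).1)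
    (fun k => by rw [hEW]; exact hvE k)
    (fun k u hu => by
      rw [hEW]
      exact c.scale_up (fun u h1 h2 => hmin' k u ⟨h1, h2⟩) u hu)
  obtain ⟨S, hS, hSinv⟩ := c.exists_gen_finset
  have hsum := split_sum S hS hSinv (fun f hf => c.perfect f hf) U b hb (fun p : A × B => c.gW p.1 p.2) c.closure_gW hharm
  have hb1 : b 1 = 0 := by
    have := hb 1 1
    rw [mul_one, map_one] at this
    have h2 : b 1 = b 1 + b 1 := this
    exact left_eq_add.mp h2
  -- the total energy is at most one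
  have hk1 : Tendsto (fun k : ℕ => 1 / ((k:ℝ) + 1)) (hyperfilter ℕ : Filter ℕ) (𝓝 0) :=
    tendsto_one_div_add_atTop_nhds_zero_nat.mono_left Nat.hyperfilter_le_atTop
  have hε1 : Tendsto ε (hyperfilter ℕ : Filter ℕ) (𝓝 0) := hε0.mono_left Nat.hyperfilter_le_atTop
  have htot : (∑ σ : A, (∑ β : B, ‖b (c.gW σ β)‖ ^ 2) / (Fintype.card B : ℝ)) ≤ 1 := by
    have h1 : Tendsto (fun k => ∑ σ : A, (∑ β : B, N (tr (c.gW σ β) (v k) - v k) / ε k) / (Fintype.card B : ℝ))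
        (hyperfilter ℕ : Filter ℕ) (𝓝 (∑ σ : A, (∑ β : B, ‖b (c.gW σ β)‖ ^ 2) / (Fintype.card B : ℝ))) :=
      tendsto_finsetSum _ fun σ _ => (tendsto_finsetSum _ fun β _ => hlim _).div_const _
    have h2 : Tendsto (fun k : ℕ => 1 + 1 / ((k:ℝ) + 1)) (hyperfilter ℕ : Filter ℕ) (𝓝 (1 + 0)) :=
      tendsto_const_nhds.add hk1
    rw [add_zero] at h2
    refine le_of_tendsto_of_tendsto h1 h2 (Eventually.of_forall fun k => ?_)
    have h3 : (∑ σ : A, (∑ β : B, N (tr (c.gW σ β) (v k) - v k) / ε k) / (Fintype.card B : ℝ)) = c.EW (v k) / ε k := by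
      rw [EW, Finset.sum_div]
      refine Finset.sum_congr rfl fun σ _ => ?_
      rw [← Finset.sum_div, div_right_comm]
    change (∑ σ : A, (∑ β : B, N (tr (c.gW σ β) (v k) - v k) / ε k) / (Fintype.card B : ℝ)) ≤ _
    rw [h3, div_le_iff₀ (hε k)]
    exact hvE k
  -- the energy in each coordinate is at least `1 / (2 |A|)`
  have hcoord : ∀ x : X, 1 / (2 * (Fintype.card A : ℝ)) ≤
      (∑ σ : A, ‖b (Pi.mulSingle x (c.iA σ))‖ ^ 2) / (Fintype.card A : ℝ)
        + (∑ β : B, ‖b (Pi.mulSingle x (c.iB β))‖ ^ 2) / (Fintype.card B : ℝ) := by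
    intro x
    have h1 : Tendsto (fun k => (∑ σ : A, N (tr (Pi.mulSingle x (c.iA σ)) (v k) - v k) / ε k) / (Fintype.card A : ℝ)
        + (∑ β : B, N (tr (Pi.mulSingle x (c.iB β)) (v k) - v k) / ε k) / (Fintype.card B : ℝ))
        (hyperfilter ℕ : Filter ℕ) (𝓝 ((∑ σ : A, ‖b (Pi.mulSingle x (c.iA σ))‖ ^ 2) / (Fintype.card A : ℝ)
        + (∑ β : B, ‖b (Pi.mulSingle x (c.iB β))‖ ^ 2) / (Fintype.card B : ℝ))) :=
      ((tendsto_finsetSum _ fun σ _ => hlim _).div_const _).add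
        ((tendsto_finsetSum _ fun β _ => hlim _).div_const _)
    have h2 : Tendsto (fun k : ℕ => 1 / (2 * (Fintype.card A : ℝ) + ε k / 2)) (hyperfilter ℕ : Filter ℕ)
        (𝓝 (1 / (2 * (Fintype.card A : ℝ) + 0 / 2))) := by
      refine Tendsto.div tendsto_const_nhds (tendsto_const_nhds.add (hε1.div_const 2)) ?_
      rw [zero_div, add_zero]
      positivity
    rw [zero_div, add_zero] at h2
    refine le_of_tendsto_of_tendsto h2 h1 (Eventually.of_forall fun k => ?_)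
    have h3 : (∑ σ : A, N (tr (Pi.mulSingle x (c.iA σ)) (v k) - v k) / ε k) / (Fintype.card A : ℝ)
        + (∑ β : B, N (tr (Pi.mulSingle x (c.iB β)) (v k) - v k) / ε k) / (Fintype.card B : ℝ) =
        c.EX x (v k) / ε k := by
      rw [EX, add_div, ← Finset.sum_div, ← Finset.sum_div, div_right_comm, div_right_comm _ (ε k)]
    change 1 / (2 * (Fintype.card A : ℝ) + ε k / 2) ≤ (∑ σ : A, N (tr (Pi.mulSingle x (c.iA σ)) (v k) - v k) / ε k) / (Fintype.card A : ℝ)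
        + (∑ β : B, N (tr (Pi.mulSingle x (c.iB β)) (v k) - v k) / ε k) / (Fintype.card B : ℝ)
    rw [h3, le_div_iff₀ (hε k)]
    have h4 := c.slice x (R k) (ε k / (2 * (Fintype.card A : ℝ) + ε k / 2))
      (c.ED_lower (hε k) fun u h1 h2 => hmin k u ⟨h1, h2⟩) (v k) (hvF k).2
    rw [(hvF k).1, mul_one] at h4
    calc 1 / (2 * (Fintype.card A : ℝ) + ε k / 2) * ε k = ε k / (2 * (Fintype.card A : ℝ) + ε k / 2) := by ring
      _ ≤ _ := h4
  have hcount := c.count (fun x g => ‖b (Pi.mulSingle x g)‖ ^ 2) (fun x => by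
    rw [Pi.mulSingle_one, hb1, norm_zero]; norm_num)
  have h1 : (∑ σ : A, (∑ β : B, ∑ x, ‖b (Pi.mulSingle x (c.gW σ β x))‖ ^ 2) / (Fintype.card B : ℝ)) ≤ 1 := by
    refine le_of_eq_of_le ?_ htot
    refine Finset.sum_congr rfl fun σ _ => ?_
    exact congrArg (· / (Fintype.card B : ℝ)) (Finset.sum_congr rfl fun β _ => (hsum _).symm)
  rw [hcount] at h1
  have h2 : ∑ x : X, (1 / (2 * (Fintype.card A : ℝ))) ≤ ∑ x : X,
      ((∑ σ : A, ‖b (Pi.mulSingle x (c.iA σ))‖ ^ 2) / (Fintype.card A : ℝ)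
        + (∑ β : B, ‖b (Pi.mulSingle x (c.iB β))‖ ^ 2) / (Fintype.card B : ℝ)) :=
    Finset.sum_le_sum fun x _ => hcoord x
  rw [Finset.sum_const, Finset.card_univ] at h2
  have h3 : Fintype.card X = 15 := by simp [X, I, Y]
  rw [h3, nsmul_eq_mul] at h2
  have h4 : (Fintype.card A : ℝ) / 5 * (((15 : ℕ) : ℝ) * (1 / (2 * (Fintype.card A : ℝ)))) ≤ 1 :=
    (mul_le_mul_of_nonneg_left h2 (by positivity)).trans h1
  have h5 : (Fintype.card A : ℝ) / 5 * (((15 : ℕ) : ℝ) * (1 / (2 * (Fintype.card A : ℝ)))) = 3 / 2 := by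
    have := hA.ne'
    push_cast
    field_simp
    norm_num
  rw [h5] at h4
  norm_num at h4

end Core
end Pool.Agent.Helper889.Na
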