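import Mathlib
import Pool.Agent.Helper889.Na.Defs

set_option autoImplicit false
set_option linter.unusedSectionVars false
set_option linter.unusedVariables false


namespace Pool.Agent.Helper889.Na

def rtF (s : Equiv.Perm Y) : List X → List X
  | [] => []
  | x :: w => (x.1, s x.2) :: w

def drF (b : B) : List X → List X
  | [] => []
  | x :: w => if x.2 = 0 then x :: drF b w else if x.2 = 1 then x :: rtF (b x.1).1 w else x :: w

def PF (u : X → Equiv.Perm (List X)) : List X → List X
  | [] => []
  | x :: w => x :: u x w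

theorem rtF_rtF (s t : Equiv.Perm Y) (w : List X) : rtF s (rtF t w) = rtF (s * t) w := by
  cases w <;> rfl

theorem rtF_one (w : List X) : rtF 1 w = w := by cases w <;> rfl

theorem drF_drF (b b' : B) (w : List X) : drF b (drF b' w) = drF (b * b') w := by
  induction w with
  | nil => rfl
  | cons x w ih =>
    simp only [drF]
    split_ifs with h0 h1
    · simp [drF, h0, ih]
    · simp [drF, h0, h1, rtF_rtF]
    · simp [drF, h0, h1]

theorem drF_one (w : List X) : drF 1 w = w := by
  induction w with
  | nil => rfl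
  | cons x w ih =>
    simp only [drF, ih]
    split_ifs <;> first | rfl | (simp [rtF_one])

/-- rooted permutation -/
def rt : A →* Equiv.Perm (List X) where
  toFun s := ⟨rtF s.1, rtF (s⁻¹ : A).1, fun w => by rw [rtF_rtF]; simp [rtF_one], fun w => by rw [rtF_rtF]; simp [rtF_one]⟩
  map_one' := by ext1 w; exact rtF_one w
  map_mul' s t := by ext1 w; exact (rtF_rtF s.1 t.1 w).symm

/-- directed permutation -/
def dr : B →* Equiv.Perm (List X) where
  toFun b := ⟨drF b, drF b⁻¹, fun w => by rw [drF_drF]; simp [drF_one], fun w => by rw [drF_drF]; simp [drF_one]⟩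
  map_one' := by ext1 w; exact drF_one w
  map_mul' s t := by ext1 w; exact (drF_drF s t w).symm

/-- direct power acting below the first level -/
def PP : (X → Equiv.Perm (List X)) →* Equiv.Perm (List X) where
  toFun u := ⟨PF u, PF u⁻¹, fun w => by cases w <;> simp [PF], fun w => by cases w <;> simp [PF]⟩
  map_one' := by ext1 w; cases w <;> rfl
  map_mul' s t := by ext1 w; cases w <;> rfl

/-- the group -/
def GG : Subgroup (Equiv.Perm (List X)) := Subgroup.closure (Set.range rt ∪ Set.range dr)

theorem rt_mem (s : A) : rt s ∈ GG := Subgroup.subset_closure (Or.inl ⟨s, rfl⟩)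
theorem dr_mem (b : B) : dr b ∈ GG := Subgroup.subset_closure (Or.inr ⟨b, rfl⟩)

theorem core_exists_mem
    (PP_single_mem : ∀ (x : X) (g : Equiv.Perm (List X)), g ∈ GG → PP (Pi.mulSingle x g) ∈ GG)
    (u : X → Equiv.Perm (List X)) (hu : ∀ x, u x ∈ GG) : PP u ∈ GG := by
  have h : u ∈ GG.comap PP := by
    apply Subgroup.pi_mem_of_mulSingle_mem
    intro x
    exact PP_single_mem x (u x) (hu x)
  exact h

theorem core_exists_dec
    (conj_PP : ∀ (σ : A) (w : X → Equiv.Perm (List X)), rt σ * PP w * (rt σ)⁻¹ = PP (fun x => w (x.1, (σ⁻¹ : A).1 x.2)))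
    (dr_eq : ∀ b : B, dr b = PP (fun x => if x.2 = 0 then dr b else if x.2 = 1 then rt (b x.1) else 1))
    (g : Equiv.Perm (List X)) (hg : g ∈ GG) :
    ∃ (σ : A) (w : X → Equiv.Perm (List X)), (∀ x, w x ∈ GG) ∧ g = rt σ * PP w := by
  induction hg using Subgroup.closure_induction with
  | mem g hg =>
    rcases hg with ⟨s, rfl⟩ | ⟨b, rfl⟩
    · exact ⟨s, 1, fun _ => one_mem _, by rw [map_one, mul_one]⟩
    · refine ⟨1, _, ?_, by rw [map_one, one_mul]; exact dr_eq b⟩
      intro x
      split_ifs
      · exact dr_mem b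
      · exact rt_mem _
      · exact one_mem _
  | one => exact ⟨1, 1, fun _ => one_mem _, by rw [map_one, map_one, mul_one]⟩
  | mul g h _ _ ihg ihh =>
    obtain ⟨σ, w, hw, rfl⟩ := ihg
    obtain ⟨τ, v, hv, rfl⟩ := ihh
    refine ⟨σ * τ, fun x => w (x.1, ((τ⁻¹)⁻¹ : A).1 x.2) * v x, fun x => mul_mem (hw _) (hv _), ?_⟩
    have h1 := conj_PP τ⁻¹ w
    have h2 : PP (fun x => w (x.1, ((τ⁻¹)⁻¹ : A).1 x.2) * v x) =
        PP (fun x => w (x.1, ((τ⁻¹)⁻¹ : A).1 x.2)) * PP v := by
      rw [← map_mul]; rfl
    rw [h2, ← h1, map_mul, map_inv]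
    group
  | inv g _ ihg =>
    obtain ⟨σ, w, hw, rfl⟩ := ihg
    refine ⟨σ⁻¹, fun x => w⁻¹ (x.1, (σ⁻¹ : A).1 x.2), fun x => inv_mem (hw _), ?_⟩
    rw [← conj_PP σ w⁻¹, map_inv, map_inv]
    group

/-- Assuming the group contains its copies below the first level, it carries the structure `Core`. -/
theorem core_exists
    (conj_PP : ∀ (σ : A) (w : X → Equiv.Perm (List X)), rt σ * PP w * (rt σ)⁻¹ = PP (fun x => w (x.1, (σ⁻¹ : A).1 x.2)))
    (dr_eq : ∀ b : B, dr b = PP (fun x => if x.2 = 0 then dr b else if x.2 = 1 then rt (b x.1) else 1))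
    (PP_single_mem : ∀ (x : X) (g : Equiv.Perm (List X)), g ∈ GG → PP (Pi.mulSingle x g) ∈ GG) :
    ∃ c : Core GG, (∀ a, ((c.iA a : GG) : Equiv.Perm (List X)) = rt a) ∧ (∀ b, ((c.iB b : GG) : Equiv.Perm (List X)) = dr b) := by
  refine ⟨{ iA := rt.codRestrict GG rt_mem
            iB := dr.codRestrict GG dr_mem
            P := { toFun := fun w => ⟨PP (fun x => (w x : Equiv.Perm (List X))),
                    core_exists_mem PP_single_mem _ fun x => (w x).2⟩
                   map_one' := Subtype.ext (map_one PP)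
                   map_mul' := fun w v => Subtype.ext
                    (map_mul PP (fun x => (w x : Equiv.Perm (List X)))
                      (fun x => (v x : Equiv.Perm (List X)))) }
            P_inj := ?_
            gen := ?_
            dec := ?_
            dec_inj := ?_
            conj := ?_
            dirB := ?_ }, fun _ => rfl, fun _ => rfl⟩
  · intro w v h
    have h1 : PP (fun x => (w x : Equiv.Perm (List X))) =
      PP (fun x => (v x : Equiv.Perm (List X))) := congrArg Subtype.val h
    funext x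
    apply Subtype.ext
    ext1 l
    have h2 := congrArg (fun p : Equiv.Perm (List X) => p (x :: l)) h1
    have h3 : x :: (w x : Equiv.Perm (List X)) l = x :: (v x : Equiv.Perm (List X)) l := h2
    exact (List.cons.inj h3).2
  · have h1 : (Set.range (rt.codRestrict GG rt_mem) ∪ Set.range (dr.codRestrict GG dr_mem)) =
        (((↑) : GG → Equiv.Perm (List X)) ⁻¹' (Set.range rt ∪ Set.range dr)) := by
      ext g
      constructor
      · rintro (⟨a, rfl⟩ | ⟨b, rfl⟩)
        · exact Or.inl ⟨a, rfl⟩
        · exact Or.inr ⟨b, rfl⟩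
      · rintro (⟨a, ha⟩ | ⟨b, hb⟩)
        · exact Or.inl ⟨a, Subtype.ext ha⟩
        · exact Or.inr ⟨b, Subtype.ext hb⟩
    rw [h1]
    exact Subgroup.closure_closure_coe_preimage
  · rintro ⟨g, hg⟩
    obtain ⟨σ, w, hw, h⟩ := core_exists_dec conj_PP dr_eq g hg
    exact ⟨σ, fun x => ⟨w x, hw x⟩, Subtype.ext h⟩
  · intro σ w h
    have h1 : rt σ * PP (fun x => (w x : Equiv.Perm (List X))) = 1 := congrArg Subtype.val h
    apply Subtype.ext
    ext1 y
    have h2 := congrArg (fun p : Equiv.Perm (List X) => p [((0 : I), y)]) h1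
    have h3 : ((0 : I), σ.1 y) :: (w (0, y) : Equiv.Perm (List X)) [] = [((0 : I), y)] := h2
    exact congrArg Prod.snd (List.cons.inj h3).1
  · intro σ w
    exact Subtype.ext (conj_PP σ (fun x => (w x : Equiv.Perm (List X))))
  · intro b
    apply Subtype.ext
    refine (dr_eq b).trans ?_
    show PP _ = PP _
    congr 1
    funext x
    by_cases h0 : x.2 = 0
    · simp only [if_pos h0]; rfl
    · by_cases h1 : x.2 = 1
      · simp only [if_neg h0, if_pos h1]; rfl
      · simp only [if_neg h0, if_neg h1]; rfl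

end Pool.Agent.Helper889.Na
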