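import Mathlib
import Pool.Agent.Helper889.Na.Mk

set_option autoImplicit false
set_option linter.unusedSectionVars false
set_option linter.unusedVariables false

namespace Pool.Agent.Helper889.Na


/-- all sections of `g` at level `n` are rooted or directed -/
def Good (n : ℕ) (g : Equiv.Perm (List X)) : Prop :=
  (∀ w, (g w).length = w.length) ∧ ∀ v : List X, v.length = n →
    ∃ s : Equiv.Perm (List X), (s ∈ Set.range rt ∨ s ∈ Set.range dr) ∧ ∀ w, g (v ++ w) = g v ++ s w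

/-- positive words -/
def wd {G : Type} [Group G] (a b : G) (l : List Bool) : G := (l.map fun c => if c then a else b).prod

/-- prefixes of an infinite sequence -/
def prf (ξ : ℕ → X) (m : ℕ) : List X := List.ofFn fun i : Fin m => ξ i

/-- rooted or directed -/
def RD (s : Equiv.Perm (List X)) : Prop := s ∈ Set.range rt ∨ s ∈ Set.range dr

theorem rt_app (σ : A) (w : List X) : rt σ w = rtF σ.1 w := rfl
theorem dr_app (b : B) (w : List X) : dr b w = drF b w := rfl

theorem rd_one : RD 1 := Or.inl ⟨1, map_one rt⟩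

theorem rtF_len (s : Equiv.Perm Y) (w : List X) : (rtF s w).length = w.length := by
  cases w <;> simp [rtF]

theorem drF_len (b : B) (w : List X) : (drF b w).length = w.length := by
  induction w with
  | nil => rfl
  | cons x w ih =>
    simp only [drF]
    split_ifs <;> simp [ih, rtF_len]

theorem rd_len {s : Equiv.Perm (List X)} (hs : RD s) (w : List X) : (s w).length = w.length := by
  rcases hs with ⟨σ, rfl⟩ | ⟨b, rfl⟩
  · exact rtF_len _ _
  · exact drF_len _ _

theorem dr_sec (b : B) (x : X) : ∃ s, RD s ∧ ∀ w, dr b (x :: w) = x :: s w := by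
  by_cases h0 : x.2 = 0
  · exact ⟨dr b, Or.inr ⟨b, rfl⟩, fun w => by simp [dr_app, drF, h0]⟩
  by_cases h1 : x.2 = 1
  · exact ⟨rt (b x.1), Or.inl ⟨_, rfl⟩, fun w => by simp [dr_app, rt_app, drF, h0, h1]⟩
  · exact ⟨1, rd_one, fun w => by simp [dr_app, drF, h0, h1]⟩

theorem rt_cons (σ : A) (x : X) (w : List X) : rt σ (x :: w) = (x.1, σ.1 x.2) :: w := rfl

theorem sec_one {g : Equiv.Perm (List X)} (hg : RD g) (x : X) :
    ∃ s, RD s ∧ ∀ w, g (x :: w) = g [x] ++ s w := by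
  rcases hg with ⟨σ, rfl⟩ | ⟨b, rfl⟩
  · exact ⟨1, rd_one, fun w => by simp [rt_cons]⟩
  · obtain ⟨s, hs, h⟩ := dr_sec b x
    refine ⟨s, hs, fun w => ?_⟩
    have h0 : s [] = [] := List.eq_nil_of_length_eq_zero (by rw [rd_len hs]; rfl)
    rw [h, h, h0]
    rfl

theorem sec_mul {s₁ s₂ : Equiv.Perm (List X)} (h₁ : RD s₁) (h₂ : RD s₂) (x : X) :
    ∃ s, RD s ∧ ∀ w, s₁ (s₂ (x :: w)) = s₁ (s₂ [x]) ++ s w := by
  rcases h₁ with ⟨σ, rfl⟩ | ⟨b, rfl⟩ <;> rcases h₂ with ⟨τ, rfl⟩ | ⟨b', rfl⟩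
  · exact ⟨1, rd_one, fun w => by simp [rt_cons]⟩
  · obtain ⟨s, hs, h⟩ := dr_sec b' x
    refine ⟨s, hs, fun w => ?_⟩
    have h0 : s [] = [] := List.eq_nil_of_length_eq_zero (by rw [rd_len hs]; rfl)
    rw [h, h, h0, rt_cons, rt_cons]
    rfl
  · obtain ⟨s, hs, h⟩ := dr_sec b (x.1, τ.1 x.2)
    refine ⟨s, hs, fun w => ?_⟩
    have h0 : s [] = [] := List.eq_nil_of_length_eq_zero (by rw [rd_len hs]; rfl)
    rw [rt_cons, rt_cons, h, h, h0]
    rfl
  · have h := sec_one (g := dr (b * b')) (Or.inr ⟨_, rfl⟩) x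
    simpa [map_mul] using h

theorem good_rd {g : Equiv.Perm (List X)} (hg : RD g) (n : ℕ) : Good n g := by
  refine ⟨rd_len hg, ?_⟩
  induction n generalizing g with
  | zero =>
    intro v hv
    have hv' : v = [] := List.eq_nil_of_length_eq_zero hv
    subst hv'
    have h0 : g [] = [] := List.eq_nil_of_length_eq_zero (by rw [rd_len hg]; rfl)
    exact ⟨g, hg, fun w => by rw [h0]; rfl⟩
  | succ n ih =>
    intro v hv
    cases v with
    | nil => simp at hv
    | cons x v =>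
      obtain ⟨s, hs, h⟩ := sec_one hg x
      obtain ⟨t, ht, h'⟩ := ih hs v (by simpa using hv)
      refine ⟨t, ht, fun w => ?_⟩
      rw [List.cons_append, h (v ++ w), h', h v, List.append_assoc]

theorem split_last {n : ℕ} (v : List X) (hv : v.length = n + 1) :
    ∃ (v' : List X) (x : X), v'.length = n ∧ v = v' ++ [x] := by
  have hne : v ≠ [] := by
    rintro rfl
    simp at hv
  refine ⟨v.dropLast, v.getLast hne, ?_, (List.dropLast_append_getLast hne).symm⟩
  simp [hv]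


-- TARGETS
theorem good_rt (s : A) (n : ℕ) : Good n (rt s) := by 
  exact good_rd (Or.inl ⟨s, rfl⟩) n
theorem good_dr (b : B) (n : ℕ) : Good n (dr b) := by 
  exact good_rd (Or.inr ⟨b, rfl⟩) n
theorem good_succ {n : ℕ} {g : Equiv.Perm (List X)} (h : Good n g) : Good (n+1) g := by 
  refine ⟨h.1, fun v hv => ?_⟩
  obtain ⟨v', x, hv', rfl⟩ := split_last v hv
  obtain ⟨s, hs, h1⟩ := h.2 v' hv'
  obtain ⟨t, ht, h2⟩ := sec_one hs x
  refine ⟨t, ht, fun w => ?_⟩
  rw [List.append_assoc, h1, h1, List.singleton_append, h2, List.append_assoc]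
theorem good_mul {n : ℕ} {g h : Equiv.Perm (List X)} (hg : Good n g) (hh : Good n h) : Good (n+1) (g * h) := by 
  refine ⟨fun w => ?_, fun v hv => ?_⟩
  · rw [Equiv.Perm.mul_apply, hg.1, hh.1]
  obtain ⟨v', x, hv', rfl⟩ := split_last v hv
  obtain ⟨s₂, hs₂, h2⟩ := hh.2 v' hv'
  obtain ⟨s₁, hs₁, h1⟩ := hg.2 (h v') (by rw [hh.1]; exact hv')
  obtain ⟨t, ht, h3⟩ := sec_mul hs₁ hs₂ x
  refine ⟨t, ht, fun w => ?_⟩
  rw [Equiv.Perm.mul_apply, Equiv.Perm.mul_apply, List.append_assoc, h2, h2, h1, h1,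
    List.singleton_append, h3, List.append_assoc]
theorem good_mono {n m : ℕ} (hnm : n ≤ m) {g : Equiv.Perm (List X)} (h : Good n g) : Good m g := by 
  induction hnm with
  | refl => exact h
  | step _ ih => exact good_succ ih
theorem good_exists {g : Equiv.Perm (List X)} (hg : g ∈ GG) : ∃ n, Good n g := by 
  unfold GG at hg
  induction hg using Subgroup.closure_induction with
  | mem x hx => exact ⟨0, good_rd hx 0⟩
  | one => exact ⟨0, good_rd rd_one 0⟩
  | mul x y _ _ ihx ihy =>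
    obtain ⟨n, hn⟩ := ihx
    obtain ⟨m, hm⟩ := ihy
    exact ⟨_, good_mul (good_mono (le_max_left n m) hn) (good_mono (le_max_right n m) hm)⟩
  | inv x _ ih =>
    obtain ⟨n, hn⟩ := ih
    have hlen : ∀ w, (x⁻¹ w).length = w.length := by
      intro w
      have := hn.1 (x⁻¹ w)
      rw [show x (x⁻¹ w) = w from x.apply_symm_apply w] at this
      exact this.symm
    refine ⟨n, hlen, fun v hv => ?_⟩
    obtain ⟨s, hs, h⟩ := hn.2 (x⁻¹ v) (by rw [hlen]; exact hv)
    refine ⟨s⁻¹, ?_, fun w => ?_⟩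
    · rcases hs with ⟨σ, rfl⟩ | ⟨b, rfl⟩
      · exact Or.inl ⟨σ⁻¹, map_inv rt σ⟩
      · exact Or.inr ⟨b⁻¹, map_inv dr b⟩
    · rw [Equiv.Perm.inv_eq_iff_eq, h, show x (x⁻¹ v) = v from x.apply_symm_apply v,
        show s (s⁻¹ w) = w from s.apply_symm_apply w]
theorem good_wd {n j : ℕ} {a b : Equiv.Perm (List X)} (ha : Good n a) (hb : Good n b) (l : List Bool) (hl : l.length = 2 ^ j) :
    Good (n + j) (wd a b l) := by 
  induction j generalizing l with
  | zero =>
    obtain ⟨c, rfl⟩ := List.length_eq_one_iff.1 (by simpa using hl)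
    cases c <;> simpa [wd]
  | succ j ih =>
    have h1 : wd a b l = wd a b (l.take (2 ^ j)) * wd a b (l.drop (2 ^ j)) := by
      conv_lhs => rw [← List.take_append_drop (2 ^ j) l]
      simp [wd]
    rw [h1]
    have hp : 2 ^ (j + 1) = 2 ^ j + 2 ^ j := by ring
    refine good_mul (ih _ ?_) (ih _ ?_)
    · rw [List.length_take, hl, hp]; omega
    · rw [List.length_drop, hl, hp]; omega
theorem good_pow {n : ℕ} {g : Equiv.Perm (List X)} (h : Good n g) {v : List X} (hv : v.length = n) (hgv : g v = v) :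
    ∀ w, (g ^ (Fintype.card A * Fintype.card B)) (v ++ w) = v ++ w := by 
  obtain ⟨s, hs, h1⟩ := h.2 v hv
  rw [hgv] at h1
  have key : ∀ k : ℕ, ∀ w, (g ^ k) (v ++ w) = v ++ (s ^ k) w := by
    intro k
    induction k with
    | zero => intro w; simp
    | succ k ih =>
      intro w
      rw [pow_succ, Equiv.Perm.mul_apply, h1, ih, pow_succ, Equiv.Perm.mul_apply]
  have hs1 : s ^ (Fintype.card A * Fintype.card B) = 1 := by
    rcases hs with ⟨σ, rfl⟩ | ⟨b, rfl⟩
    · rw [← map_pow, pow_mul, pow_card_eq_one, one_pow, map_one]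
    · rw [← map_pow, mul_comm, pow_mul, pow_card_eq_one, one_pow, map_one]
  intro w
  rw [key, hs1]
  rfl





theorem two_words_pref {a b : Equiv.Perm (List X)}
    (hpa : ∀ u w, ∃ w' : List X, a (u ++ w) = a u ++ w')
    (hpb : ∀ u w, ∃ w' : List X, b (u ++ w) = b u ++ w') (l : List Bool) :
    ∀ u w, ∃ w' : List X, wd a b l (u ++ w) = wd a b l u ++ w' := by
  induction l with
  | nil => intro u w; exact ⟨w, rfl⟩
  | cons c l ih =>
    intro u w
    have e : wd a b (c :: l) = (if c then a else b) * wd a b l := by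
      simp [wd]
    obtain ⟨w1, h1⟩ := ih u w
    rw [e, Equiv.Perm.mul_apply, Equiv.Perm.mul_apply, h1]
    split_ifs
    · exact hpa _ _
    · exact hpb _ _

theorem two_words_num (n C : ℕ) : ∃ j : ℕ, 15 ^ (n + j) * C < 2 ^ (2 ^ j) := by
  obtain ⟨j, hj⟩ : ∃ j : ℕ, 4 * (n + j) + C < 2 ^ j := by
    refine ⟨2 * (4 * n + C + 8), ?_⟩
    set K := 4 * n + C with hK
    have h1 : K + 8 + 1 ≤ 2 ^ (K + 8) := Nat.lt_two_pow_self
    have h2 : 2 ^ (2 * (K + 8)) = 2 ^ (K + 8) * 2 ^ (K + 8) := by rw [← pow_add]; congr 1; ring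
    rw [h2]
    have h3 : (K + 8 + 1) * (K + 8 + 1) ≤ 2 ^ (K + 8) * 2 ^ (K + 8) := Nat.mul_le_mul h1 h1
    have h4 : 4 * (n + 2 * (K + 8)) + C = K + 8 * (K + 8) := by rw [hK]; ring
    rw [h4]
    nlinarith
  refine ⟨j, ?_⟩
  have h5 : C < 2 ^ C := Nat.lt_two_pow_self
  calc 15 ^ (n + j) * C ≤ 16 ^ (n + j) * 2 ^ C :=
        Nat.mul_le_mul (Nat.pow_le_pow_left (by norm_num) _) h5.le
    _ = 2 ^ (4 * (n + j) + C) := by
        rw [show (16 : ℕ) = 2 ^ 4 by norm_num, ← pow_mul, ← pow_add]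
    _ < 2 ^ (2 ^ j) := Nat.pow_lt_pow_right (by norm_num) hj

theorem two_words_prf (ξ : ℕ → X) {m M : ℕ} (h : m ≤ M) : ∃ r, prf ξ M = prf ξ m ++ r := by
  refine ⟨(prf ξ M).drop m, ?_⟩
  have e : prf ξ m = (prf ξ M).take m := by
    unfold prf
    apply List.ext_getElem
    · simp [h]
    · intro i h1 h2
      simp
  rw [e, List.take_append_drop]

-- TARGET
theorem two_words (good_wd : ∀ {n j : ℕ} {a b : Equiv.Perm (List X)}, Good n a → Good n b → ∀ l : List Bool, l.length = 2 ^ j →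
      Good (n + j) (wd a b l))
    {n : ℕ} {a b : Equiv.Perm (List X)} (ha : Good n a) (hb : Good n b)
    (hpa : ∀ u w, ∃ w' : List X, a (u ++ w) = a u ++ w')
    (hpb : ∀ u w, ∃ w' : List X, b (u ++ w) = b u ++ w') (ξ : ℕ → X) :
    ∃ l l' : List Bool, l ≠ l' ∧ ∀ m, wd a b l (prf ξ m) = wd a b l' (prf ξ m) := by
  obtain ⟨j, hj⟩ := two_words_num n (Fintype.card (A ⊕ B))
  have hlen : (prf ξ (n + j)).length = n + j := by simp [prf]
  have hG : ∀ l : Fin (2 ^ j) → Bool, Good (n + j) (wd a b (List.ofFn l)) := fun l =>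
    good_wd ha hb _ (by simp)
  have hc : ∀ l : Fin (2 ^ j) → Bool, ∃ c : A ⊕ B, ∀ w, wd a b (List.ofFn l) (prf ξ (n + j) ++ w) =
      wd a b (List.ofFn l) (prf ξ (n + j)) ++ (Sum.elim (fun s => rt s) (fun t => dr t) c) w := by
    intro l
    obtain ⟨s, hs, hw⟩ := (hG l).2 _ hlen
    rcases hs with ⟨t, rfl⟩ | ⟨t, rfl⟩
    · exact ⟨Sum.inl t, hw⟩
    · exact ⟨Sum.inr t, hw⟩
  choose c hc using hc
  let F : (Fin (2 ^ j) → Bool) → List.Vector X (n + j) × (A ⊕ B) := fun l =>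
    (⟨wd a b (List.ofFn l) (prf ξ (n + j)), by rw [(hG l).1, hlen]⟩, c l)
  have hcard : Fintype.card (List.Vector X (n + j) × (A ⊕ B)) < Fintype.card (Fin (2 ^ j) → Bool) := by
    rw [Fintype.card_prod, card_vector, Fintype.card_fun, Fintype.card_bool, Fintype.card_fin]
    have h15 : Fintype.card X = 15 := by simp [X, I, Y]
    rw [h15]
    exact hj
  obtain ⟨l, l', hne, heq⟩ := Fintype.exists_ne_map_eq_of_card_lt F hcard
  have e1 : wd a b (List.ofFn l) (prf ξ (n + j)) = wd a b (List.ofFn l') (prf ξ (n + j)) :=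
    congrArg Subtype.val (congrArg Prod.fst heq)
  have e2 : c l = c l' := congrArg Prod.snd heq
  refine ⟨List.ofFn l, List.ofFn l', fun h => hne (List.ofFn_injective h), fun m => ?_⟩
  rcases le_total (n + j) m with hm | hm
  · obtain ⟨r, hr⟩ := two_words_prf ξ hm
    rw [hr, hc l r, hc l' r, e1, e2]
  · obtain ⟨r, hr⟩ := two_words_prf ξ hm
    have hml : (prf ξ m).length = m := by simp [prf]
    obtain ⟨w1, h1⟩ := two_words_pref hpa hpb (List.ofFn l) (prf ξ m) r
    obtain ⟨w2, h2⟩ := two_words_pref hpa hpb (List.ofFn l') (prf ξ m) r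
    rw [hr, h1, h2] at e1
    exact (List.append_inj e1 (by rw [(hG l).1, (hG l').1])).1


end Pool.Agent.Helper889.Na
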