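import Mathlib
import Pool.Agent.Helper889.Na.NfA

set_option autoImplicit false
set_option linter.unusedSectionVars false
set_option linter.unusedVariables false

namespace Pool.Agent.Helper889.Na

/-- Commuting elements of a free group are powers of a common element
(proof copied from helper189's file DerFree). -/
theorem exists_root {G : Type} [Group G] [IsFreeGroup G] {b c : G} (h : Commute b c) :
    ∃ r : G, ∃ i j : ℤ, b = r ^ i ∧ c = r ^ j := by
  let H : Subgroup G := Subgroup.closure {b, c}
  have hb : b ∈ H := Subgroup.subset_closure (by simp)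
  have hc : c ∈ H := Subgroup.subset_closure (by simp)
  have hcomm : ∀ x ∈ ({b, c} : Set G), ∀ y ∈ ({b, c} : Set G), x * y = y * x := by
    rintro x (rfl | rfl) y (rfl | rfl)
    · rfl
    · exact h
    · exact h.symm
    · rfl
  have hH : ∀ x y : H, x * y = y * x := by
    intro x y
    have := (Subgroup.isMulCommutative_closure hcomm).is_comm.comm x y
    exact this
  let Y := IsFreeGroup.Generators H
  let e : H ≃* FreeGroup Y := IsFreeGroup.toFreeGroup H
  have hsub : Subsingleton Y := by
    constructor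
    intro x y
    by_contra hxy
    have h1 : (FreeGroup.of x : FreeGroup Y) * FreeGroup.of y
        = FreeGroup.of y * FreeGroup.of x := by
      apply e.symm.injective
      rw [map_mul, map_mul, hH]
    classical
    have h2 := congrArg FreeGroup.toWord h1
    simp only [FreeGroup.toWord_mul, FreeGroup.toWord_of] at h2
    have h3 : FreeGroup.reduce ([(x, true)] ++ [(y, true)]) = [(x, true), (y, true)] := by
      simp [FreeGroup.reduce, hxy]
    have h4 : FreeGroup.reduce ([(y, true)] ++ [(x, true)]) = [(y, true), (x, true)] := by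
      simp [FreeGroup.reduce]
    rw [h3, h4] at h2
    simp at h2
    exact hxy h2.1
  have hcyc : ∃ r : FreeGroup Y, ∀ z : FreeGroup Y, ∃ i : ℤ, z = r ^ i := by
    rcases isEmpty_or_nonempty Y with hY | ⟨⟨y⟩⟩
    · exact ⟨1, fun z => ⟨0, Subsingleton.elim _ _⟩⟩
    · refine ⟨FreeGroup.of y, fun z => ?_⟩
      have hz : z ∈ Subgroup.closure (Set.range (FreeGroup.of : Y → FreeGroup Y)) := by
        rw [FreeGroup.closure_range_of]; trivial
      have hr : Set.range (FreeGroup.of : Y → FreeGroup Y) = {FreeGroup.of y} := by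
        ext w
        constructor
        · rintro ⟨y', rfl⟩
          rw [Subsingleton.elim y' y]; rfl
        · rintro rfl
          exact ⟨y, rfl⟩
      rw [hr] at hz
      obtain ⟨i, hi⟩ := Subgroup.mem_closure_singleton.mp hz
      exact ⟨i, hi.symm⟩
  obtain ⟨r, hr⟩ := hcyc
  obtain ⟨i, hi⟩ := hr (e ⟨b, hb⟩)
  obtain ⟨j, hj⟩ := hr (e ⟨c, hc⟩)
  refine ⟨((e.symm r : H) : G), i, j, ?_, ?_⟩
  · have : (⟨b, hb⟩ : H) = (e.symm r) ^ i := by
      apply e.injective; rw [hi, map_zpow, MulEquiv.apply_symm_apply]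
    have h2 := congrArg (Subtype.val) this
    simpa using h2
  · have : (⟨c, hc⟩ : H) = (e.symm r) ^ j := by
      apply e.injective; rw [hj, map_zpow, MulEquiv.apply_symm_apply]
    have h2 := congrArg (Subtype.val) this
    simpa using h2

/-- the reduced word of a positive word -/
def pw (l : List Bool) : List (Fin 2 × Bool) := l.map fun c => (if c then (0 : Fin 2) else 1, true)

theorem wd_mk (l : List Bool) : wd (FreeGroup.of (0 : Fin 2)) (FreeGroup.of 1) l = FreeGroup.mk (pw l) := by
  induction l with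
  | nil => rfl
  | cons c l ih =>
    have e : wd (FreeGroup.of (0 : Fin 2)) (FreeGroup.of 1) (c :: l)
        = (if c then FreeGroup.of 0 else FreeGroup.of 1) * wd (FreeGroup.of (0 : Fin 2)) (FreeGroup.of 1) l := by
      simp only [wd, List.map_cons, List.prod_cons]
    rw [e, ih]
    cases c
    · show FreeGroup.mk [((1 : Fin 2), true)] * FreeGroup.mk (pw l) = _
      rw [FreeGroup.mul_mk]; rfl
    · show FreeGroup.mk [((0 : Fin 2), true)] * FreeGroup.mk (pw l) = _
      rw [FreeGroup.mul_mk]; rfl

theorem pw_reduced (l : List Bool) : FreeGroup.IsReduced (pw l) := by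
  induction l with
  | nil => exact FreeGroup.IsReduced.nil
  | cons c l ih =>
    cases l with
    | nil => exact FreeGroup.IsReduced.singleton
    | cons c' l =>
      show FreeGroup.IsReduced (_ :: _ :: _)
      rw [FreeGroup.isReduced_cons_cons]
      exact ⟨fun _ => rfl, ih⟩

theorem wd_inj {l l' : List Bool} (h : wd (FreeGroup.of (0 : Fin 2)) (FreeGroup.of 1) l
    = wd (FreeGroup.of (0 : Fin 2)) (FreeGroup.of 1) l') : l = l' := by
  rw [wd_mk, wd_mk] at h
  have h2 := congrArg FreeGroup.toWord h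
  rw [FreeGroup.toWord_mk, FreeGroup.toWord_mk, (pw_reduced l).reduce_eq, (pw_reduced l').reduce_eq] at h2
  refine List.map_injective_iff.2 ?_ h2
  intro c c' hc
  cases c <;> cases c' <;> simp_all

theorem map_wd {G H : Type} [Group G] [Group H] (f : G →* H) (a b : G) (l : List Bool) : f (wd a b l) = wd (f a) (f b) l := by
  unfold wd
  rw [map_list_prod, List.map_map]
  congr 1
  refine List.map_congr_left fun c _ => ?_
  cases c <;> rfl


/-- some nontrivial element acts trivially below `v` -/
def Kill (f : FreeGroup (Fin 2) →* Equiv.Perm (List X)) (v : List X) : Prop :=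
  ∃ w : FreeGroup (Fin 2), w ≠ 1 ∧ ∀ u, f w (v ++ u) = v ++ u

theorem aux_rtF_length (s : Equiv.Perm Y) (v : List X) : (rtF s v).length = v.length := by
  cases v <;> simp [rtF]

theorem aux_drF_length (b : B) (v : List X) : (drF b v).length = v.length := by
  induction v with
  | nil => rfl
  | cons x w ih =>
    simp only [drF]
    split_ifs
    · simp [ih]
    · simp [aux_rtF_length]
    · rfl

theorem GG_length {g : Equiv.Perm (List X)} (hg : g ∈ GG) (v : List X) : (g v).length = v.length := by
  revert v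
  refine Subgroup.closure_induction (p := fun g _ => ∀ v, (g v).length = v.length) ?_ ?_ ?_ ?_ hg
  · rintro x (⟨s, rfl⟩ | ⟨b, rfl⟩) v
    · exact aux_rtF_length _ _
    · exact aux_drF_length _ _
  · intro v; rfl
  · intro x y _ _ hx hy v
    rw [Equiv.Perm.mul_apply, hx, hy]
  · intro x _ hx v
    have h := hx (x⁻¹ v)
    have h2 : x (x⁻¹ v) = v := x.apply_symm_apply v
    rw [h2] at h
    exact h.symm

theorem aux_rtF_prefix (s : Equiv.Perm Y) (u w : List X) :
    ∃ w' : List X, rtF s (u ++ w) = rtF s u ++ w' := by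
  cases u with
  | nil => exact ⟨rtF s w, rfl⟩
  | cons x u => exact ⟨w, rfl⟩

theorem aux_drF_prefix (b : B) (u w : List X) :
    ∃ w' : List X, drF b (u ++ w) = drF b u ++ w' := by
  induction u with
  | nil => exact ⟨drF b w, rfl⟩
  | cons x u ih =>
    obtain ⟨w1, h1⟩ := ih
    obtain ⟨w2, h2⟩ := aux_rtF_prefix (b x.1).1 u w
    simp only [List.cons_append, drF]
    split_ifs
    · exact ⟨w1, by rw [h1]; rfl⟩
    · exact ⟨w2, by rw [h2]; rfl⟩
    · exact ⟨w, rfl⟩

theorem GG_prefix {g : Equiv.Perm (List X)} (hg : g ∈ GG) (u w : List X) : ∃ w' : List X, g (u ++ w) = g u ++ w' := by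
  revert u w
  refine Subgroup.closure_induction (p := fun g _ => ∀ u w, ∃ w' : List X, g (u ++ w) = g u ++ w')
    ?_ ?_ ?_ ?_ hg
  · rintro x (⟨s, rfl⟩ | ⟨b, rfl⟩) u w
    · exact aux_rtF_prefix _ _ _
    · exact aux_drF_prefix _ _ _
  · intro u w; exact ⟨w, rfl⟩
  · intro x y _ _ hx hy u w
    obtain ⟨w1, h1⟩ := hy u w
    obtain ⟨w2, h2⟩ := hx (y u) w1
    exact ⟨w2, by rw [Equiv.Perm.mul_apply, Equiv.Perm.mul_apply, h1, h2]⟩
  · intro x hxm hx u w
    have h0 : x (x⁻¹ (u ++ w)) = u ++ w := x.apply_symm_apply _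
    have hl : (x⁻¹ (u ++ w)).length = u.length + w.length := by
      have := GG_length hxm (x⁻¹ (u ++ w))
      rw [h0] at this
      rw [← this, List.length_append]
    obtain ⟨w', hw'⟩ := hx ((x⁻¹ (u ++ w)).take u.length) ((x⁻¹ (u ++ w)).drop u.length)
    rw [List.take_append_drop, h0] at hw'
    have hl2 : u.length = (x ((x⁻¹ (u ++ w)).take u.length)).length := by
      rw [GG_length hxm, List.length_take, hl]
      omega
    have h3 := (List.append_inj hw' hl2).1
    have h4 : x⁻¹ u = (x⁻¹ (u ++ w)).take u.length := by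
      have h5 := congrArg (fun a => x⁻¹ a) h3
      rw [h5]
      exact x.symm_apply_apply _
    refine ⟨(x⁻¹ (u ++ w)).drop u.length, ?_⟩
    rw [h4, List.take_append_drop]

theorem aux_cyl {g : Equiv.Perm (List X)} (hg : g ∈ GG) (v : List X)
    (hfix : ∀ z : List X, z.length ≤ v.length + 1 → g z = z) (y : X) (u : List X) :
    ∃ u', g (v ++ [y] ++ u) = v ++ [y] ++ u' := by
  obtain ⟨u', hu'⟩ := GG_prefix hg (v ++ [y]) u
  refine ⟨u', ?_⟩
  rw [hu', hfix (v ++ [y]) (by simp)]

theorem aux_inv_fix {g : Equiv.Perm (List X)} {z : List X} (h : g z = z) : g⁻¹ z = z := by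
  conv_lhs => rw [← h]
  exact g.symm_apply_apply z

theorem aux_pow (f : FreeGroup (Fin 2) →* Equiv.Perm (List X)) (hf : ∀ w, f w ∈ GG) (n : ℕ) :
    ∃ M : ℕ, M ≠ 0 ∧ ∀ w, ∀ z : List X, z.length ≤ n → f (w ^ M) z = z := by
  classical
  haveI hfin : Finite {z : List X // z.length ≤ n} := (List.finite_length_le X n).to_subtype
  haveI : Fintype {z : List X // z.length ≤ n} := Fintype.ofFinite _
  refine ⟨Fintype.card (Equiv.Perm {z : List X // z.length ≤ n}), Fintype.card_ne_zero, ?_⟩
  intro w z hz
  have hp : ∀ z : List X, (f w z).length ≤ n ↔ z.length ≤ n := fun z => by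
    rw [GG_length (hf w)]
  have h1 : ((f w).subtypePerm hp) ^ (Fintype.card (Equiv.Perm {z : List X // z.length ≤ n})) = 1 :=
    pow_card_eq_one
  rw [Equiv.Perm.subtypePerm_pow] at h1
  have h2 := congrArg (fun e : Equiv.Perm {z : List X // z.length ≤ n} => ((e ⟨z, hz⟩ : {z : List X // z.length ≤ n}) : List X)) h1
  rw [map_pow]
  exact h2

theorem aux_zpow_ne {w : FreeGroup (Fin 2)} (hw : w ≠ 1) {j : ℤ} (hj : j ≠ 0) : w ^ j ≠ 1 := by
  intro h
  apply hw
  have h2 : w ^ j = 1 ^ j := by rw [h, one_zpow]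
  exact zpow_left_injective hj h2

theorem kill_step (f : FreeGroup (Fin 2) →* Equiv.Perm (List X)) (hf : ∀ w, f w ∈ GG) (v : List X)
    (h : ∀ x : X, Kill f (v ++ [x])) : Kill f v := by
  classical
  obtain ⟨M, hM0, hM⟩ := aux_pow f hf (v.length + 1)
  have hpow : ∀ w : FreeGroup (Fin 2), w ≠ 1 → w ^ M ≠ 1 := by
    intro w hw
    have := aux_zpow_ne hw (j := (M : ℤ)) (by exact_mod_cast hM0)
    rwa [zpow_natCast] at this
  have key : ∀ s : Finset X, ∃ w : FreeGroup (Fin 2), w ≠ 1 ∧
      (∀ z : List X, z.length ≤ v.length + 1 → f w z = z) ∧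
      ∀ x ∈ s, ∀ u, f w (v ++ [x] ++ u) = v ++ [x] ++ u := by
    intro s
    induction s using Finset.induction_on with
    | empty =>
      refine ⟨(FreeGroup.of 0) ^ M, hpow _ (FreeGroup.of_ne_one 0), hM _, ?_⟩
      intro x hx
      simp at hx
    | insert x s hxs ih =>
      obtain ⟨w1, h1, h1f, h1s⟩ := ih
      obtain ⟨w0, h0, h0f⟩ := h x
      have h2 := hpow w0 h0
      have h2f := hM w0
      have h2s : ∀ u, f (w0 ^ M) (v ++ [x] ++ u) = v ++ [x] ++ u := by
        intro u
        rw [map_pow]
        exact Equiv.Perm.pow_apply_eq_self_of_apply_eq_self (h0f u) M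
      generalize w0 ^ M = w2 at h2 h2f h2s
      by_cases hc : Commute w1 w2
      · obtain ⟨r, i, j, hi, hj⟩ := exists_root hc
        have hi0 : i ≠ 0 := by
          rintro rfl
          exact h1 (by rw [hi, zpow_zero])
        have hj0 : j ≠ 0 := by
          rintro rfl
          exact h2 (by rw [hj, zpow_zero])
        have he : w1 ^ j = w2 ^ i := by
          rw [hi, hj, ← zpow_mul, ← zpow_mul, mul_comm]
        refine ⟨w1 ^ j, aux_zpow_ne h1 hj0, ?_, ?_⟩
        · intro z hz
          rw [map_zpow]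
          exact Equiv.Perm.zpow_apply_eq_self_of_apply_eq_self (h1f z hz) j
        · intro y hy u
          rw [Finset.mem_insert] at hy
          rcases hy with rfl | hy
          · rw [he, map_zpow]
            exact Equiv.Perm.zpow_apply_eq_self_of_apply_eq_self (h2s u) i
          · rw [map_zpow]
            exact Equiv.Perm.zpow_apply_eq_self_of_apply_eq_self (h1s y hy u) j
      · have hne : w1 * w2 * w1⁻¹ * w2⁻¹ ≠ 1 := by
          intro he
          apply hc
          have : w1 * w2 * w1⁻¹ = w2 := by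
            rw [mul_inv_eq_one] at he
            exact he
          show w1 * w2 = w2 * w1
          calc w1 * w2 = w1 * w2 * w1⁻¹ * w1 := by group
            _ = w2 * w1 := by rw [this]
        have happ : ∀ z, f (w1 * w2 * w1⁻¹ * w2⁻¹) z = f w1 (f w2 ((f w1)⁻¹ ((f w2)⁻¹ z))) := by
          intro z
          rw [map_mul, map_mul, map_mul, map_inv, map_inv]
          rfl
        have hb1 : ∀ z, (f w1) ((f w1)⁻¹ z) = z := fun z => (f w1).apply_symm_apply z
        have hb2 : ∀ z, (f w2) ((f w2)⁻¹ z) = z := fun z => (f w2).apply_symm_apply z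
        refine ⟨_, hne, ?_, ?_⟩
        · intro z hz
          rw [happ, aux_inv_fix (h2f z hz), aux_inv_fix (h1f z hz), h2f z hz, h1f z hz]
        · intro y hy u
          rw [Finset.mem_insert] at hy
          rw [happ]
          rcases hy with rfl | hy
          · rw [aux_inv_fix (h2s u)]
            obtain ⟨u', hu'⟩ := aux_cyl (GG.inv_mem (hf w1)) v (fun z hz => aux_inv_fix (h1f z hz)) y u
            rw [hu', h2s u', ← hu', hb1]
          · obtain ⟨u', hu'⟩ := aux_cyl (GG.inv_mem (hf w2)) v (fun z hz => aux_inv_fix (h2f z hz)) y u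
            rw [hu', aux_inv_fix (h1s y hy u'), ← hu', hb2, h1s y hy u]
  obtain ⟨w, hw, hwf, hws⟩ := key Finset.univ
  refine ⟨w, hw, ?_⟩
  intro u
  cases u with
  | nil => exact hwf _ (by simp)
  | cons x u =>
    have := hws x (Finset.mem_univ x) u
    simpa using this


-- TARGET: no_free (everything above is proved elsewhere)

theorem no_free : ¬ ∃ f : FreeGroup (Fin 2) →* GG, Function.Injective f := by
  rintro ⟨f, hf⟩
  set F : FreeGroup (Fin 2) →* Equiv.Perm (List X) := GG.subtype.comp f with hF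
  have hFi : Function.Injective F := GG.subtype_injective.comp hf
  have hFG : ∀ w, F w ∈ GG := fun w => (f w).2
  have hK0 : ¬ Kill F [] := by
    rintro ⟨w, hw, hu⟩
    apply hw
    apply hFi
    rw [map_one]
    ext1 u
    have := hu u
    simpa using this
  have hstep : ∀ v : {v : List X // ¬ Kill F v}, ∃ x : X, ¬ Kill F (v.1 ++ [x]) := by
    intro v
    by_contra hcon
    push Not at hcon
    exact v.2 (kill_step F hFG v.1 hcon)
  choose nxt hnxt using hstep
  let seq : ℕ → {v : List X // ¬ Kill F v} := fun n =>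
    Nat.rec ⟨[], hK0⟩ (fun _ v => ⟨v.1 ++ [nxt v], hnxt v⟩) n
  let ξ : ℕ → X := fun n => nxt (seq n)
  have hprf : ∀ n, prf ξ n = (seq n).1 := by
    intro n
    induction n with
    | zero => rfl
    | succ n ih =>
      have h1 : prf ξ (n + 1) = prf ξ n ++ [ξ n] := by
        unfold prf
        rw [List.ofFn_succ', List.concat_eq_append]
        rfl
      rw [h1, ih]
  have hnk : ∀ n, ¬ Kill F (prf ξ n) := fun n => by rw [hprf]; exact (seq n).2
  obtain ⟨n1, hn1⟩ := good_exists (hFG (FreeGroup.of 0))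
  obtain ⟨n2, hn2⟩ := good_exists (hFG (FreeGroup.of 1))
  have ha : Good (max n1 n2) (F (FreeGroup.of 0)) := good_mono (le_max_left _ _) hn1
  have hb : Good (max n1 n2) (F (FreeGroup.of 1)) := good_mono (le_max_right _ _) hn2
  obtain ⟨l, l', hll, hm⟩ := two_words (fun {n j} {a b} ha hb l hl => good_wd ha hb l hl) ha hb
    (fun u w => GG_prefix (hFG _) u w) (fun u w => GG_prefix (hFG _) u w) ξ
  set W := wd (FreeGroup.of (0 : Fin 2)) (FreeGroup.of 1) l with hW
  set W' := wd (FreeGroup.of (0 : Fin 2)) (FreeGroup.of 1) l' with hW'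
  have hw : W'⁻¹ * W ≠ 1 := by
    intro h
    apply hll
    apply wd_inj
    rw [← hW, ← hW']
    exact (inv_mul_eq_one.mp h).symm
  have hFW : ∀ m, F (W'⁻¹ * W) (prf ξ m) = prf ξ m := by
    intro m
    rw [map_mul, map_inv, hW, hW', map_wd, map_wd, Equiv.Perm.mul_apply, hm m]
    rw [← Equiv.Perm.mul_apply, inv_mul_cancel, Equiv.Perm.one_apply]
  obtain ⟨n', hn'⟩ := good_exists (hFG (W'⁻¹ * W))
  have hlen : (prf ξ n').length = n' := by unfold prf; simp
  have hpow := good_pow hn' hlen (hFW n')
  apply hnk n'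
  refine ⟨(W'⁻¹ * W) ^ (Fintype.card A * Fintype.card B), ?_, ?_⟩
  · intro h
    have hN : Fintype.card A * Fintype.card B ≠ 0 :=
      mul_ne_zero Fintype.card_ne_zero Fintype.card_ne_zero
    exact hw ((pow_eq_one_iff_left hN).mp h)
  · intro u
    rw [map_pow]
    exact hpow u


end Pool.Agent.Helper889.Na
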