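import Mathlib
import Pool.Agent.Helper889.Na.Mk

set_option autoImplicit false
set_option linter.unusedSectionVars false
set_option linter.unusedVariables false

namespace Pool.Agent.Helper889.Na


theorem NAs_rt_inv (σ : A) (w : List X) : (rt σ)⁻¹ w = rtF (σ⁻¹ : A).1 w := by
  rw [← map_inv]
  rfl

theorem NAs_inv_apply (σ : A) (y z : Y) : (σ⁻¹ : A).1 y = z ↔ y = σ.1 z :=
  Equiv.Perm.inv_eq_iff_eq

theorem conj_PP (σ : A) (w : X → Equiv.Perm (List X)) :
    rt σ * PP w * (rt σ)⁻¹ = PP (fun x => w (x.1, (σ⁻¹ : A).1 x.2)) := by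
  ext1 l
  rw [Equiv.Perm.mul_apply, Equiv.Perm.mul_apply, NAs_rt_inv]
  cases l with
  | nil => rfl
  | cons x l =>
    show ((x.1, σ.1 ((σ⁻¹ : A).1 x.2)) : X) :: w (x.1, (σ⁻¹ : A).1 x.2) l =
      x :: w (x.1, (σ⁻¹ : A).1 x.2) l
    have h1 : σ.1 ((σ⁻¹ : A).1 x.2) = x.2 := ((NAs_inv_apply σ x.2 _).1 rfl).symm
    rw [h1]

theorem dr_eq (b : B) : dr b = PP (fun x => if x.2 = 0 then dr b else if x.2 = 1 then rt (b x.1) else 1) := by
  ext1 l
  cases l with
  | nil => rfl
  | cons x l =>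
    show drF b (x :: l) =
      x :: (if x.2 = 0 then dr b else if x.2 = 1 then rt (b x.1) else 1 : Equiv.Perm (List X)) l
    have h0 : drF b (x :: l) =
      if x.2 = 0 then x :: drF b l else if x.2 = 1 then x :: rtF (b x.1).1 l else x :: l := rfl
    rw [h0]
    by_cases h1 : x.2 = 0
    · rw [if_pos h1, if_pos h1]
      rfl
    · rw [if_neg h1, if_neg h1]
      by_cases h2 : x.2 = 1
      · rw [if_pos h2, if_pos h2]
        rfl
      · rw [if_neg h2, if_neg h2]
        rfl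

/-- `Δ_y` as a homomorphism -/
def NAsD (y : Y) : B →* Equiv.Perm (List X) where
  toFun b := PP (fun x => if x.2 = y then dr b else 1)
  map_one' := by
    have h1 : (fun x : X => if x.2 = y then dr (1 : B) else 1) = 1 := by
      funext x
      by_cases h : x.2 = y
      · rw [if_pos h, map_one]
        rfl
      · rw [if_neg h]
        rfl
    rw [h1, map_one]
  map_mul' b b' := by
    rw [← map_mul PP]
    congr 1
    funext x
    show (if x.2 = y then dr (b * b') else 1) =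
      (if x.2 = y then dr b else 1) * (if x.2 = y then dr b' else 1)
    by_cases h : x.2 = y
    · rw [if_pos h, if_pos h, if_pos h, map_mul]
    · rw [if_neg h, if_neg h, if_neg h, one_mul]

theorem NAs_trans (a b : Y) : ∃ σ : A, σ.1 a = b := by
  by_cases hab : a = b
  · exact ⟨1, hab⟩
  · have hc : ∀ a b : Fin 5, ∃ c : Fin 5, c ≠ a ∧ c ≠ b := by decide
    obtain ⟨c, hca, hcb⟩ := hc a b
    refine ⟨⟨Equiv.swap a b * Equiv.swap b c, ?_⟩, ?_⟩
    · rw [Equiv.Perm.mem_alternatingGroup, Equiv.Perm.sign_mul, Equiv.Perm.sign_swap hab,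
        Equiv.Perm.sign_swap (Ne.symm hcb)]
      rfl
    · show (Equiv.swap a b * Equiv.swap b c) a = b
      rw [Equiv.Perm.mul_apply, Equiv.swap_apply_of_ne_of_ne hab (Ne.symm hca),
        Equiv.swap_apply_left]

/-- a 3-cycle fixing `0` and mapping `1` to `2` -/
theorem NAs_cyc : ∃ σ : A, σ.1 0 = 0 ∧ σ.1 1 = 2 := by
  refine ⟨⟨Equiv.swap 1 2 * Equiv.swap 2 3, ?_⟩, ?_, ?_⟩
  · rw [Equiv.Perm.mem_alternatingGroup, Equiv.Perm.sign_mul, Equiv.Perm.sign_swap (by decide),
      Equiv.Perm.sign_swap (by decide)]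
    rfl
  · show (Equiv.swap 1 2 * Equiv.swap 2 3 : Equiv.Perm (Fin 5)) 0 = 0
    decide
  · show (Equiv.swap 1 2 * Equiv.swap 2 3 : Equiv.Perm (Fin 5)) 1 = 2
    decide

open scoped commutatorElement in
theorem NAs_comm (b b' : B) : NAsD 0 ⁅b, b'⁆ ∈ GG := by
  obtain ⟨σ, h0, h1⟩ := NAs_cyc
  have e1 : NAsD 0 ⁅b, b'⁆ = ⁅dr b, rt σ * dr b' * (rt σ)⁻¹⁆ := by
    have e2 : rt σ * dr b' * (rt σ)⁻¹ =
        PP (fun x => if x.2 = 0 then dr b' else if x.2 = 2 then rt (b' x.1) else 1) := by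
      conv_lhs => rw [dr_eq b']
      rw [conj_PP]
      congr 1
      funext x
      show (if (σ⁻¹ : A).1 x.2 = 0 then dr b' else if (σ⁻¹ : A).1 x.2 = 1 then rt (b' x.1) else 1) =
        (if x.2 = 0 then dr b' else if x.2 = 2 then rt (b' x.1) else 1)
      by_cases g0 : x.2 = 0
      · have g1 : (σ⁻¹ : A).1 x.2 = 0 := by rw [NAs_inv_apply, h0]; exact g0
        rw [if_pos g0, if_pos g1]
      · have g1 : ¬ (σ⁻¹ : A).1 x.2 = 0 := by rw [NAs_inv_apply, h0]; exact g0
        rw [if_neg g0, if_neg g1]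
        by_cases g2 : x.2 = 2
        · have g3 : (σ⁻¹ : A).1 x.2 = 1 := by rw [NAs_inv_apply, h1]; exact g2
          rw [if_pos g2, if_pos g3]
        · have g3 : ¬ (σ⁻¹ : A).1 x.2 = 1 := by rw [NAs_inv_apply, h1]; exact g2
          rw [if_neg g2, if_neg g3]
    rw [e2]
    conv_rhs => rw [dr_eq b]
    rw [← map_commutatorElement]
    show PP _ = PP _
    congr 1
    funext x
    show (if x.2 = 0 then dr ⁅b, b'⁆ else 1) =
      ⁅(if x.2 = 0 then dr b else if x.2 = 1 then rt (b x.1) else 1),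
        (if x.2 = 0 then dr b' else if x.2 = 2 then rt (b' x.1) else 1)⁆
    by_cases g0 : x.2 = 0
    · rw [if_pos g0, if_pos g0, if_pos g0, map_commutatorElement]
    · rw [if_neg g0, if_neg g0, if_neg g0]
      by_cases g1 : x.2 = 1
      · have g2 : ¬ x.2 = 2 := by rw [g1]; decide
        rw [if_neg g2, commutatorElement_one_right]
      · rw [if_neg g1, commutatorElement_one_left]
  rw [e1, commutatorElement_def]
  have m1 : rt σ * dr b' * (rt σ)⁻¹ ∈ GG :=
    GG.mul_mem (GG.mul_mem (rt_mem σ) (dr_mem b')) (GG.inv_mem (rt_mem σ))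
  exact GG.mul_mem (GG.mul_mem (GG.mul_mem (dr_mem b) m1) (GG.inv_mem (dr_mem b))) (GG.inv_mem m1)

open scoped commutatorElement in
theorem NAs_D0 (b : B) : NAsD 0 b ∈ GG := by
  have h1 : ∀ (i : I) (a : A), (Pi.mulSingle i a : B) ∈ GG.comap (NAsD 0) := by
    intro i a
    have h2 : commutator A ≤ (GG.comap (NAsD 0)).comap (MonoidHom.mulSingle (fun _ : I => A) i) := by
      rw [commutator_def, Subgroup.commutator_le]
      intro a1 _ a2 _
      rw [Subgroup.mem_comap, map_commutatorElement, Subgroup.mem_comap]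
      exact NAs_comm _ _
    have h3 : commutator A = ⊤ := commutator_alternatingGroup_eq_top (by
      rw [Nat.card_eq_fintype_card, Fintype.card_fin])
    rw [h3] at h2
    exact h2 (Subgroup.mem_top a)
  have h2 : b ∈ GG.comap (NAsD 0) :=
    Subgroup.pi_mem_of_mulSingle_mem b (fun i => h1 i (b i))
  exact h2

theorem Delta_mem (y : Y) (b : B) : PP (fun x => if x.2 = y then dr b else 1) ∈ GG := by
  obtain ⟨σ, hσ⟩ := NAs_trans 0 y
  have h1 : PP (fun x => if x.2 = y then dr b else 1) = rt σ * NAsD 0 b * (rt σ)⁻¹ := by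
    show _ = rt σ * PP (fun x => if x.2 = 0 then dr b else 1) * (rt σ)⁻¹
    rw [conj_PP]
    congr 1
    funext x
    show (if x.2 = y then dr b else 1) = (if (σ⁻¹ : A).1 x.2 = 0 then dr b else 1)
    by_cases g0 : x.2 = y
    · have g1 : (σ⁻¹ : A).1 x.2 = 0 := by rw [NAs_inv_apply, hσ]; exact g0
      rw [if_pos g0, if_pos g1]
    · have g1 : ¬ (σ⁻¹ : A).1 x.2 = 0 := by rw [NAs_inv_apply, hσ]; exact g0
      rw [if_neg g0, if_neg g1]
  rw [h1]
  exact GG.mul_mem (GG.mul_mem (rt_mem σ) (NAs_D0 b)) (GG.inv_mem (rt_mem σ))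

theorem single_rt_mem (x : X) (a : A) : PP (Pi.mulSingle x (rt a)) ∈ GG := by
  obtain ⟨i, y⟩ := x
  have hbase : PP (Pi.mulSingle ((i, 1) : X) (rt a)) ∈ GG := by
    have h1 : PP (Pi.mulSingle ((i, 1) : X) (rt a)) =
        (NAsD 0 (Pi.mulSingle i a))⁻¹ * dr (Pi.mulSingle i a) := by
      rw [eq_inv_mul_iff_mul_eq]
      conv_rhs => rw [dr_eq]
      show PP (fun x => if x.2 = 0 then dr (Pi.mulSingle i a) else 1) * _ = _
      rw [← map_mul]
      congr 1
      funext x
      obtain ⟨k, z⟩ := x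
      show (if z = 0 then dr (Pi.mulSingle i a) else 1) *
        (Pi.mulSingle ((i, 1) : X) (rt a) : X → Equiv.Perm (List X)) (k, z) =
        if z = 0 then dr (Pi.mulSingle i a) else if z = 1 then
          rt ((Pi.mulSingle i a : B) k) else 1
      by_cases g0 : z = 0
      · have g1 : ((k, z) : X) ≠ (i, 1) := by
          rw [g0]
          intro h
          exact absurd (show (0 : Fin 5) = 1 from congrArg Prod.snd h) (by decide)
        rw [if_pos g0, if_pos g0, Pi.mulSingle_eq_of_ne g1, mul_one]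
      · rw [if_neg g0, if_neg g0, one_mul]
        by_cases g1 : z = 1
        · rw [if_pos g1, g1]
          by_cases g2 : k = i
          · rw [g2, Pi.mulSingle_eq_same, Pi.mulSingle_eq_same]
          · have g3 : ((k, 1) : X) ≠ (i, 1) := fun h => g2 (congrArg Prod.fst h)
            rw [Pi.mulSingle_eq_of_ne g3, Pi.mulSingle_eq_of_ne g2, map_one]
        · have g3 : ((k, z) : X) ≠ (i, 1) := fun h => g1 (congrArg Prod.snd h)
          rw [if_neg g1, Pi.mulSingle_eq_of_ne g3]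
    rw [h1]
    exact GG.mul_mem (GG.inv_mem (NAs_D0 _)) (dr_mem _)
  obtain ⟨σ, hσ⟩ := NAs_trans 1 y
  have h2 : PP (Pi.mulSingle ((i, y) : X) (rt a)) =
      rt σ * PP (Pi.mulSingle ((i, 1) : X) (rt a)) * (rt σ)⁻¹ := by
    rw [conj_PP]
    congr 1
    funext x
    obtain ⟨k, z⟩ := x
    show (Pi.mulSingle ((i, y) : X) (rt a) : X → Equiv.Perm (List X)) (k, z) =
      (Pi.mulSingle ((i, 1) : X) (rt a) : X → Equiv.Perm (List X)) (k, (σ⁻¹ : A).1 z)
    by_cases g0 : ((k, z) : X) = (i, y)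
    · have g1 : ((k, (σ⁻¹ : A).1 z) : X) = (i, 1) := by
        have g2 : k = i := congrArg Prod.fst g0
        have g3 : z = y := congrArg Prod.snd g0
        have g4 : (σ⁻¹ : A).1 z = 1 := by rw [NAs_inv_apply, hσ]; exact g3
        rw [g2, g4]
      rw [g0, g1, Pi.mulSingle_eq_same, Pi.mulSingle_eq_same]
    · have g1 : ((k, (σ⁻¹ : A).1 z) : X) ≠ (i, 1) := by
        intro h
        apply g0
        have g2 : k = i := congrArg Prod.fst h
        have g3 : (σ⁻¹ : A).1 z = 1 := congrArg Prod.snd h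
        rw [NAs_inv_apply, hσ] at g3
        rw [g2, g3]
      rw [Pi.mulSingle_eq_of_ne g0, Pi.mulSingle_eq_of_ne g1]
  rw [h2]
  exact GG.mul_mem (GG.mul_mem (rt_mem σ) hbase) (GG.inv_mem (rt_mem σ))





theorem perfB_833 (H : Subgroup B) (h : ∀ b b' : B, b * b' * b⁻¹ * b'⁻¹ ∈ H) (b : B) : b ∈ H := by
  have hA : commutator A = ⊤ := commutator_alternatingGroup_eq_top (by simp)
  have hA' : ⁅(⊤ : Subgroup A), (⊤ : Subgroup A)⁆ = ⊤ := hA
  have h1 : ⁅(⊤ : Subgroup B), (⊤ : Subgroup B)⁆ ≤ H := by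
    rw [Subgroup.commutator_le]
    intro b _ b' _
    exact h b b'
  have h2 : ⁅(⊤ : Subgroup B), (⊤ : Subgroup B)⁆ = ⊤ := by
    have := Subgroup.commutator_pi_pi_of_finite (η := I) (Gs := fun _ => A)
      (fun _ => (⊤ : Subgroup A)) (fun _ => (⊤ : Subgroup A))
    rw [Subgroup.pi_top] at this
    rw [this, hA', Subgroup.pi_top]
  exact h1 (by rw [h2]; trivial)

/-- level homomorphism -/
def TF_833 (F : I → (B →* Equiv.Perm (List X))) (y : Y) : B →* Equiv.Perm (List X) where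
  toFun b := PP (fun x => if x.2 = y then F x.1 b else 1)
  map_one' := by
    have : (fun x : X => if x.2 = y then F x.1 1 else 1) = 1 := by
      funext x; split_ifs <;> simp
    rw [this, map_one]
  map_mul' s t := by
    rw [← map_mul]
    congr 1
    funext x
    simp only [Pi.mul_apply]
    split_ifs <;> simp

theorem TF_apply_833 (F : I → (B →* Equiv.Perm (List X))) (y : Y) (b : B) :
    TF_833 F y b = PP (fun x => if x.2 = y then F x.1 b else 1) := rfl

theorem ex_833 (y : Y) : ∃ s s' : A, s.1 y ≠ y ∧ s'.1 y ≠ y ∧ s.1 y ≠ s'.1 y := by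
  have h : finRotate 5 ∈ alternatingGroup (Fin 5) := by
    rw [Equiv.Perm.mem_alternatingGroup, sign_finRotate]
    decide
  have q1 : ∀ y : Fin 5, finRotate 5 y ≠ y := by decide
  have q2 : ∀ y : Fin 5, finRotate 5 (finRotate 5 y) ≠ y := by decide
  have q3 : ∀ y : Fin 5, finRotate 5 y ≠ finRotate 5 (finRotate 5 y) := by decide
  exact ⟨(⟨finRotate 5, h⟩ : A), ((⟨finRotate 5, h⟩ : A) * (⟨finRotate 5, h⟩ : A)), q1 y, q2 y, q3 y⟩

theorem trick_833
    (conj_PP : ∀ (σ : A) (w : X → Equiv.Perm (List X)), rt σ * PP w * (rt σ)⁻¹ = PP (fun x => w (x.1, (σ⁻¹ : A).1 x.2)))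
    (K : Subgroup (Equiv.Perm (List X))) (hrt : ∀ σ : A, rt σ ∈ K)
    (hnorm : ∀ h ∈ GG, ∀ r ∈ K, h * r * h⁻¹ ∈ K)
    (F : I → (B →* Equiv.Perm (List X)))
    (hTG : ∀ y b, TF_833 F y b ∈ GG) (y : Y) (b : B) : TF_833 F y b ∈ K := by
  have ha : ∀ (σ : A) (y : Y) (b : B), rt σ * TF_833 F y b * (rt σ)⁻¹ = TF_833 F (σ.1 y) b := by
    intro σ y b
    rw [TF_apply_833, TF_apply_833, conj_PP]
    congr 1
    funext x
    have : ((σ⁻¹ : A).1 x.2 = y) ↔ (x.2 = σ.1 y) := by
      constructor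
      · intro h; rw [← h]; simp
      · intro h; rw [h]; simp
    simp only [this]
  have hb : ∀ (σ : A) (y : Y) (b : B), TF_833 F (σ.1 y) b * (TF_833 F y b)⁻¹ ∈ K := by
    intro σ y b
    rw [← ha]
    have h1 : TF_833 F y b * (rt σ)⁻¹ * (TF_833 F y b)⁻¹ ∈ K :=
      hnorm _ (hTG y b) _ (K.inv_mem (hrt σ))
    have h2 := K.mul_mem (hrt σ) h1
    simpa only [mul_assoc] using h2
  have hmain : ∀ b b' : B, TF_833 F y (b * b' * b⁻¹ * b'⁻¹) ∈ K := by
    intro b b'
    obtain ⟨s, s', h1, h2, h3⟩ := ex_833 y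
    have k1 := hb s y b⁻¹
    have k2 := hb s' y b'⁻¹
    have k3 := K.mul_mem (K.mul_mem (K.mul_mem k1 k2) (K.inv_mem k1)) (K.inv_mem k2)
    have k4 : (TF_833 F (s.1 y) b⁻¹ * (TF_833 F y b⁻¹)⁻¹) *
        (TF_833 F (s'.1 y) b'⁻¹ * (TF_833 F y b'⁻¹)⁻¹) *
        (TF_833 F (s.1 y) b⁻¹ * (TF_833 F y b⁻¹)⁻¹)⁻¹ *
        (TF_833 F (s'.1 y) b'⁻¹ * (TF_833 F y b'⁻¹)⁻¹)⁻¹ = TF_833 F y (b * b' * b⁻¹ * b'⁻¹) := by
      simp only [TF_apply_833]
      simp only [← map_inv PP, ← map_mul PP]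
      congr 1
      funext x
      simp only [Pi.mul_apply, Pi.inv_apply]
      by_cases hx : x.2 = y
      · have q1 : ¬ x.2 = s.1 y := by rw [hx]; exact fun h => h1 h.symm
        have q2 : ¬ x.2 = s'.1 y := by rw [hx]; exact fun h => h2 h.symm
        simp only [if_neg q1, if_neg q2, if_pos hx, map_inv, inv_inv, one_mul, map_mul]
      · by_cases hx1 : x.2 = s.1 y
        · have q2 : ¬ x.2 = s'.1 y := by rw [hx1]; exact h3
          simp only [if_neg hx, if_neg q2, if_pos hx1, map_inv, inv_inv, one_mul, mul_one,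
            inv_one, inv_mul_cancel, mul_inv_cancel]
        · simp only [if_neg hx, if_neg hx1, inv_one, one_mul, mul_one]
          simp
    rw [← k4]
    exact k3
  exact perfB_833 (K.comap (TF_833 F y)) hmain b

/-- the group contains its copies below the first level -/
theorem PP_single_mem_of
    (conj_PP : ∀ (σ : A) (w : X → Equiv.Perm (List X)), rt σ * PP w * (rt σ)⁻¹ = PP (fun x => w (x.1, (σ⁻¹ : A).1 x.2)))
    (dr_eq : ∀ b : B, dr b = PP (fun x => if x.2 = 0 then dr b else if x.2 = 1 then rt (b x.1) else 1))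
    (Delta_mem : ∀ (y : Y) (b : B), PP (fun x => if x.2 = y then dr b else 1) ∈ GG)
    (single_rt_mem : ∀ (x : X) (a : A), PP (Pi.mulSingle x (rt a)) ∈ GG)
    (x : X) (g : Equiv.Perm (List X)) (hg : g ∈ GG) : PP (Pi.mulSingle x g) ∈ GG := by
  have hTheta : ∀ (y : Y) (b : B), TF_833 (fun i => rt.comp (Pi.evalMonoidHom _ i)) y b ∈ GG := by
    intro y b
    have h1 : TF_833 (fun i => rt.comp (Pi.evalMonoidHom _ i)) y b
        = PP (Pi.mulSingle (0, y) (rt (b 0))) * PP (Pi.mulSingle (1, y) (rt (b 1)))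
          * PP (Pi.mulSingle (2, y) (rt (b 2))) := by
      rw [TF_apply_833, ← map_mul, ← map_mul]
      congr 1
      funext x
      obtain ⟨i, z⟩ := x
      by_cases hz : z = y
      · subst hz
        fin_cases i <;> simp [Pi.mulSingle_apply]
      · simp [Pi.mulSingle_apply, hz]
    rw [h1]
    exact GG.mul_mem (GG.mul_mem (single_rt_mem _ _) (single_rt_mem _ _)) (single_rt_mem _ _)
  have hDelta : ∀ (y : Y) (b : B), TF_833 (fun _ => dr) y b ∈ GG := fun y b => Delta_mem y b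
  let K : Subgroup (Equiv.Perm (List X)) :=
    GG.comap (PP.comp (MonoidHom.mulSingle (fun _ : X => Equiv.Perm (List X)) x))
  have hK : ∀ r, r ∈ K ↔ PP (Pi.mulSingle x r) ∈ GG := fun r => Iff.rfl
  have hrt : ∀ σ : A, rt σ ∈ K := fun σ => single_rt_mem x σ
  have hex : ∀ h ∈ GG, ∃ u : X → Equiv.Perm (List X), PP u ∈ GG ∧ u x = h := by
    intro h hh
    induction hh using Subgroup.closure_induction with
    | mem h hh =>
      rcases hh with ⟨a, rfl⟩ | ⟨b, rfl⟩
      · exact ⟨_, single_rt_mem x a, by simp⟩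
      · exact ⟨_, Delta_mem x.2 b, by simp⟩
    | one => exact ⟨1, by rw [map_one]; exact GG.one_mem, rfl⟩
    | mul a b _ _ iha ihb =>
      obtain ⟨u, hu, hux⟩ := iha
      obtain ⟨v, hv, hvx⟩ := ihb
      exact ⟨u * v, by rw [map_mul]; exact GG.mul_mem hu hv, by rw [Pi.mul_apply, hux, hvx]⟩
    | inv a _ iha =>
      obtain ⟨u, hu, hux⟩ := iha
      exact ⟨u⁻¹, by rw [map_inv]; exact GG.inv_mem hu, by rw [Pi.inv_apply, hux]⟩
  have hnorm : ∀ h ∈ GG, ∀ r ∈ K, h * r * h⁻¹ ∈ K := by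
    intro h hh r hr
    obtain ⟨u, hu, hux⟩ := hex h hh
    rw [hK] at hr ⊢
    have h1 : PP (Pi.mulSingle x (h * r * h⁻¹)) = PP u * PP (Pi.mulSingle x r) * (PP u)⁻¹ := by
      rw [← map_inv, ← map_mul, ← map_mul]
      congr 1
      funext z
      simp only [Pi.mul_apply, Pi.inv_apply]
      by_cases hz : z = x
      · subst hz
        simp [hux]
      · simp [Pi.mulSingle_apply, hz]
    rw [h1]
    exact GG.mul_mem (GG.mul_mem hu hr) (GG.inv_mem hu)
  have hdr : ∀ b : B, dr b ∈ K := by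
    intro b
    have h1 : dr b = TF_833 (fun _ => dr) 0 b
        * TF_833 (fun i => rt.comp (Pi.evalMonoidHom _ i)) 1 b := by
      rw [TF_apply_833, TF_apply_833, ← map_mul]
      conv_lhs => rw [dr_eq b]
      congr 1
      funext z
      simp only [Pi.mul_apply]
      by_cases h0 : z.2 = 0
      · have h1 : ¬ z.2 = 1 := by rw [h0]; decide
        simp [h0]
      · by_cases h1 : z.2 = 1
        · simp [h1]
        · simp [h0, h1]
    rw [h1]
    exact K.mul_mem (trick_833 conj_PP K hrt hnorm _ hDelta 0 b)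
      (trick_833 conj_PP K hrt hnorm _ hTheta 1 b)
  have hle : GG ≤ K := by
    unfold GG
    rw [Subgroup.closure_le]
    rintro _ (⟨a, rfl⟩ | ⟨b, rfl⟩)
    · exact hrt a
    · exact hdr b
  exact hle hg



theorem core_ex : ∃ c : Core GG, (∀ a, ((c.iA a : GG) : Equiv.Perm (List X)) = rt a) ∧ (∀ b, ((c.iB b : GG) : Equiv.Perm (List X)) = dr b) :=
  core_exists conj_PP dr_eq (PP_single_mem_of conj_PP dr_eq Delta_mem single_rt_mem)

theorem PP_single_mem (x : X) (g : Equiv.Perm (List X)) (hg : g ∈ GG) : PP (Pi.mulSingle x g) ∈ GG :=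
  PP_single_mem_of conj_PP dr_eq Delta_mem single_rt_mem x g hg

end Pool.Agent.Helper889.Na
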