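import Mathlib
import Pool.Agent.Helper889.Na.PermA

set_option autoImplicit false
set_option linter.unusedSectionVars false
set_option linter.unusedVariables false

namespace Pool.Agent.Helper889.Na

/-- the states -/
abbrev St := A ⊕ B

/-- output -/
def outp : St → Equiv.Perm X
  | Sum.inl s => (Equiv.refl I).prodCongr s.1
  | Sum.inr _ => 1

/-- transition -/
def trans : St → X → St
  | Sum.inl _, _ => Sum.inl 1
  | Sum.inr b, x => if x.2 = 0 then Sum.inr b else if x.2 = 1 then Sum.inl (b x.1) else Sum.inl 1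

/-- action of the states -/
def act : St → Equiv.Perm (List X)
  | Sum.inl s => rt s
  | Sum.inr b => dr b

theorem act_nil (q : St) : act q [] = [] := by
  cases q <;> rfl

theorem act_cons (q : St) (x : X) (w : List X) : act q (x :: w) = outp q x :: act (trans q x) w := by
  cases q with
  | inl s =>
    change rtF s.1 (x :: w) = ((Equiv.refl I).prodCongr s.1) x :: rt 1 w
    rw [map_one]
    rfl
  | inr b =>
    change drF b (x :: w) = x :: act (trans (Sum.inr b) x) w
    simp only [drF, trans]
    split_ifs with h0 h1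
    · rfl
    · rfl
    · change x :: w = x :: rt 1 w
      rw [map_one]
      rfl

theorem transport
    (hmean : ¬ ∃ m : Set GG → ℝ, (∀ A, 0 ≤ m A) ∧ m Set.univ = 1 ∧
          (∀ A B, Disjoint A B → m (A ∪ B) = m A + m B) ∧
          (∀ (g : GG) A, m ((fun x => g * x) '' A) = m A))
    (hfree : ¬ ∃ φ : FreeGroup (Fin 2) →* GG, Function.Injective φ) :
    ∃ (d n : ℕ) (σ : Fin n → Equiv.Perm (Fin d)) (τ : Fin n → Fin d → Fin n)
      (f : Fin n → Equiv.Perm (List (Fin d))),
      (∀ q : Fin n, f q [] = []) ∧
      (∀ (q : Fin n) (x : Fin d) (w : List (Fin d)),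
          f q (x :: w) = σ q x :: f (τ q x) w) ∧
      (¬ ∃ m : Set ↥(Subgroup.closure (Set.range f)) → ℝ,
          (∀ A, 0 ≤ m A) ∧ m Set.univ = 1 ∧
          (∀ A B, Disjoint A B → m (A ∪ B) = m A + m B) ∧
          (∀ (g : ↥(Subgroup.closure (Set.range f))) A,
              m ((fun x => g * x) '' A) = m A)) ∧
      (¬ ∃ φ : FreeGroup (Fin 2) →* ↥(Subgroup.closure (Set.range f)),
          Function.Injective φ) := by
  classical
  let e : X ≃ Fin (Fintype.card X) := Fintype.equivFin X
  let s : St ≃ Fin (Fintype.card St) := Fintype.equivFin St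
  let L : List X ≃ List (Fin (Fintype.card X)) := Equiv.listEquivOfEquiv e
  let Ψ : Equiv.Perm (List X) ≃* Equiv.Perm (List (Fin (Fintype.card X))) := L.permCongrHom
  have hΨ : ∀ (p : Equiv.Perm (List X)) w, Ψ p w = L (p (L.symm w)) := fun p w => rfl
  let f : Fin (Fintype.card St) → Equiv.Perm (List (Fin (Fintype.card X))) := fun q => Ψ (act (s.symm q))
  have hcl : Subgroup.closure (Set.range f) = GG.map Ψ.toMonoidHom := by
    rw [GG, MonoidHom.map_closure]
    congr 1
    ext p
    constructor
    · rintro ⟨q, rfl⟩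
      refine ⟨act (s.symm q), ?_, rfl⟩
      cases s.symm q with
      | inl a => exact Or.inl ⟨a, rfl⟩
      | inr b => exact Or.inr ⟨b, rfl⟩
    · rintro ⟨p, hp | hp, rfl⟩
      · obtain ⟨a, rfl⟩ := hp
        refine ⟨s (Sum.inl a), ?_⟩
        change Ψ (act (s.symm (s (Sum.inl a)))) = _
        rw [Equiv.symm_apply_apply]
        rfl
      · obtain ⟨b, rfl⟩ := hp
        refine ⟨s (Sum.inr b), ?_⟩
        change Ψ (act (s.symm (s (Sum.inr b)))) = _
        rw [Equiv.symm_apply_apply]
        rfl
  refine ⟨Fintype.card X, Fintype.card St, fun q => e.permCongr (outp (s.symm q)),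
    fun q x => s (trans (s.symm q) (e.symm x)), f, ?_, ?_, ?_, ?_⟩
  · intro q
    change L (act (s.symm q) (L.symm [])) = []
    have h1 : L.symm [] = [] := rfl
    rw [h1, act_nil]
    rfl
  · intro q x w
    change L (act (s.symm q) (L.symm (x :: w))) = e (outp (s.symm q) (e.symm x)) ::
      L (act (s.symm (s (trans (s.symm q) (e.symm x)))) (L.symm w))
    have h1 : L.symm (x :: w) = e.symm x :: L.symm w := rfl
    rw [h1, act_cons, Equiv.symm_apply_apply]
    rfl
  · rw [hcl]
    let E : GG ≃* GG.map Ψ.toMonoidHom := GG.equivMapOfInjective Ψ.toMonoidHom Ψ.injective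
    rintro ⟨m, h0, h1, hadd, hinv⟩
    apply hmean
    refine ⟨fun S => m (E '' S), fun S => h0 _, ?_, ?_, ?_⟩
    · change m (E '' Set.univ) = 1
      rw [Set.image_univ_of_surjective E.surjective, h1]
    · intro S T hST
      change m (E '' (S ∪ T)) = m (E '' S) + m (E '' T)
      rw [Set.image_union]
      exact hadd _ _ (Set.disjoint_image_of_injective E.injective hST)
    · intro g S
      change m (E '' ((fun x => g * x) '' S)) = m (E '' S)
      rw [← hinv (E g) (E '' S), Set.image_image, Set.image_image]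
      congr 1
      ext x
      simp only [Set.mem_image, map_mul]
  · rw [hcl]
    let E : GG ≃* GG.map Ψ.toMonoidHom := GG.equivMapOfInjective Ψ.toMonoidHom Ψ.injective
    rintro ⟨φ, hφ⟩
    exact hfree ⟨E.symm.toMonoidHom.comp φ, E.symm.injective.comp hφ⟩

end Pool.Agent.Helper889.Na
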